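import Mathlib

/-!
Simplicial chains on finite families of finite sets, with signs.
-/

set_option autoImplicit false
set_option linter.unusedSectionVars false

namespace Pool.Agent.MP19e880

variable {V : Type} [Fintype V] [LinearOrder V] {k : Type} [Field k]

/-- The sign of inserting `v` into `A`. -/
def eps (k : Type) [Field k] (v : V) (A : Finset V) : k :=
  (-1) ^ (A.filter (fun w => w < v)).card

/-- The boundary of a chain. -/
def bd (c : Finset V → k) : Finset V → k := fun A => ∑ v ∈ Aᶜ, eps k v A * c (insert v A)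

/-- `c` is a chain supported on the members of `P` of cardinality `j`. -/
def Ch (P : Finset V → Prop) (j : ℕ) (c : Finset V → k) : Prop :=
  ∀ A, c A ≠ 0 → P A ∧ A.card = j

/-- The restriction of a chain to the sets avoiding `x`. -/
def res (x : V) (c : Finset V → k) : Finset V → k := fun A => if x ∈ A then 0 else c A

/-- The link part of a chain at `x`. -/
def lk (x : V) (c : Finset V → k) : Finset V → k :=
  fun A => if x ∈ A then 0 else eps k x A * c (insert x A)

theorem eps_mul_self (v : V) (A : Finset V) : eps k v A * eps k v A = 1 := by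
  unfold eps
  rw [← pow_add, ← two_mul, pow_mul]
  simp

theorem eps_ne_zero (v : V) (A : Finset V) : eps k v A ≠ 0 := by
  unfold eps
  exact pow_ne_zero _ (by simp)

theorem eps_insert (v x : V) (A : Finset V) (hx : x ∉ A) :
    eps k v (insert x A) = if x < v then - eps k v A else eps k v A := by
  unfold eps
  rw [Finset.filter_insert]
  split_ifs with h
  · rw [Finset.card_insert_of_notMem (by simp [hx]), pow_succ]
    ring
  · rfl

theorem eps_swap (v x : V) (A : Finset V) (hv : v ∉ A) (hx : x ∉ A) (hvx : v ≠ x) :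
    eps k v (insert x A) * eps k x A = - (eps k x (insert v A) * eps k v A) := by
  rw [eps_insert v x A hx, eps_insert x v A hv]
  rcases lt_or_gt_of_ne hvx with h | h
  · rw [if_neg (not_lt.mpr h.le), if_pos h]
    ring
  · rw [if_pos h, if_neg (not_lt.mpr h.le)]
    ring

theorem eps_swap' (v x : V) (A : Finset V) (hv : v ∉ A) (hx : x ∉ A) (hvx : v ≠ x) :
    eps k x A * eps k v (insert x A) = - (eps k v A * eps k x (insert v A)) := by
  rw [mul_comm, eps_swap v x A hv hx hvx, mul_comm]

theorem bd_add (c e : Finset V → k) : bd (c + e) = bd c + bd e := by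
  funext A
  simp only [bd, Pi.add_apply, mul_add, Finset.sum_add_distrib]

theorem bd_smul (a : k) (c : Finset V → k) : bd (a • c) = a • bd c := by
  funext A
  simp only [bd, Pi.smul_apply, smul_eq_mul, Finset.mul_sum]
  exact Finset.sum_congr rfl fun v _ => by ring

theorem bd_sub (c e : Finset V → k) : bd (c - e) = bd c - bd e := by
  funext A
  simp only [bd, Pi.sub_apply, mul_sub, Finset.sum_sub_distrib]

theorem bd_zero : bd (0 : Finset V → k) = 0 := by
  funext A
  simp [bd]

theorem bd_bd (c : Finset V → k) : bd (bd c) = 0 := by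
  funext A
  simp only [bd, Pi.zero_apply, Finset.mul_sum]
  rw [Finset.sum_sigma']
  refine Finset.sum_involution (fun p _ => ⟨p.2, p.1⟩) ?_ ?_ ?_ ?_
  · rintro ⟨v, w⟩ h
    simp only [Finset.mem_sigma, Finset.mem_compl, Finset.mem_insert, not_or] at h
    obtain ⟨hv, hwv, hw⟩ := h
    dsimp only
    have h1 := eps_swap' (k := k) w v A hw hv hwv
    have h2 : insert v (insert w A) = insert w (insert v A) := Finset.insert_comm _ _ _
    rw [h2, ← mul_assoc, ← mul_assoc, h1]
    ring
  · rintro ⟨v, w⟩ h _ h'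
    simp only [Finset.mem_sigma, Finset.mem_compl, Finset.mem_insert, not_or] at h
    have : w = v := by
      have := congrArg Sigma.fst h'
      exact this
    exact h.2.1 this
  · rintro ⟨v, w⟩ h
    simp only [Finset.mem_sigma, Finset.mem_compl, Finset.mem_insert, not_or] at h ⊢
    exact ⟨h.2.2, fun hh => h.2.1 hh.symm, h.1⟩
  · rintro ⟨v, w⟩ _
    rfl

theorem bd_notMem (x : V) (c : Finset V → k) (A : Finset V) (hx : x ∉ A) :
    bd c A = bd (res x c) A + lk x c A := by
  have hx' : x ∈ Aᶜ := by simpa using hx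
  simp only [bd]
  rw [← Finset.add_sum_erase _ _ hx', ← Finset.add_sum_erase Aᶜ
    (fun v => eps k v A * res x c (insert v A)) hx']
  have h1 : res x c (insert x A) = 0 := by simp [res]
  have h2 : ∑ v ∈ Aᶜ.erase x, eps k v A * res x c (insert v A) =
      ∑ v ∈ Aᶜ.erase x, eps k v A * c (insert v A) := by
    refine Finset.sum_congr rfl fun v hv => ?_
    rw [Finset.mem_erase] at hv
    have : x ∉ insert v A := by
      rw [Finset.mem_insert, not_or]
      exact ⟨fun h => hv.1 h.symm, hx⟩
    simp only [res, if_neg this]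
  rw [h1, h2]
  simp only [lk, if_neg hx]
  ring

theorem bd_mem_of_avoid (x : V) (c : Finset V → k) (hc : ∀ A, x ∈ A → c A = 0) (A : Finset V)
    (hx : x ∈ A) : bd c A = 0 := by
  simp only [bd]
  refine Finset.sum_eq_zero fun v _ => ?_
  rw [hc _ (Finset.mem_insert_of_mem hx), mul_zero]

theorem res_avoid (x : V) (c : Finset V → k) : ∀ A, x ∈ A → res x c A = 0 := by
  intro A hA
  simp [res, hA]

theorem lk_avoid (x : V) (c : Finset V → k) : ∀ A, x ∈ A → lk x c A = 0 := by
  intro A hA
  simp [lk, hA]

theorem bd_lk (x : V) (c : Finset V → k) : bd (lk x c) = - lk x (bd c) := by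
  funext A
  by_cases hx : x ∈ A
  · rw [bd_mem_of_avoid x _ (lk_avoid x c) A hx]
    simp [lk, hx]
  · have hx' : x ∈ Aᶜ := by simpa using hx
    simp only [Pi.neg_apply]
    have h1 : lk x (bd c) A = eps k x A * bd c (insert x A) := by simp [lk, hx]
    rw [h1]
    simp only [bd]
    have h2 : (insert x A)ᶜ = Aᶜ.erase x := by
      ext v
      simp only [Finset.mem_compl, Finset.mem_insert, not_or, Finset.mem_erase]
    rw [h2, ← Finset.add_sum_erase Aᶜ _ hx', Finset.mul_sum, ← Finset.sum_neg_distrib]
    have h3 : lk x c (insert x A) = 0 := by simp [lk]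
    rw [h3, mul_zero, zero_add]
    refine Finset.sum_congr rfl fun v hv => ?_
    rw [Finset.mem_erase, Finset.mem_compl] at hv
    have h4 : x ∉ insert v A := by
      rw [Finset.mem_insert, not_or]
      exact ⟨fun h => hv.1 h.symm, hx⟩
    have h5 : lk x c (insert v A) = eps k x (insert v A) * c (insert x (insert v A)) := by
      simp only [lk, if_neg h4]
    rw [h5, Finset.insert_comm v x A, ← mul_assoc, ← mul_assoc,
      eps_swap' (k := k) v x A hv.2 hx hv.1]
    ring

theorem Ch.add {P : Finset V → Prop} {j : ℕ} {c e : Finset V → k} (hc : Ch P j c)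
    (he : Ch P j e) : Ch P j (c + e) := by
  intro A hA
  by_cases h : c A = 0
  · refine he A fun h' => hA ?_
    simp [h, h']
  · exact hc A h

theorem Ch.smul {P : Finset V → Prop} {j : ℕ} {c : Finset V → k} (hc : Ch P j c)
    (a : k) : Ch P j (a • c) := by
  intro A hA
  refine hc A fun h' => hA ?_
  simp [h']

theorem Ch.sub {P : Finset V → Prop} {j : ℕ} {c e : Finset V → k} (hc : Ch P j c)
    (he : Ch P j e) : Ch P j (c - e) := by
  intro A hA
  by_cases h : c A = 0
  · refine he A fun h' => hA ?_
    simp [h, h']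
  · exact hc A h

theorem Ch.zero {P : Finset V → Prop} {j : ℕ} : Ch P j (0 : Finset V → k) := by
  intro A hA
  simp at hA

theorem Ch.mono {P Q : Finset V → Prop} {j : ℕ} {c : Finset V → k} (hc : Ch P j c)
    (h : ∀ A, A.card = j → P A → Q A) : Ch Q j c := by
  intro A hA
  exact ⟨h A (hc A hA).2 (hc A hA).1, (hc A hA).2⟩

/-- All cycles are boundaries. -/
def Acyc (k : Type) [Field k] (P : Finset V → Prop) : Prop :=
  ∀ (j : ℕ) (z : Finset V → k), Ch P j z → bd z = 0 → ∃ c : Finset V → k, Ch P (j + 1) c ∧ bd c = z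

/-- The link of `σ` in `S`, without the vertices in `X`. -/
def LX (S : Finset (Finset V)) (σ X : Finset V) : Finset V → Prop :=
  fun G => Disjoint G σ ∧ G ∪ σ ∈ S ∧ Disjoint G X

/-- The push off a vertex: if `c` is a chain of the link of `σ` avoiding `X`, whose link part
at `x` is the boundary of `e`, then `res x c + e` is a chain avoiding `x` with the same boundary
off `x`. -/
theorem push (S : Finset (Finset V)) (hS : ∀ F ∈ S, ∀ G : Finset V, G ⊆ F → G ∈ S)
    (σ X : Finset V) (x : V) (j : ℕ) (c e : Finset V → k)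
    (hc : Ch (LX S σ X) (j + 1) c) (he : Ch (LX S (insert x σ) X) (j + 1) e)
    (hz : ∀ A, x ∈ A → bd c A = 0) (hb : bd e = lk x c) :
    Ch (LX S σ (insert x X)) (j + 1) (res x c + e) ∧ bd (res x c + e) = bd c := by
  have heav : ∀ A, x ∈ A → e A = 0 := by
    intro A hA
    by_contra h
    have := (he A h).1.1
    rw [Finset.disjoint_insert_right] at this
    exact this.1 hA
  constructor
  · refine Ch.add ?_ ?_
    · intro A hA
      have hxA : x ∉ A := fun h => hA (res_avoid x c A h)
      have hcA : c A ≠ 0 := by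
        simpa [res, hxA] using hA
      obtain ⟨⟨h1, h2, h3⟩, h4⟩ := hc A hcA
      exact ⟨⟨h1, h2, by rw [Finset.disjoint_insert_right]; exact ⟨hxA, h3⟩⟩, h4⟩
    · intro A hA
      obtain ⟨⟨h1, h2, h3⟩, h4⟩ := he A hA
      rw [Finset.disjoint_insert_right] at h1
      refine ⟨⟨h1.2, hS _ h2 _ ?_, by rw [Finset.disjoint_insert_right]; exact ⟨h1.1, h3⟩⟩, h4⟩
      exact Finset.union_subset_union (Finset.Subset.refl _) (Finset.subset_insert _ _)
  · funext A
    rw [bd_add, Pi.add_apply, hb]
    by_cases hx : x ∈ A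
    · rw [bd_mem_of_avoid x _ (res_avoid x c) A hx, lk_avoid x c A hx, hz A hx, add_zero]
    · rw [bd_notMem x c A hx]

theorem lk_chain (S : Finset (Finset V)) (σ X : Finset V) (x : V) (j : ℕ) (c : Finset V → k)
    (hc : Ch (LX S σ X) (j + 1) c) : Ch (LX S (insert x σ) X) j (lk x c) := by
  intro A hA
  have hxA : x ∉ A := fun h => hA (lk_avoid x c A h)
  have hcA : c (insert x A) ≠ 0 := by
    intro h
    apply hA
    simp [lk, hxA, h]
  obtain ⟨⟨h1, h2, h3⟩, h4⟩ := hc _ hcA
  rw [Finset.disjoint_insert_left] at h1 h3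
  rw [Finset.card_insert_of_notMem hxA] at h4
  refine ⟨⟨?_, ?_, h3.2⟩, by omega⟩
  · rw [Finset.disjoint_insert_right]
    exact ⟨hxA, h1.2⟩
  · rw [Finset.union_insert]
    rw [Finset.insert_union] at h2
    exact h2

theorem acyc_insert (S : Finset (Finset V)) (hS : ∀ F ∈ S, ∀ G : Finset V, G ⊆ F → G ∈ S)
    (σ X : Finset V) (x : V) (h1 : Acyc k (LX S σ X)) (h2 : Acyc k (LX S (insert x σ) X)) :
    Acyc k (LX S σ (insert x X)) := by
  intro j z hz hbz
  have hz' : Ch (LX S σ X) j z := hz.mono fun A _ h => ⟨h.1, h.2.1,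
    (Finset.disjoint_insert_right.mp h.2.2).2⟩
  obtain ⟨c, hc, hcz⟩ := h1 j z hz' hbz
  have hzav : ∀ A, x ∈ A → z A = 0 := by
    intro A hA
    by_contra h
    have := (hz A h).1.2.2
    rw [Finset.disjoint_insert_right] at this
    exact this.1 hA
  have hlk := lk_chain S σ X x j c hc
  have hb0 : bd (lk x c) = 0 := by
    rw [bd_lk, hcz]
    funext A
    by_cases hx : x ∈ A
    · simp [lk, hx]
    · simp [lk, hx, hzav (insert x A) (Finset.mem_insert_self _ _)]
  obtain ⟨e, he, hee⟩ := h2 j (lk x c) hlk hb0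
  obtain ⟨h3, h4⟩ := push S hS σ X x j c e hc he (by
    intro A hA
    rw [hcz, hzav A hA]) hee
  exact ⟨_, h3, h4.trans hcz⟩

end Pool.Agent.MP19e880
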