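import Mathlib

/-!
The cone of gamma-nonnegative polynomials with centre of symmetry `m / 2`.
-/

set_option autoImplicit false

namespace Pool.Agent.MP19e880

open Polynomial

/-- Nonnegative combinations of the `X ^ i * (1 + X) ^ (m - 2 * i)`. -/
def Cone (m : ℕ) (p : ℤ[X]) : Prop :=
  ∃ c : ℕ → ℤ, (∀ i, 0 ≤ c i) ∧
    p = ∑ i ∈ Finset.range (m / 2 + 1), C (c i) * X ^ i * (1 + X) ^ (m - 2 * i)

namespace Cone

theorem zero (m : ℕ) : Cone m 0 := by
  refine ⟨fun _ => 0, fun _ => le_refl _, ?_⟩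
  symm
  refine Finset.sum_eq_zero fun i _ => ?_
  simp

theorem one : Cone 0 1 := by
  refine ⟨fun _ => 1, fun _ => zero_le_one, ?_⟩
  simp

theorem add {m : ℕ} {p q : ℤ[X]} (hp : Cone m p) (hq : Cone m q) : Cone m (p + q) := by
  obtain ⟨c, hc, rfl⟩ := hp
  obtain ⟨e, he, rfl⟩ := hq
  refine ⟨fun i => c i + e i, fun i => add_nonneg (hc i) (he i), ?_⟩
  rw [← Finset.sum_add_distrib]
  refine Finset.sum_congr rfl fun i _ => ?_
  rw [C_add]
  ring

theorem sum {ι : Type} (s : Finset ι) (f : ι → ℤ[X]) {m : ℕ} (h : ∀ i ∈ s, Cone m (f i)) :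
    Cone m (∑ i ∈ s, f i) := by
  classical
  induction s using Finset.induction_on with
  | empty => exact zero m
  | insert a s ha ih =>
    rw [Finset.sum_insert ha]
    exact add (h a (Finset.mem_insert_self _ _))
      (ih fun i hi => h i (Finset.mem_insert_of_mem hi))

theorem mulX {m : ℕ} {p : ℤ[X]} (hp : Cone m p) : Cone (m + 2) (X * p) := by
  obtain ⟨c, hc, rfl⟩ := hp
  refine ⟨fun i => if i = 0 then 0 else c (i - 1), ?_, ?_⟩
  · intro i
    dsimp only
    split_ifs
    · exact le_refl _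
    · exact hc _
  · have h1 : (m + 2) / 2 + 1 = (m / 2 + 1) + 1 := by omega
    rw [h1, Finset.mul_sum, Finset.sum_range_succ' _ (m / 2 + 1)]
    simp only [if_true, C_0, zero_mul, add_zero]
    refine Finset.sum_congr rfl fun i _ => ?_
    rw [if_neg (Nat.succ_ne_zero i), Nat.add_sub_cancel]
    have h2 : m + 2 - 2 * (i + 1) = m - 2 * i := by omega
    rw [h2, pow_succ]
    ring

theorem mulS {m : ℕ} {p : ℤ[X]} (hp : Cone m p) : Cone (m + 1) ((1 + X) * p) := by
  obtain ⟨c, hc, rfl⟩ := hp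
  refine ⟨fun i => if i ≤ m / 2 then c i else 0, ?_, ?_⟩
  · intro i
    dsimp only
    split_ifs
    · exact hc _
    · exact le_refl _
  · have h1 : Finset.range (m / 2 + 1) ⊆ Finset.range ((m + 1) / 2 + 1) := by
      intro i hi
      rw [Finset.mem_range] at hi ⊢
      omega
    rw [← Finset.sum_subset h1, Finset.mul_sum]
    · refine Finset.sum_congr rfl fun i hi => ?_
      rw [Finset.mem_range] at hi
      dsimp only
      rw [if_pos (by omega)]
      have h2 : m + 1 - 2 * i = (m - 2 * i) + 1 := by omega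
      rw [h2, pow_succ]
      ring
    · intro i _ hi
      rw [Finset.mem_range] at hi
      dsimp only
      rw [if_neg (by omega)]
      simp

theorem unique_zero (m N : ℕ) (a : ℕ → ℤ)
    (h : ∑ i ∈ Finset.range N, C (a i) * X ^ i * (1 + X : ℤ[X]) ^ (m - 2 * i) = 0) :
    ∀ i < N, a i = 0 := by
  intro i
  induction i using Nat.strong_induction_on with
  | _ i ih =>
    intro hi
    have h1 := congrArg (fun p : ℤ[X] => p.coeff i) h
    simp only [finsetSum_coeff, coeff_zero] at h1
    rw [Finset.sum_eq_single i] at h1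
    · rw [mul_assoc, coeff_C_mul, coeff_X_pow_mul', if_pos (le_refl i), Nat.sub_self,
        coeff_zero_eq_eval_zero] at h1
      simpa using h1
    · intro j hj hji
      rw [Finset.mem_range] at hj
      rw [mul_assoc, coeff_C_mul, coeff_X_pow_mul']
      split_ifs with h2
      · rw [ih j (lt_of_le_of_ne h2 hji) hj, zero_mul]
      · rw [mul_zero]
    · intro h'
      rw [Finset.mem_range] at h'
      exact absurd hi h'

theorem gamma_nonneg {m : ℕ} {p : ℤ[X]} (hp : Cone m p) (γ : ℕ → ℤ)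
    (h : p = ∑ i ∈ Finset.range (m / 2 + 1), C (γ i) * X ^ i * (1 + X) ^ (m - 2 * i)) :
    ∀ i ≤ m / 2, 0 ≤ γ i := by
  obtain ⟨c, hc, hp⟩ := hp
  intro i hi
  have h1 := unique_zero m (m / 2 + 1) (fun i => γ i - c i) (by
    simp only [C_sub, sub_mul, Finset.sum_sub_distrib]
    rw [← h, ← hp, sub_self]) i (by omega)
  have h2 := hc i
  omega

end Cone

end Pool.Agent.MP19e880
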