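import Pool.Agent.Lib.MP_19e880_co.HPoly
import Pool.Agent.Lib.MP_19e880_co.Cone

/-!
Face numbers of links, in low dimensions.
-/

set_option autoImplicit false
set_option linter.unusedSectionVars false

namespace Pool.Agent.MP19e880

open Polynomial

variable {V : Type} [Fintype V] [LinearOrder V]

/-- The number of faces with `j` elements of the link of `σ`. -/
def fn (S : Finset (Finset V)) (σ : Finset V) (j : ℕ) : ℕ :=
  (S.filter (fun F => σ ⊆ F ∧ F.card = σ.card + j)).card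

/-- The vertices of the link of `σ`. -/
def lv (S : Finset (Finset V)) (σ : Finset V) : Finset V :=
  Finset.univ.filter (fun x => x ∉ σ ∧ insert x σ ∈ S)

theorem fn_zero (S : Finset (Finset V)) (σ : Finset V) (hσ : σ ∈ S) : fn S σ 0 = 1 := by
  unfold fn
  rw [Finset.card_eq_one]
  refine ⟨σ, ?_⟩
  ext F
  rw [Finset.mem_filter, Finset.mem_singleton]
  constructor
  · rintro ⟨_, h2, h3⟩
    exact (Finset.eq_of_subset_of_card_le h2 (by omega)).symm
  · rintro rfl
    exact ⟨hσ, Finset.Subset.refl _, rfl⟩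

theorem count (S : Finset (Finset V)) (hS : ∀ F ∈ S, ∀ G : Finset V, G ⊆ F → G ∈ S)
    (σ : Finset V) (j : ℕ) :
    ∑ v ∈ lv S σ, fn S (insert v σ) j = (j + 1) * fn S σ (j + 1) := by
  have h1 : ∀ v ∈ lv S σ, fn S (insert v σ) j =
      ∑ F ∈ S.filter (fun F => insert v σ ⊆ F ∧ F.card = σ.card + (j + 1)), 1 := by
    intro v hv
    unfold lv at hv
    rw [Finset.mem_filter] at hv
    unfold fn
    rw [Finset.card_eq_sum_ones, Finset.card_insert_of_notMem hv.2.1]
    congr 1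
    ext F
    simp only [Finset.mem_filter]
    have : σ.card + 1 + j = σ.card + (j + 1) := by omega
    rw [this]
  rw [Finset.sum_congr rfl h1]
  rw [Finset.sum_comm' (s' := fun F => F \ σ)
    (t' := S.filter (fun F => σ ⊆ F ∧ F.card = σ.card + (j + 1)))]
  · have h2 : ∀ F ∈ S.filter (fun F => σ ⊆ F ∧ F.card = σ.card + (j + 1)),
        ∑ x ∈ F \ σ, 1 = j + 1 := by
      intro F hF
      rw [Finset.mem_filter] at hF
      rw [← Finset.card_eq_sum_ones, Finset.card_sdiff_of_subset hF.2.1]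
      omega
    rw [Finset.sum_congr rfl h2, Finset.sum_const, smul_eq_mul, mul_comm]
    rfl
  · intro v F
    unfold lv
    simp only [Finset.mem_filter, Finset.mem_univ, true_and, Finset.mem_sdiff,
      Finset.insert_subset_iff]
    constructor
    · rintro ⟨⟨h1, h2⟩, h3, ⟨h4, h5⟩, h6⟩
      exact ⟨⟨h4, h1⟩, h3, h5, h6⟩
    · rintro ⟨⟨h4, h1⟩, h3, h5, h6⟩
      exact ⟨⟨h1, hS F h3 _ (Finset.insert_subset h4 h5)⟩, h3, ⟨h4, h5⟩, h6⟩

theorem fn_one (S : Finset (Finset V)) (hS : ∀ F ∈ S, ∀ G : Finset V, G ⊆ F → G ∈ S)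
    (σ : Finset V) : fn S σ 1 = (lv S σ).card := by
  have h := count S hS σ 0
  rw [Finset.sum_congr rfl (fun v hv => fn_zero S (insert v σ) (by
    unfold lv at hv
    rw [Finset.mem_filter] at hv
    exact hv.2.2))] at h
  rw [← Finset.card_eq_sum_ones, Nat.zero_add, one_mul] at h
  exact h.symm

theorem lv_bound {k : Type} [Field k] {S : Finset (Finset V)} {d : ℕ} (h : HS k S d)
    (σ : Finset V) (hσ : σ ∈ S) (v : V) (hv : v ∉ σ) (hv2 : insert v σ ∈ S) :
    (lv S (insert v σ)).card + 2 ≤ (lv S σ).card := by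
  obtain ⟨c, hc, hb⟩ := h.acyc_K σ hσ v hv hv2 0 (sg k ∅) (sg_ch _ _ _
    ⟨Finset.disjoint_empty_left _, by rw [Finset.empty_union]; exact hσ,
      Finset.disjoint_empty_left _⟩ rfl) bd_sg_empty
  have h1 := congrFun hb ∅
  have h2 : bd c ∅ ≠ 0 := by
    rw [h1]
    simp [sg]
  simp only [bd] at h2
  obtain ⟨y, _, hy⟩ := Finset.exists_ne_zero_of_sum_ne_zero h2
  obtain ⟨⟨h3, h4, h5⟩, _⟩ := hc _ (right_ne_zero_of_mul hy)
  rw [Finset.disjoint_insert_left] at h3 h5
  rw [Finset.insert_union, Finset.empty_union] at h4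
  have hyv : ({y, v} : Finset V) ∉ S := by
    intro h'
    apply h5.1
    unfold Nb
    rw [Finset.mem_filter]
    exact ⟨Finset.mem_univ _, h'⟩
  have hyv2 : y ≠ v := by
    rintro rfl
    apply hyv
    rw [Finset.pair_eq_singleton]
    exact h.down _ hv2 _ (by simp)
  have hvl : v ∉ lv S (insert v σ) := by
    unfold lv
    rw [Finset.mem_filter]
    rintro ⟨_, h', _⟩
    exact h' (Finset.mem_insert_self _ _)
  have hyl : y ∉ insert v (lv S (insert v σ)) := by
    rw [Finset.mem_insert, not_or]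
    refine ⟨hyv2, ?_⟩
    unfold lv
    rw [Finset.mem_filter]
    rintro ⟨_, _, h'⟩
    apply hyv
    refine h.down _ h' _ ?_
    intro x hx
    rw [Finset.mem_insert, Finset.mem_singleton] at hx
    rcases hx with rfl | rfl
    · exact Finset.mem_insert_self _ _
    · exact Finset.mem_insert_of_mem (Finset.mem_insert_self _ _)
  have hsub : insert y (insert v (lv S (insert v σ))) ⊆ lv S σ := by
    intro x hx
    rw [Finset.mem_insert, Finset.mem_insert] at hx
    unfold lv at hx ⊢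
    rw [Finset.mem_filter] at hx ⊢
    refine ⟨Finset.mem_univ _, ?_⟩
    rcases hx with rfl | rfl | ⟨_, hx1, hx2⟩
    · exact ⟨h3.1, h4⟩
    · exact ⟨hv, hv2⟩
    · rw [Finset.mem_insert, not_or] at hx1
      exact ⟨hx1.2, h.down _ hx2 _ (Finset.insert_subset_insert _ (Finset.subset_insert _ _))⟩
  have := Finset.card_le_card hsub
  rw [Finset.card_insert_of_notMem hyl, Finset.card_insert_of_notMem hvl] at this
  exact this

theorem lv_two_mul {k : Type} [Field k] {S : Finset (Finset V)} {d : ℕ} (h : HS k S d) :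
    ∀ m : ℕ, ∀ σ ∈ S, σ.card + m = d → 2 * m ≤ (lv S σ).card := by
  intro m
  induction m with
  | zero => intro σ _ _; omega
  | succ m ih =>
    intro σ hσ hm
    obtain ⟨v, hv, hv2⟩ := h.extend σ hσ (by omega)
    have h1 := ih (insert v σ) hv2 (by rw [Finset.card_insert_of_notMem hv]; omega)
    have h2 := lv_bound h σ hσ v hv hv2
    omega

namespace Eul

variable {S : Finset (Finset V)} {d : ℕ}

theorem H_sum (h : Eul S d) (σ : Finset V) (m : ℕ) (hm : σ.card + m = d) :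
    H S d σ = ∑ j ∈ Finset.range (m + 1), C (fn S σ j : ℤ) * (X - 1) ^ (m - j) := by
  unfold H
  have hmaps : ∀ F ∈ S.filter (fun F => σ ⊆ F), F.card - σ.card ∈ Finset.range (m + 1) := by
    intro F hF
    rw [Finset.mem_filter] at hF
    have := h.le F hF.1
    rw [Finset.mem_range]
    omega
  rw [← Finset.sum_fiberwise_of_maps_to hmaps]
  refine Finset.sum_congr rfl fun j hj => ?_
  rw [Finset.mem_range] at hj
  have h1 : (S.filter (fun F => σ ⊆ F)).filter (fun F => F.card - σ.card = j) =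
      S.filter (fun F => σ ⊆ F ∧ F.card = σ.card + j) := by
    rw [Finset.filter_filter]
    refine Finset.filter_congr fun F _ => ?_
    constructor
    · rintro ⟨h1, h2⟩
      have := Finset.card_le_card h1
      exact ⟨h1, by omega⟩
    · rintro ⟨h1, h2⟩
      exact ⟨h1, by omega⟩
  rw [h1]
  have h2 : ∀ F ∈ S.filter (fun F => σ ⊆ F ∧ F.card = σ.card + j),
      (X - 1 : ℤ[X]) ^ (d - F.card) = (X - 1) ^ (m - j) := by
    intro F hF
    rw [Finset.mem_filter] at hF
    congr 1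
    omega
  rw [Finset.sum_congr rfl h2, Finset.sum_const, nsmul_eq_mul]
  unfold fn
  simp

theorem H_sum' (h : Eul S d) (σ : Finset V) (hσ : σ ∈ S) (m : ℕ) (hm : σ.card + m = d) :
    H S d σ = ∑ j ∈ Finset.range (m + 1), C (fn S σ j : ℤ) * (X ^ j * (1 - X) ^ (m - j)) := by
  rw [h.H_first σ hσ]
  have hmaps : ∀ F ∈ S.filter (fun F => σ ⊆ F), F.card - σ.card ∈ Finset.range (m + 1) := by
    intro F hF
    rw [Finset.mem_filter] at hF
    have := h.le F hF.1
    rw [Finset.mem_range]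
    omega
  rw [← Finset.sum_fiberwise_of_maps_to hmaps]
  refine Finset.sum_congr rfl fun j hj => ?_
  rw [Finset.mem_range] at hj
  have h1 : (S.filter (fun F => σ ⊆ F)).filter (fun F => F.card - σ.card = j) =
      S.filter (fun F => σ ⊆ F ∧ F.card = σ.card + j) := by
    rw [Finset.filter_filter]
    refine Finset.filter_congr fun F _ => ?_
    constructor
    · rintro ⟨h1, h2⟩
      have := Finset.card_le_card h1
      exact ⟨h1, by omega⟩
    · rintro ⟨h1, h2⟩
      exact ⟨h1, by omega⟩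
  rw [h1]
  have h2 : ∀ F ∈ S.filter (fun F => σ ⊆ F ∧ F.card = σ.card + j),
      (X : ℤ[X]) ^ (F.card - σ.card) * (1 - X) ^ (d - F.card) = X ^ j * (1 - X) ^ (m - j) := by
    intro F hF
    rw [Finset.mem_filter] at hF
    congr 2
    · omega
    · omega
  rw [Finset.sum_congr rfl h2, Finset.sum_const, nsmul_eq_mul]
  unfold fn
  simp

theorem ev (h : Eul S d) (σ : Finset V) (hσ : σ ∈ S) (m : ℕ) (hm : σ.card + m = d) (x : ℤ) :
    ∑ j ∈ Finset.range (m + 1), (fn S σ j : ℤ) * (x - 1) ^ (m - j) =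
    ∑ j ∈ Finset.range (m + 1), (fn S σ j : ℤ) * (x ^ j * (1 - x) ^ (m - j)) := by
  have h1 := h.H_sum σ m hm
  rw [h.H_sum' σ hσ m hm] at h1
  have h2 := congrArg (eval x) h1
  simp only [eval_finsetSum, eval_mul, eval_C, eval_pow, eval_sub, eval_X, eval_one] at h2
  exact h2.symm

theorem four (h : Eul S d) (σ : Finset V) (hσ : σ ∈ S) (hm : σ.card + 4 = d) :
    H S d σ = (1 + X) ^ 4 + C ((fn S σ 1 : ℤ) - 8) * (X * (1 + X) ^ 2) +
      C ((fn S σ 2 : ℤ) - 5 * fn S σ 1 + 16) * X ^ 2 := by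
  have h0 := h.ev σ hσ 4 hm 0
  have h2 := h.ev σ hσ 4 hm 2
  have h3 := h.ev σ hσ 4 hm 3
  have hf0 := fn_zero S σ hσ
  simp only [Finset.sum_range_succ, Finset.sum_range_zero, hf0] at h0 h2 h3
  norm_num at h0 h2 h3
  have e3 : (fn S σ 3 : ℤ) = 2 * fn S σ 2 - 2 * fn S σ 1 := by linarith
  have e4 : (fn S σ 4 : ℤ) = fn S σ 2 - fn S σ 1 := by linarith
  rw [h.H_sum σ 4 hm]
  simp only [Finset.sum_range_succ, Finset.sum_range_zero, hf0, e3, e4]
  simp only [C_sub, C_add, C_mul, Nat.cast_one, C_1, show (C (2:ℤ) : ℤ[X]) = 2 from rfl,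
    show (C (5:ℤ) : ℤ[X]) = 5 from rfl, show (C (8:ℤ) : ℤ[X]) = 8 from rfl,
    show (C (16:ℤ) : ℤ[X]) = 16 from rfl]
  norm_num
  ring

theorem five (h : Eul S d) (σ : Finset V) (hσ : σ ∈ S) (hm : σ.card + 5 = d) :
    (fn S σ 3 : ℤ) = 4 * fn S σ 2 - 10 * fn S σ 1 + 20 ∧
    H S d σ = (1 + X) ^ 5 + C ((fn S σ 1 : ℤ) - 10) * (X * (1 + X) ^ 3) +
      C ((fn S σ 2 : ℤ) - 7 * fn S σ 1 + 30) * (X ^ 2 * (1 + X)) := by
  have h0 := h.ev σ hσ 5 hm 0
  have h2 := h.ev σ hσ 5 hm 2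
  have h3 := h.ev σ hσ 5 hm 3
  have hf0 := fn_zero S σ hσ
  simp only [Finset.sum_range_succ, Finset.sum_range_zero, hf0] at h0 h2 h3
  norm_num at h0 h2 h3
  have e3 : (fn S σ 3 : ℤ) = 4 * fn S σ 2 - 10 * fn S σ 1 + 20 := by linarith
  have e4 : (fn S σ 4 : ℤ) = 5 * fn S σ 2 - 15 * fn S σ 1 + 30 := by linarith
  have e5 : (fn S σ 5 : ℤ) = 2 * fn S σ 2 - 6 * fn S σ 1 + 12 := by linarith
  refine ⟨e3, ?_⟩
  rw [h.H_sum σ 5 hm]
  simp only [Finset.sum_range_succ, Finset.sum_range_zero, hf0, e3, e4, e5]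
  simp only [C_sub, C_add, C_mul, Nat.cast_one, C_1, show (C (2:ℤ) : ℤ[X]) = 2 from rfl,
    show (C (4:ℤ) : ℤ[X]) = 4 from rfl,
    show (C (5:ℤ) : ℤ[X]) = 5 from rfl, show (C (6:ℤ) : ℤ[X]) = 6 from rfl,
    show (C (7:ℤ) : ℤ[X]) = 7 from rfl, show (C (10:ℤ) : ℤ[X]) = 10 from rfl,
    show (C (12:ℤ) : ℤ[X]) = 12 from rfl, show (C (15:ℤ) : ℤ[X]) = 15 from rfl,
    show (C (20:ℤ) : ℤ[X]) = 20 from rfl, show (C (30:ℤ) : ℤ[X]) = 30 from rfl]
  norm_num
  ring

end Eul

end Pool.Agent.MP19e880
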