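import Pool.Agent.Lib.MP_19e880_co.Chain

/-!
In an acyclic complex without sets of size four, the sets of size three can be matched to
contained sets of size two.
-/

set_option autoImplicit false
set_option linter.unusedSectionVars false

namespace Pool.Agent.MP19e880

variable {V : Type} [Fintype V] [LinearOrder V] {k : Type} [Field k]

open Classical in
theorem hall_cond (P : Finset V → Prop)
    (hac : Acyc k P) (hno : ∀ A, P A → A.card ≠ 4)
    (s : Finset {t : Finset V // P t ∧ t.card = 3}) :
    s.card ≤ (s.biUnion (fun t => t.1.powersetCard 2)).card := by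
  let ex3 : (s → k) →ₗ[k] (Finset V → k) :=
    { toFun := fun c A => if h : ∃ hA : P A ∧ A.card = 3, (⟨A, hA⟩ : {t : Finset V // P t ∧ t.card = 3}) ∈ s
        then c ⟨⟨A, h.choose⟩, h.choose_spec⟩ else 0
      map_add' := by
        intro c c'
        funext A
        simp only [Pi.add_apply]
        split_ifs
        · rfl
        · simp
      map_smul' := by
        intro a c
        funext A
        simp only [Pi.smul_apply, smul_eq_mul, RingHom.id_apply]
        split_ifs
        · rfl
        · simp }
  have hex3 : ∀ (c : s → k) (t : s), ex3 c t.1.1 = c t := by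
    intro c t
    have h : ∃ hA : P t.1.1 ∧ t.1.1.card = 3,
      (⟨t.1.1, hA⟩ : {t : Finset V // P t ∧ t.card = 3}) ∈ s := ⟨t.1.2, t.2⟩
    change (if h : ∃ hA : P t.1.1 ∧ t.1.1.card = 3,
      (⟨t.1.1, hA⟩ : {t : Finset V // P t ∧ t.card = 3}) ∈ s
        then c ⟨⟨t.1.1, h.choose⟩, h.choose_spec⟩ else 0) = c t
    rw [dif_pos h]
  have hch : ∀ c : s → k, Ch P 3 (ex3 c) := by
    intro c A hA
    by_contra hcon
    apply hA
    change (if h : ∃ hA : P A ∧ A.card = 3,
      (⟨A, hA⟩ : {t : Finset V // P t ∧ t.card = 3}) ∈ s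
        then c ⟨⟨A, h.choose⟩, h.choose_spec⟩ else 0) = 0
    rw [dif_neg]
    rintro ⟨h, _⟩
    exact hcon h
  have hsupp : ∀ (c : s → k) (A : Finset V), ex3 c A ≠ 0 → ∃ t : s, t.1.1 = A := by
    intro c A hA
    by_contra hcon
    apply hA
    change (if h : ∃ hA : P A ∧ A.card = 3,
      (⟨A, hA⟩ : {t : Finset V // P t ∧ t.card = 3}) ∈ s
        then c ⟨⟨A, h.choose⟩, h.choose_spec⟩ else 0) = 0
    rw [dif_neg]
    rintro ⟨h, h'⟩
    exact hcon ⟨⟨⟨A, h⟩, h'⟩, rfl⟩
  let Φ : (s → k) →ₗ[k] ((s.biUnion (fun t => t.1.powersetCard 2)) → k) :=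
    { toFun := fun c B => bd (ex3 c) B.1
      map_add' := by
        intro c c'
        funext B
        rw [map_add, bd_add]
        rfl
      map_smul' := by
        intro a c
        funext B
        rw [map_smul, bd_smul]
        rfl }
  have hinj : Function.Injective Φ := by
    rw [injective_iff_map_eq_zero]
    intro c hc
    have hb : bd (ex3 c) = 0 := by
      funext B
      by_cases hB : B ∈ s.biUnion (fun t => t.1.powersetCard 2)
      · exact congrFun hc ⟨B, hB⟩
      · simp only [bd, Pi.zero_apply]
        refine Finset.sum_eq_zero fun v hv => ?_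
        by_contra hne
        obtain ⟨t, ht⟩ := hsupp c _ (right_ne_zero_of_mul hne)
        apply hB
        rw [Finset.mem_biUnion]
        refine ⟨t.1, t.2, ?_⟩
        rw [Finset.mem_powersetCard]
        rw [Finset.mem_compl] at hv
        have h3 := t.1.2.2
        rw [ht] at h3 ⊢
        rw [Finset.card_insert_of_notMem hv] at h3
        exact ⟨Finset.subset_insert _ _, by omega⟩
    obtain ⟨e, he, hbe⟩ := hac 3 _ (hch c) hb
    have he0 : e = 0 := by
      funext A
      by_contra hA
      obtain ⟨h1, h2⟩ := he A hA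
      exact hno A h1 h2
    rw [he0, bd_zero] at hbe
    funext t
    rw [← hex3 c t, ← hbe]
    rfl
  have := LinearMap.finrank_le_finrank_of_injective hinj
  rw [Module.finrank_fintype_fun_eq_card, Module.finrank_fintype_fun_eq_card, Fintype.card_coe,
    Fintype.card_coe] at this
  exact this

theorem exists_match (P : Finset V → Prop)
    (hac : Acyc k P) (hno : ∀ A, P A → A.card ≠ 4) :
    ∃ f : Finset V → Finset V, (∀ t, P t → t.card = 3 → f t ⊆ t ∧ (f t).card = 2) ∧
      ∀ t t', P t → t.card = 3 → P t' → t'.card = 3 → f t = f t' → t = t' := by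
  classical
  obtain ⟨f, hf, hf2⟩ := (Finset.all_card_le_biUnion_card_iff_exists_injective
    (fun t : {t : Finset V // P t ∧ t.card = 3} => t.1.powersetCard 2)).mp
    (hall_cond (k := k) P hac hno)
  refine ⟨fun t => if h : P t ∧ t.card = 3 then f ⟨t, h⟩ else ∅, ?_, ?_⟩
  · intro t h1 h2
    simp only [dif_pos (And.intro h1 h2)]
    exact Finset.mem_powersetCard.mp (hf2 ⟨t, h1, h2⟩)
  · intro t t' h1 h2 h3 h4 h5
    simp only [dif_pos (And.intro h1 h2), dif_pos (And.intro h3 h4)] at h5
    have := hf h5
    exact congrArg Subtype.val this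

end Pool.Agent.MP19e880
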