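import Pool.Agent.Lib.MP_19e880_co.Count
import Pool.Agent.Lib.MP_19e880_co.Match

/-!
The induction.
-/

set_option autoImplicit false
set_option linter.unusedSectionVars false

namespace Pool.Agent.MP19e880

open Polynomial

variable {V : Type} [Fintype V] [LinearOrder V] {k : Type} [Field k]

theorem mem_Kf_iff {S : Finset (Finset V)} {d : ℕ} (h : Eul S d) (σ : Finset V) (v : V)
    (hv2 : insert v σ ∈ S) (ρ : Finset V) : ρ ∈ Kf S σ v ↔ LX S σ (Nb S v) ρ := by
  have hσN : σ ⊆ Nb S v := (Finset.subset_insert v σ).trans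
    (h.sub_Nb (insert v σ) v hv2 (Finset.mem_insert_self _ _))
  unfold Kf LX
  rw [Finset.mem_filter]
  constructor
  · rintro ⟨_, h2, h3⟩
    exact ⟨Finset.disjoint_of_subset_right hσN h2, h3, h2⟩
  · rintro ⟨_, h2, h3⟩
    exact ⟨h.down _ h2 _ Finset.subset_union_left, h3, h2⟩

/-- The core step. -/
theorem step {S : Finset (Finset V)} {d : ℕ} (h : HS k S d) (hE : Eul S d)
    (σ : Finset V) (v : V) (hv : v ∉ σ) (hv2 : insert v σ ∈ S) (m : ℕ)
    (hno : ∀ ρ ∈ Kf S σ v, ρ.card ≠ 4)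
    (hG : ∀ e ∈ Kf S σ v, e.card = 2 → Cone m (H S d (e ∪ σ)))
    (hM : ∀ t ∈ Kf S σ v, t.card = 3 → ∀ x ∈ t,
      Cone m (H S d (t.erase x ∪ σ) - (1 + X) * H S d (t ∪ σ))) :
    Cone (m + 2) (H S d σ - (1 + X) * H S d (insert v σ)) := by
  have hσ : σ ∈ S := hE.down _ hv2 _ (Finset.subset_insert _ _)
  obtain ⟨f, hf1, hf2⟩ := exists_match (k := k) (LX S σ (Nb S v)) (h.acyc_K σ hσ v hv hv2) (by
    intro A hA
    exact hno A ((mem_Kf_iff hE σ v hv2 A).mpr hA))
  have hmf := hE.main_formula σ v hv hv2 hno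
  set E := (Kf S σ v).filter (fun ρ => ρ.card = 2) with hEdef
  set T := (Kf S σ v).filter (fun ρ => ρ.card = 3) with hTdef
  have hfT : ∀ t ∈ T, f t ∈ E := by
    intro t ht
    rw [hTdef, Finset.mem_filter, mem_Kf_iff hE σ v hv2] at ht
    obtain ⟨h1, h2⟩ := hf1 t ht.1 ht.2
    rw [hEdef, Finset.mem_filter, mem_Kf_iff hE σ v hv2]
    exact ⟨⟨Finset.disjoint_of_subset_left h1 ht.1.1,
      h.down _ ht.1.2.1 _ (Finset.union_subset_union_left h1),
      Finset.disjoint_of_subset_left h1 ht.1.2.2⟩, h2⟩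
  have hinj : Set.InjOn f (T : Set (Finset V)) := by
    intro t ht t' ht' heq
    rw [Finset.mem_coe, hTdef, Finset.mem_filter, mem_Kf_iff hE σ v hv2] at ht ht'
    exact hf2 t t' ht.1 ht.2 ht'.1 ht'.2 heq
  have hsub : T.image f ⊆ E := by
    intro e he
    rw [Finset.mem_image] at he
    obtain ⟨t, ht, rfl⟩ := he
    exact hfT t ht
  have hsplit : ∑ e ∈ E, H S d (e ∪ σ) =
      ∑ e ∈ E \ T.image f, H S d (e ∪ σ) + ∑ t ∈ T, H S d (f t ∪ σ) := by
    rw [← Finset.sum_sdiff hsub, Finset.sum_image hinj]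
  have heq : H S d σ - (1 + X) * H S d (insert v σ) =
      X * (∑ e ∈ E \ T.image f, H S d (e ∪ σ) +
        ∑ t ∈ T, (H S d (f t ∪ σ) - (1 + X) * H S d (t ∪ σ))) := by
    rw [Finset.sum_sub_distrib, ← Finset.mul_sum, hmf, hsplit]
    ring
  rw [heq]
  refine Cone.mulX (Cone.add (Cone.sum _ _ ?_) (Cone.sum _ _ ?_))
  · intro e he
    have h1 := (Finset.mem_sdiff.mp he).1
    rw [hEdef, Finset.mem_filter] at h1
    exact hG e h1.1 h1.2
  · intro t ht
    have ht' := ht
    rw [hTdef, Finset.mem_filter] at ht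
    obtain ⟨h1, h2⟩ := hf1 t ((mem_Kf_iff hE σ v hv2 t).mp ht.1) ht.2
    have hc : (t \ f t).card = 1 := by
      rw [Finset.card_sdiff_of_subset h1]
      omega
    obtain ⟨x, hx⟩ := Finset.card_eq_one.mp hc
    have hxt : x ∈ t ∧ x ∉ f t := by
      rw [← Finset.mem_sdiff, hx]
      exact Finset.mem_singleton_self x
    have hfe : f t = t.erase x := by
      refine Finset.eq_of_subset_of_card_le ?_ ?_
      · intro y hy
        rw [Finset.mem_erase]
        refine ⟨?_, h1 hy⟩
        rintro rfl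
        exact hxt.2 hy
      · rw [Finset.card_erase_of_mem hxt.1]
        omega
    rw [hfe]
    exact hM t ht.1 ht.2 x hxt.1

/-- A facet has trivial link. -/
theorem H_facet {S : Finset (Finset V)} {d : ℕ} (hE : Eul S d) (σ : Finset V) (hσ : σ ∈ S)
    (hd : σ.card = d) : H S d σ = 1 := by
  unfold H
  have : S.filter (fun F => σ ⊆ F) = {σ} := by
    ext F
    rw [Finset.mem_filter, Finset.mem_singleton]
    constructor
    · rintro ⟨h1, h2⟩
      exact (Finset.eq_of_subset_of_card_le h2 (by rw [hd]; exact hE.le F h1)).symm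
    · rintro rfl
      exact ⟨hσ, Finset.Subset.refl _⟩
  rw [this, Finset.sum_singleton, hd, Nat.sub_self, pow_zero]

theorem M_one {S : Finset (Finset V)} {d : ℕ} (hE : Eul S d)
    (σ : Finset V) (v : V) (hv : v ∉ σ) (hv2 : insert v σ ∈ S) (hm : σ.card + 1 = d) :
    H S d σ = (1 + X) * H S d (insert v σ) := by
  have hcard : ∀ ρ ∈ Kf S σ v, ρ.card ≤ 1 := by
    intro ρ hρ
    have h1 := hE.card_union σ v hv2 ρ hρ
    unfold Kf at hρ
    rw [Finset.mem_filter] at hρ
    have h2 := hE.le _ hρ.2.2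
    omega
  have h := hE.main_formula σ v hv hv2 (by
    intro ρ hρ
    have := hcard ρ hρ
    omega)
  have e2 : (Kf S σ v).filter (fun ρ => ρ.card = 2) = ∅ := by
    rw [Finset.filter_eq_empty_iff]
    intro ρ hρ
    have := hcard ρ hρ
    omega
  have e3 : (Kf S σ v).filter (fun ρ => ρ.card = 3) = ∅ := by
    rw [Finset.filter_eq_empty_iff]
    intro ρ hρ
    have := hcard ρ hρ
    omega
  rw [e2, e3, Finset.sum_empty, mul_zero, mul_zero, add_zero, sub_zero] at h
  exact h

/-- Good pairs. -/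
inductive Gd (S : Finset (Finset V)) (d : ℕ) : Finset V → V → Prop
  | low (σ : Finset V) (v : V) (h : d ≤ σ.card + 4) : Gd S d σ v
  | step (σ : Finset V) (v : V) (h4 : ∀ ρ ∈ Kf S σ v, ρ.card ≠ 4)
      (h3 : ∀ t ∈ Kf S σ v, t.card = 3 → ∀ x ∈ t, Gd S d (t.erase x ∪ σ) x) : Gd S d σ v

/-- The statement to be proved by induction on the dimension parameter `m`. -/
def PP (S : Finset (Finset V)) (d m : ℕ) : Prop :=
  (∀ σ ∈ S, σ.card + m = d → Cone m (H S d σ)) ∧
  (∀ σ ∈ S, σ.card + m = d → ∀ v, v ∉ σ → insert v σ ∈ S → Gd S d σ v →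
    Cone m (H S d σ - (1 + X) * H S d (insert v σ)))

theorem PP_of_M {S : Finset (Finset V)} {d : ℕ} (m : ℕ)
    (h0 : PP S d m)
    (hM : ∀ σ ∈ S, σ.card + (m + 1) = d → ∀ v, v ∉ σ → insert v σ ∈ S → Gd S d σ v →
      Cone (m + 1) (H S d σ - (1 + X) * H S d (insert v σ)))
    (hex : ∀ σ ∈ S, σ.card + (m + 1) = d → ∃ v, v ∉ σ ∧ insert v σ ∈ S ∧ Gd S d σ v) :
    PP S d (m + 1) := by
  refine ⟨?_, hM⟩
  intro σ hσ hm
  obtain ⟨v, hv, hv2, hgd⟩ := hex σ hσ hm
  have h1 := hM σ hσ hm v hv hv2 hgd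
  have h2 := h0.1 (insert v σ) hv2 (by rw [Finset.card_insert_of_notMem hv]; omega)
  have h3 := h1.add h2.mulS
  rwa [sub_add_cancel] at h3

theorem step' {S : Finset (Finset V)} {d : ℕ} (h : HS k S d) (hE : Eul S d) (m : ℕ)
    (h0 : PP S d m) (σ : Finset V) (hm : σ.card + (m + 2) = d)
    (v : V) (hv : v ∉ σ) (hv2 : insert v σ ∈ S)
    (h4 : ∀ ρ ∈ Kf S σ v, ρ.card ≠ 4)
    (h3 : ∀ t ∈ Kf S σ v, t.card = 3 → ∀ x ∈ t, Gd S d (t.erase x ∪ σ) x) :
    Cone (m + 2) (H S d σ - (1 + X) * H S d (insert v σ)) := by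
  refine step h hE σ v hv hv2 m h4 ?_ ?_
  · intro e he hc
    have h1 := hE.card_union σ v hv2 e he
    refine h0.1 (e ∪ σ) ?_ (by omega)
    unfold Kf at he
    rw [Finset.mem_filter] at he
    exact he.2.2
  · intro t ht hc x hx
    have h1 := hE.card_union σ v hv2 t ht
    have hgd := h3 t ht hc x hx
    have htL := (mem_Kf_iff hE σ v hv2 t).mp ht
    have hxσ : x ∉ σ := Finset.disjoint_left.mp htL.1 hx
    have hnot : x ∉ t.erase x ∪ σ := by
      rw [Finset.mem_union, not_or]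
      exact ⟨Finset.notMem_erase _ _, hxσ⟩
    have hins : insert x (t.erase x ∪ σ) = t ∪ σ := by
      rw [← Finset.insert_union, Finset.insert_erase hx]
    have h2 : (t.erase x ∪ σ).card + m = d := by
      have := Finset.card_insert_of_notMem hnot
      rw [hins] at this
      omega
    have h5 := h0.2 (t.erase x ∪ σ) (h.down _ htL.2.1 _
      (Finset.union_subset_union_left (Finset.erase_subset _ _))) h2 x hnot
      (by rw [hins]; exact htL.2.1) hgd
    rwa [hins] at h5

theorem PP_low {S : Finset (Finset V)} {d : ℕ} (h : HS k S d) (hE : Eul S d) :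
    ∀ m ≤ 3, PP S d m := by
  have ext : ∀ m, m + 1 ≤ 4 → ∀ σ ∈ S, σ.card + (m + 1) = d →
      ∃ v, v ∉ σ ∧ insert v σ ∈ S ∧ Gd S d σ v := by
    intro m hm σ hσ hd
    obtain ⟨v, hv, hv2⟩ := h.extend σ hσ (by omega)
    exact ⟨v, hv, hv2, Gd.low σ v (by omega)⟩
  have P0 : PP S d 0 := by
    refine ⟨?_, ?_⟩
    · intro σ hσ hd
      rw [H_facet hE σ hσ hd]
      exact Cone.one
    · intro σ hσ hd v hv hv2 _
      have := hE.le _ hv2
      rw [Finset.card_insert_of_notMem hv] at this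
      omega
  have P1 : PP S d 1 := by
    refine PP_of_M 0 P0 ?_ (ext 0 (by omega))
    intro σ hσ hd v hv hv2 _
    rw [M_one hE σ v hv hv2 hd, sub_self]
    exact Cone.zero _
  have no4 : ∀ m ≤ 3, ∀ σ : Finset V, σ.card + m = d → ∀ v, insert v σ ∈ S →
      ∀ ρ ∈ Kf S σ v, ρ.card ≠ 4 := by
    intro m hm σ hd v hv2 ρ hρ hc
    have h1 := hE.card_union σ v hv2 ρ hρ
    unfold Kf at hρ
    rw [Finset.mem_filter] at hρ
    have h2 := hE.le _ hρ.2.2
    omega
  have P2 : PP S d 2 := by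
    refine PP_of_M 1 P1 ?_ (ext 1 (by omega))
    intro σ hσ hd v hv hv2 _
    exact step' h hE 0 P0 σ hd v hv hv2 (no4 2 (by omega) σ hd v hv2)
      (fun t _ _ x _ => Gd.low _ x (by
        have := Finset.card_le_card (Finset.subset_union_right (s₁ := t.erase x) (s₂ := σ))
        omega))
  have P3 : PP S d 3 := by
    refine PP_of_M 2 P2 ?_ (ext 2 (by omega))
    intro σ hσ hd v hv hv2 _
    exact step' h hE 1 P1 σ hd v hv hv2 (no4 3 (by omega) σ hd v hv2)
      (fun t _ _ x _ => Gd.low _ x (by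
        have := Finset.card_le_card (Finset.subset_union_right (s₁ := t.erase x) (s₂ := σ))
        omega))
  intro m hm
  interval_cases m
  · exact P0
  · exact P1
  · exact P2
  · exact P3

/-- If some vertex has no facet among its non-neighbours, then the second gamma number is
nonnegative. -/
theorem num_of_four {S : Finset (Finset V)} {d : ℕ} (h : HS k S d) (hE : Eul S d)
    (σ : Finset V) (hσ : σ ∈ S) (hm : σ.card + 4 = d) (v : V) (hv : v ∉ σ)
    (hv2 : insert v σ ∈ S) (h4 : ∀ ρ ∈ Kf S σ v, ρ.card ≠ 4) :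
    5 * fn S σ 1 ≤ fn S σ 2 + 16 := by
  have h1 := step' h hE 2 (PP_low h hE 2 (by omega)) σ hm v hv hv2 h4
    (fun t _ _ x _ => Gd.low _ x (by
        have := Finset.card_le_card (Finset.subset_union_right (s₁ := t.erase x) (s₂ := σ))
        omega))
  have h2 := (PP_low h hE 3 (by omega)).1 (insert v σ) hv2
    (by rw [Finset.card_insert_of_notMem hv]; omega)
  have h3 := h1.add h2.mulS
  rw [sub_add_cancel] at h3
  have h5 := Cone.gamma_nonneg h3 (fun i => if i = 0 then 1 else if i = 1 then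
    (fn S σ 1 : ℤ) - 8 else (fn S σ 2 : ℤ) - 5 * fn S σ 1 + 16) (by
      rw [hE.four σ hσ hm]
      simp only [Finset.sum_range_succ, Finset.sum_range_zero]
      norm_num
      ring) 2 (by norm_num)
  norm_num at h5
  omega

theorem PP_four {S : Finset (Finset V)} {d : ℕ} (h : HS k S d) (hE : Eul S d)
    (hnum : ∀ σ ∈ S, σ.card + 4 = d → 5 * fn S σ 1 ≤ fn S σ 2 + 16) : PP S d 4 := by
  constructor
  · intro σ hσ hm
    have h1 := hnum σ hσ hm
    have h2 := lv_two_mul h 4 σ hσ hm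
    rw [← fn_one S h.down σ] at h2
    rw [hE.four σ hσ hm]
    refine ⟨fun i => if i = 0 then 1 else if i = 1 then
      (fn S σ 1 : ℤ) - 8 else (fn S σ 2 : ℤ) - 5 * fn S σ 1 + 16, ?_, ?_⟩
    · intro i
      dsimp only
      split_ifs
      · exact zero_le_one
      · omega
      · omega
    · simp only [Finset.sum_range_succ, Finset.sum_range_zero]
      norm_num
      ring
  · intro σ hσ hm v hv hv2 _
    have h1 := hnum σ hσ hm
    have h2 := lv_bound h σ hσ v hv hv2
    rw [← fn_one S h.down, ← fn_one S h.down] at h2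
    have h3 := (PP_low h hE 3 (by omega)).1 (insert v σ) hv2
      (by rw [Finset.card_insert_of_notMem hv]; omega)
    have h5 : H S d (insert v σ) = (1 + X) ^ 3 +
        C ((fn S (insert v σ) 1 : ℤ) - 6) * (X * (1 + X)) := by
      have hm3 : (insert v σ).card + 3 = d := by
        rw [Finset.card_insert_of_notMem hv]; omega
      have e0 := hE.ev (insert v σ) hv2 3 hm3 0
      have e2 := hE.ev (insert v σ) hv2 3 hm3 2
      have hf0 := fn_zero S (insert v σ) hv2
      simp only [Finset.sum_range_succ, Finset.sum_range_zero, hf0] at e0 e2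
      norm_num at e0 e2
      have g2 : (fn S (insert v σ) 2 : ℤ) = 3 * fn S (insert v σ) 1 - 6 := by linarith
      have g3 : (fn S (insert v σ) 3 : ℤ) = 2 * fn S (insert v σ) 1 - 4 := by linarith
      rw [hE.H_sum (insert v σ) 3 hm3]
      simp only [Finset.sum_range_succ, Finset.sum_range_zero, hf0, g2, g3]
      simp only [C_sub, C_mul, Nat.cast_one, C_1, show (C (2:ℤ) : ℤ[X]) = 2 from rfl,
        show (C (3:ℤ) : ℤ[X]) = 3 from rfl, show (C (4:ℤ) : ℤ[X]) = 4 from rfl,
        show (C (6:ℤ) : ℤ[X]) = 6 from rfl]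
      norm_num
      ring
    rw [hE.four σ hσ hm, h5]
    refine ⟨fun i => if i = 0 then 0 else if i = 1 then
      (fn S σ 1 : ℤ) - 2 - fn S (insert v σ) 1 else (fn S σ 2 : ℤ) - 5 * fn S σ 1 + 16, ?_, ?_⟩
    · intro i
      dsimp only
      split_ifs
      · exact le_refl _
      · omega
      · omega
    · simp only [Finset.sum_range_succ, Finset.sum_range_zero, C_sub, C_add, C_mul,
        show (C (6:ℤ) : ℤ[X]) = 6 from rfl, show (C (8:ℤ) : ℤ[X]) = 8 from rfl]
      norm_num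
      ring

theorem PP_five {S : Finset (Finset V)} {d : ℕ} (h : HS k S d) (hE : Eul S d)
    (hnum : ∀ σ ∈ S, σ.card + 4 = d → 5 * fn S σ 1 ≤ fn S σ 2 + 16) : PP S d 5 := by
  constructor
  · intro σ hσ hm
    obtain ⟨e3, hH⟩ := hE.five σ hσ hm
    have h2 := lv_two_mul h 5 σ hσ hm
    rw [← fn_one S h.down σ] at h2
    have h1 : ∑ v ∈ lv S σ, 5 * fn S (insert v σ) 1 ≤
        ∑ v ∈ lv S σ, (fn S (insert v σ) 2 + 16) := by
      refine Finset.sum_le_sum fun v hv => ?_
      unfold lv at hv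
      rw [Finset.mem_filter] at hv
      exact hnum _ hv.2.2 (by rw [Finset.card_insert_of_notMem hv.2.1]; omega)
    rw [Finset.sum_add_distrib, ← Finset.mul_sum, count S h.down σ 1, count S h.down σ 2,
      Finset.sum_const, smul_eq_mul, ← fn_one S h.down σ] at h1
    norm_num at h1
    rw [hH]
    refine ⟨fun i => if i = 0 then 1 else if i = 1 then
      (fn S σ 1 : ℤ) - 10 else (fn S σ 2 : ℤ) - 7 * fn S σ 1 + 30, ?_, ?_⟩
    · intro i
      dsimp only
      split_ifs
      · exact zero_le_one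
      · omega
      · omega
    · simp only [Finset.sum_range_succ, Finset.sum_range_zero]
      norm_num
      ring
  · intro σ hσ hm v hv hv2 hgd
    cases hgd with
    | low _ _ hh => omega
    | step _ _ h4 h3 => exact step' h hE 3 (PP_low h hE 3 (by omega)) σ hm v hv hv2 h4 h3

theorem PP_all {S : Finset (Finset V)} {d : ℕ} (h : HS k S d) (hE : Eul S d)
    (hnum : ∀ σ ∈ S, σ.card + 4 = d → 5 * fn S σ 1 ≤ fn S σ 2 + 16)
    (hex : ∀ σ ∈ S, σ.card + 6 ≤ d → ∃ v, v ∉ σ ∧ insert v σ ∈ S ∧ Gd S d σ v) :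
    ∀ m, PP S d m := by
  intro m
  induction m using Nat.strong_induction_on with
  | _ m ih =>
    rcases Nat.lt_or_ge m 4 with hm | hm
    · exact PP_low h hE m (by omega)
    · rcases Nat.lt_or_ge m 6 with hm6 | hm6
      · interval_cases m
        · exact PP_four h hE hnum
        · exact PP_five h hE hnum
      · obtain ⟨m, rfl⟩ := Nat.exists_eq_add_of_le' (show 1 ≤ m by omega)
        refine PP_of_M m (ih m (by omega)) ?_ ?_
        · intro σ hσ hd v hv hv2 hgd
          obtain ⟨m, rfl⟩ := Nat.exists_eq_add_of_le' (show 1 ≤ m by omega)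
          cases hgd with
          | low _ _ hh => omega
          | step _ _ h4 h3 =>
            exact step' h hE m (ih m (by omega)) σ hd v hv hv2 h4 h3
        · intro σ hσ hd
          exact hex σ hσ (by omega)

end Pool.Agent.MP19e880
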