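import Pool.Agent.Lib.MP_19e880_co.Rank
import Pool.Agent.Lib.MP_19e880_co.Main

/-!
From the rank conditions on boundary matrices to the chain conditions.
-/

set_option autoImplicit false
set_option linter.unusedSectionVars false

namespace Pool.Agent.MP19e880

open Polynomial

variable {V : Type} [Fintype V] [LinearOrder V] {k : Type} [Field k]

/-- The link, as a finite set of finite sets. -/
def lkF (S : Finset (Finset V)) (F : Finset V) : Finset (Finset V) :=
  S.filter (fun G => Disjoint G F ∧ G ∪ F ∈ S)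

theorem mem_lkF (S : Finset (Finset V)) (hS : ∀ F ∈ S, ∀ G : Finset V, G ⊆ F → G ∈ S)
    (F G : Finset V) : G ∈ lkF S F ↔ LX S F ∅ G := by
  unfold lkF LX
  rw [Finset.mem_filter]
  constructor
  · rintro ⟨_, h1, h2⟩
    exact ⟨h1, h2, Finset.disjoint_empty_right _⟩
  · rintro ⟨h1, h2, _⟩
    exact ⟨hS _ h2 _ Finset.subset_union_left, h1, h2⟩

theorem lkF_down (S : Finset (Finset V)) (hS : ∀ F ∈ S, ∀ G : Finset V, G ⊆ F → G ∈ S)
    (F : Finset V) : ∀ A ∈ lkF S F, ∀ B : Finset V, B ⊆ A → B ∈ lkF S F := by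
  intro A hA B hB
  unfold lkF at hA ⊢
  rw [Finset.mem_filter] at hA ⊢
  exact ⟨hS _ hA.1 _ hB, Finset.disjoint_of_subset_left hB hA.2.1,
    hS _ hA.2.2 _ (Finset.union_subset_union_left hB)⟩

/-- The homology condition, in terms of ranks. -/
def RankCond (k : Type) [Field k] (S : Finset (Finset V)) (d : ℕ) : Prop :=
  ∀ F ∈ S, ∀ j : ℕ, ((((lkF S F).filter (fun G => G.card = j)).card : ℤ)
    - ((Mt k (lkF S F) j).rank : ℤ) - ((Mt k (lkF S F) (j + 1)).rank : ℤ))
    = if j + F.card = d then 1 else 0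

theorem HS_of_rank (S : Finset (Finset V)) (d : ℕ)
    (hS : ∀ F ∈ S, ∀ G : Finset V, G ⊆ F → G ∈ S)
    (hfl : ∀ F : Finset V, (∀ a ∈ F, ∀ b ∈ F, ({a, b} : Finset V) ∈ S) → F ∈ S)
    (hr : RankCond k S d) : HS k S d := by
  have hex : ∀ σ ∈ S, ∀ j : ℕ, j + σ.card ≠ d → ∀ z : Finset V → k, Ch (LX S σ ∅) j z →
      bd z = 0 → ∃ c : Finset V → k, Ch (LX S σ ∅) (j + 1) c ∧ bd c = z := by
    intro σ hσ j hj z hz hb
    have h1 := hr σ hσ j
    rw [if_neg hj] at h1
    obtain ⟨c, hc, hbc⟩ := exact_of_rank (lkF S σ) (lkF_down S hS σ) j h1 z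
      (hz.mono fun A _ hA => (mem_lkF S hS σ A).mpr hA) hb
    exact ⟨c, hc.mono fun A _ hA => (mem_lkF S hS σ A).mp hA, hbc⟩
  refine ⟨hS, hfl, hex, ?_⟩
  intro σ hσ j hj
  have h1 := hr σ hσ j
  rw [if_pos hj] at h1
  obtain ⟨z, hz, hbz, hz0, hall⟩ := top_of_rank (lkF S σ) (lkF_down S hS σ) j h1 (by
    intro A hA hcard
    unfold lkF at hA
    rw [Finset.mem_filter] at hA
    have h2 := card_le_aux hex _ hA.2.2
    rw [Finset.card_union_of_disjoint hA.2.1] at h2
    omega)
  refine ⟨z, hz.mono fun A _ hA => (mem_lkF S hS σ A).mp hA, hbz, hz0, ?_⟩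
  intro z' hz' hbz'
  exact hall z' (hz'.mono fun A _ hA => (mem_lkF S hS σ A).mpr hA) hbz'

theorem telescope (r : ℕ → ℤ) (n : ℕ) :
    ∑ j ∈ Finset.range n, (-1) ^ j * (r j + r (j + 1)) = r 0 - (-1) ^ n * r n := by
  induction n with
  | zero => simp
  | succ n ih =>
    rw [Finset.sum_range_succ, ih, pow_succ]
    ring

theorem rank_zero_of_card (L : Finset (Finset V)) (j : ℕ)
    (h : ∀ A ∈ L, A.card ≠ j) : (Mt k L j).rank = 0 := by
  have h1 := finrank_ker (k := k) L j
  have h2 : (L.filter (fun A => A.card = j)).card = 0 := by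
    rw [Finset.card_eq_zero, Finset.filter_eq_empty_iff]
    intro A hA
    exact h A hA
  omega

theorem rank_zero_zero (L : Finset (Finset V)) : (Mt k L 0).rank = 0 := by
  have h1 : Mt k L 0 = 0 := by
    ext A B
    have h2 : B.1 = ∅ := by
      rw [← Finset.card_eq_zero]
      exact (Finset.mem_filter.mp B.2).2
    simp only [Mt, Matrix.of_apply, Matrix.zero_apply]
    rw [h2, Finset.sum_empty]
  rw [h1, Matrix.rank_zero]

theorem Eul_of_rank (S : Finset (Finset V)) (d : ℕ)
    (hS : ∀ F ∈ S, ∀ G : Finset V, G ⊆ F → G ∈ S)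
    (hfl : ∀ F : Finset V, (∀ a ∈ F, ∀ b ∈ F, ({a, b} : Finset V) ∈ S) → F ∈ S)
    (hr : RankCond k S d) : Eul S d := by
  have h := HS_of_rank S d hS hfl hr
  refine ⟨hS, hfl, h.card_le, ?_⟩
  intro F hF
  have hFd := h.card_le F hF
  set N := Fintype.card V + d with hN
  have hbig : ∀ A ∈ lkF S F, A.card ≠ N + 1 := by
    intro A _ hA
    have := Finset.card_le_univ A
    omega
  have h1 : ∑ j ∈ Finset.range (N + 1), (-1 : ℤ) ^ j *
      ((((lkF S F).filter (fun G => G.card = j)).card : ℤ)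
      - ((Mt k (lkF S F) j).rank : ℤ) - ((Mt k (lkF S F) (j + 1)).rank : ℤ)) =
      (-1) ^ (d - F.card) := by
    have h2 : ∀ j ∈ Finset.range (N + 1), (-1 : ℤ) ^ j *
      ((((lkF S F).filter (fun G => G.card = j)).card : ℤ)
      - ((Mt k (lkF S F) j).rank : ℤ) - ((Mt k (lkF S F) (j + 1)).rank : ℤ)) =
      if j = d - F.card then (-1) ^ j else 0 := by
      intro j _
      rw [hr F hF j]
      by_cases hj : j + F.card = d
      · rw [if_pos hj, if_pos (by omega), mul_one]
      · rw [if_neg hj, if_neg (by omega), mul_zero]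
    rw [Finset.sum_congr rfl h2, Finset.sum_ite_eq', if_pos]
    rw [Finset.mem_range]
    omega
  have h3 := telescope (fun j => ((Mt k (lkF S F) j).rank : ℤ)) (N + 1)
  rw [rank_zero_zero, rank_zero_of_card (lkF S F) (N + 1) hbig] at h3
  have h4 : ∑ j ∈ Finset.range (N + 1), (-1 : ℤ) ^ j *
      (((lkF S F).filter (fun G => G.card = j)).card : ℤ) = (-1) ^ (d - F.card) := by
    rw [← h1]
    have h5 : ∀ j ∈ Finset.range (N + 1), (-1 : ℤ) ^ j *
      ((((lkF S F).filter (fun G => G.card = j)).card : ℤ)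
      - ((Mt k (lkF S F) j).rank : ℤ) - ((Mt k (lkF S F) (j + 1)).rank : ℤ)) =
      (-1 : ℤ) ^ j * (((lkF S F).filter (fun G => G.card = j)).card : ℤ) -
      (-1) ^ j * (((Mt k (lkF S F) j).rank : ℤ) + ((Mt k (lkF S F) (j + 1)).rank : ℤ)) := by
      intro j _
      ring
    rw [Finset.sum_congr rfl h5, Finset.sum_sub_distrib, h3]
    simp
  have h6 : ∑ G ∈ lkF S F, (-1 : ℤ) ^ G.card = (-1) ^ (d - F.card) := by
    rw [← h4]
    have hmaps : ∀ G ∈ lkF S F, G.card ∈ Finset.range (N + 1) := by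
      intro G _
      have := Finset.card_le_univ G
      rw [Finset.mem_range]
      omega
    rw [← Finset.sum_fiberwise_of_maps_to hmaps]
    refine Finset.sum_congr rfl fun j _ => ?_
    have h7 : ∀ G ∈ (lkF S F).filter (fun G => G.card = j), (-1 : ℤ) ^ G.card = (-1) ^ j := by
      intro G hG
      rw [(Finset.mem_filter.mp hG).2]
    rw [Finset.sum_congr rfl h7, Finset.sum_const, nsmul_eq_mul, mul_comm]
  have h8 : ∑ G ∈ S.filter (fun G => F ⊆ G), (-1 : ℤ) ^ G.card =
      ∑ G ∈ lkF S F, (-1 : ℤ) ^ G.card * (-1) ^ F.card := by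
    symm
    refine Finset.sum_bij' (fun G _ => G ∪ F) (fun G _ => G \ F) ?_ ?_ ?_ ?_ ?_
    · intro G hG
      unfold lkF at hG
      rw [Finset.mem_filter] at hG ⊢
      exact ⟨hG.2.2, Finset.subset_union_right⟩
    · intro G hG
      unfold lkF
      rw [Finset.mem_filter] at hG ⊢
      refine ⟨hS _ hG.1 _ Finset.sdiff_subset, Finset.sdiff_disjoint, ?_⟩
      rw [Finset.sdiff_union_of_subset hG.2]
      exact hG.1
    · intro G hG
      unfold lkF at hG
      rw [Finset.mem_filter] at hG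
      rw [Finset.union_sdiff_right]
      exact Finset.sdiff_eq_self_of_disjoint hG.2.1
    · intro G hG
      rw [Finset.mem_filter] at hG
      exact Finset.sdiff_union_of_subset hG.2
    · intro G hG
      unfold lkF at hG
      rw [Finset.mem_filter] at hG
      rw [Finset.card_union_of_disjoint hG.2.1, pow_add]
  rw [h8, ← Finset.sum_mul, h6, neg_one_pow_sub' d F.card hFd, mul_assoc, ← pow_add, ← two_mul,
    pow_mul]
  simp

/-- The h-polynomial in its usual form. -/
theorem h_poly_eq {S : Finset (Finset V)} {d : ℕ} (hE : Eul S d) (h0 : ∅ ∈ S) :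
    ∑ j ∈ Finset.range (d + 1), C (((S.filter (fun G => G.card = j)).card : ℕ) : ℤ)
            * X ^ j * (1 - X) ^ (d - j) = H S d ∅ := by
  rw [hE.H_sum' ∅ h0 d (by simp)]
  refine Finset.sum_congr rfl fun j _ => ?_
  have : fn S ∅ j = (S.filter (fun G => G.card = j)).card := by
    unfold fn
    congr 1
    refine Finset.filter_congr fun F _ => ?_
    simp
  rw [this]
  push_cast
  ring

end Pool.Agent.MP19e880
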