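import Pool.Agent.Lib.MP_19e880_co.LevelFour
import Pool.Agent.Lib.MP_19e880_co.Derive

/-!
Flag homology spheres with few vertices.
-/

set_option autoImplicit false
set_option linter.unusedSectionVars false

namespace Pool.Agent.MP19e880

open Polynomial

variable {V : Type} [Fintype V] [LinearOrder V] {k : Type} [Field k]

theorem Kf_sub_nn {S : Finset (Finset V)} {d : ℕ} (hE : Eul S d) (σ : Finset V) (x : V)
    (hx2 : insert x σ ∈ S) (ρ : Finset V) (hρ : ρ ∈ Kf S σ x) : ρ ⊆ nn S σ x := by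
  rw [mem_Kf_iff hE σ x hx2] at hρ
  intro y hy
  unfold nn
  rw [Finset.mem_filter, mem_lv]
  refine ⟨⟨Finset.disjoint_left.mp hρ.1 hy, hE.down _ hρ.2.1 _
    (Finset.insert_subset (Finset.mem_union_left _ hy) Finset.subset_union_right)⟩, ?_⟩
  intro h1
  refine Finset.disjoint_left.mp hρ.2.2 hy ?_
  unfold Nb
  rw [Finset.mem_filter]
  exact ⟨Finset.mem_univ _, h1⟩

/-- In a join of total dimension three, every vertex of a factor is fine. -/
theorem num_join {S : Finset (Finset V)} {d : ℕ} (h : HS k S d) (hE : Eul S d)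
    (σ : Finset V) (hσ : σ ∈ S) (hd : σ.card + 4 = d) (τ : Finset V) (hj : JF S d σ τ) :
    5 * fn S σ 1 ≤ fn S σ 2 + 16 := by
  obtain ⟨h1, h2, h3, h4⟩ := hj
  have hlt := Finset.card_lt_card h1
  obtain ⟨x, hx, hx2⟩ := h.extend τ h2 (by omega)
  have hxσ : x ∉ σ := fun h' => hx (h1.1 h')
  have hx2σ : insert x σ ∈ S := hE.down _ hx2 _ (Finset.insert_subset_insert _ h1.1)
  refine num_of_four h hE σ hσ hd x hxσ hx2σ ?_
  intro ρ hρ hc
  have hsub := Kf_sub_nn hE σ x hx2σ ρ hρ
  have hρS : ρ ∪ σ ∈ S := by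
    unfold Kf at hρ
    rw [Finset.mem_filter] at hρ
    exact hρ.2.2
  have hmem : ∀ y ∈ ρ, y ∉ τ ∧ insert y τ ∈ S := by
    intro y hy
    have hy' := hsub hy
    unfold nn at hy'
    rw [Finset.mem_filter, mem_lv] at hy'
    by_contra hcon
    apply hy'.2
    refine h4 y x hy'.1.1 hy'.1.2 ?_ hx hx2
    by_cases h5 : y ∈ τ
    · exact Or.inr h5
    · exact Or.inl fun h6 => hcon ⟨h5, h6⟩
  have h5 : ρ ∪ τ ∈ S := by
    refine lv_flag hE τ ρ h2 ?_ ?_
    · intro y hy
      rw [mem_lv]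
      exact hmem y hy
    · intro a ha b hb
      exact pair_mem hE _ hρS a b (Finset.mem_union_left _ ha) (Finset.mem_union_left _ hb)
  have h6 := hE.le _ h5
  rw [Finset.card_union_of_disjoint (by
    rw [Finset.disjoint_left]
    intro y hy
    exact (hmem y hy).1)] at h6
  omega

theorem num_few {S : Finset (Finset V)} {d : ℕ} (h : HS k S d) (hE : Eul S d)
    (σ : Finset V) (hσ : σ ∈ S) (hd : σ.card + 4 = d) (hn : (lv S σ).card ≤ 14) :
    5 * fn S σ 1 ≤ fn S σ 2 + 16 := by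
  by_cases hirr : Irr S σ
  · obtain ⟨x, hx, hx2⟩ := exists_irr h hE σ hσ (by omega) hirr
    have hx' := (mem_lv σ x).mp hx
    have h1 := irr_bound h hE 2 (insert x σ) hx'.2
      (by rw [Finset.card_insert_of_notMem hx'.1]; omega) hx2
    have h2 := lv_card h hE σ x hx
    exact num_of_five h hE σ hσ hd x hx (by omega)
  · obtain ⟨τ, hτ⟩ := join_of_not_irr h hE σ hσ hirr
    exact num_join h hE σ hσ hd τ hτ

theorem good_few {S : Finset (Finset V)} {d : ℕ} (h : HS k S d) (hE : Eul S d)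
    (σ : Finset V) (hσ : σ ∈ S) (m : ℕ) (hd : σ.card + m = d) (hm : 6 ≤ m)
    (hn : (lv S σ).card ≤ 2 * m + 6) :
    (∃ τ, JF S d σ τ) ∨ ∃ v, v ∉ σ ∧ insert v σ ∈ S ∧ Gj S d σ v := by
  by_cases hirr : Irr S σ
  · right
    obtain ⟨x, hx, hx2⟩ := exists_irr h hE σ hσ (by omega) hirr
    have hx' := (mem_lv σ x).mp hx
    have h1 := irr_bound h hE (m - 2) (insert x σ) hx'.2
      (by rw [Finset.card_insert_of_notMem hx'.1]; omega) hx2
    have h2 := lv_card h hE σ x hx
    have h3 : (nn S σ x).card + m ≤ 9 := by omega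
    refine ⟨x, hx'.1, hx'.2, Gj.step σ x ?_ ?_⟩
    · intro ρ hρ hc
      have h4 := Finset.card_le_card (Kf_sub_nn hE σ x hx'.2 ρ hρ)
      omega
    · intro t ht hc y hy
      have h4 := Finset.card_le_card (Kf_sub_nn hE σ x hx'.2 t ht)
      have h5 := hE.card_union σ x hx'.2 t ht
      have h6 : t ∪ σ = insert y (t.erase y ∪ σ) := by
        rw [← Finset.insert_union, Finset.insert_erase hy]
      have h7 := Finset.card_insert_le y (t.erase y ∪ σ)
      rw [← h6] at h7
      exact Gj.low _ _ (by omega)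
  · left
    exact join_of_not_irr h hE σ hσ hirr

theorem lv_le {S : Finset (Finset V)} {d : ℕ} (h : HS k S d) :
    ∀ m : ℕ, ∀ σ ∈ S, σ.card = m → (lv S σ).card + 2 * m ≤ (lv S ∅).card := by
  intro m
  induction m with
  | zero =>
    intro σ _ hc
    rw [Finset.card_eq_zero] at hc
    rw [hc]
    omega
  | succ m ih =>
    intro σ hσ hc
    obtain ⟨v, hv⟩ := Finset.card_pos.mp (show 0 < σ.card by omega)
    have h1 : insert v (σ.erase v) = σ := Finset.insert_erase hv
    have h2 := ih (σ.erase v) (h.down _ hσ _ (Finset.erase_subset _ _))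
      (by rw [Finset.card_erase_of_mem hv]; omega)
    have h3 := lv_bound h (σ.erase v) (h.down _ hσ _ (Finset.erase_subset _ _)) v
      (Finset.notMem_erase _ _) (by rw [h1]; exact hσ)
    rw [h1] at h3
    omega

theorem few_main {S : Finset (Finset V)} {d : ℕ} (h : HS k S d) (hE : Eul S d)
    (h0 : ∅ ∈ S) (hn : (lv S ∅).card ≤ 2 * d + 6) : Cone d (H S d ∅) := by
  have hnum : ∀ σ ∈ S, σ.card + 4 = d → 5 * fn S σ 1 ≤ fn S σ 2 + 16 := by
    intro σ hσ hd
    have h1 := lv_le h σ.card σ hσ rfl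
    exact num_few h hE σ hσ hd (by omega)
  have hall := QQ_all h hE hnum (by
    intro σ hσ hd
    have h1 := lv_le h σ.card σ hσ rfl
    exact good_few h hE σ hσ (d - σ.card) (by omega) (by omega) (by omega)) d
  exact hall.1 ∅ h0 (by simp)

end Pool.Agent.MP19e880
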