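import Mathlib

/-!
A purely combinatorial lemma on the graphs of flag 3-spheres.
-/

set_option autoImplicit false
set_option linter.unusedSectionVars false

namespace Pool.Agent.MP19e880

variable {V : Type} [DecidableEq V]

/-- Properties of the graph of a flag 3-sphere. -/
structure G4 (A : V → V → Prop) (cn : V → V → Finset V) : Prop where
  symm : ∀ a b, A a b → A b a
  irr : ∀ a, ¬ A a a
  five : ∀ a b c d e, A a b → A a c → A a d → A a e → A b c → A b d → A b e → A c d → A c e →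
    A d e → False
  tri : ∀ a b c, A a b → A a c → A b c →
    ∃ p q, p ≠ q ∧ ∀ y, (A y a ∧ A y b ∧ A y c) ↔ (y = p ∨ y = q)
  cn_iff : ∀ a b y, y ∈ cn a b ↔ A y a ∧ A y b

namespace G4

variable {A : V → V → Prop} {cn : V → V → Finset V}

theorem ne (h : G4 A cn) {a b : V} (hab : A a b) : a ≠ b := by
  rintro rfl
  exact h.irr a hab

/-- The vertex opposite to `d` across the triangle `a b c`. -/
theorem opp (h : G4 A cn) (a b c d : V) (hab : A a b) (hac : A a c) (hbc : A b c)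
    (had : A a d) (hbd : A b d) (hcd : A c d) :
    ∃ p, p ≠ d ∧ A p a ∧ A p b ∧ A p c ∧ ¬ A p d ∧
      ∀ y, A y a → A y b → A y c → y = d ∨ y = p := by
  obtain ⟨p, q, hpq, hy⟩ := h.tri a b c hab hac hbc
  have hd := (hy d).mp ⟨h.symm _ _ had, h.symm _ _ hbd, h.symm _ _ hcd⟩
  have key : ∀ r, r ≠ d → A r a → A r b → A r c → ¬ A r d := by
    intro r _ h1 h2 h3 h4
    exact h.five a b c d r hab hac had (h.symm _ _ h1) hbc hbd (h.symm _ _ h2) hcd
      (h.symm _ _ h3) (h.symm _ _ h4)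
  rcases hd with rfl | rfl
  · obtain ⟨h1, h2, h3⟩ := (hy q).mpr (Or.inr rfl)
    refine ⟨q, fun h' => hpq h'.symm, h1, h2, h3, key q (fun h' => hpq h'.symm) h1 h2 h3, ?_⟩
    intro y y1 y2 y3
    exact (hy y).mp ⟨y1, y2, y3⟩
  · obtain ⟨h1, h2, h3⟩ := (hy p).mpr (Or.inl rfl)
    refine ⟨p, hpq, h1, h2, h3, key p hpq h1 h2 h3, ?_⟩
    intro y y1 y2 y3
    exact ((hy y).mp ⟨y1, y2, y3⟩).symm

theorem E4 (h : G4 A cn) (a b c d p r : V) (hab : A a b) (hac : A a c) (hbc : A b c)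
    (had : A a d) (hbd : A b d) (hcd : A c d) (hcard : (cn a b).card = 4)
    (hpd : p ≠ d) (hpa : A p a) (hpb : A p b) (hpc : A p c)
    (hrc : r ≠ c) (hra : A r a) (hrb : A r b) (hrd : A r d) : A p r := by
  have hpd' : ¬ A p d := fun h4 => h.five a b c d p hab hac had (h.symm _ _ hpa) hbc hbd
    (h.symm _ _ hpb) hcd (h.symm _ _ hpc) (h.symm _ _ h4)
  have hpr : p ≠ r := by
    rintro rfl
    exact hpd' hrd
  have hcne := h.ne hcd
  have hsub : ({c, d, p, r} : Finset V) ⊆ cn a b := by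
    intro y hy
    rw [h.cn_iff]
    simp only [Finset.mem_insert, Finset.mem_singleton] at hy
    rcases hy with rfl | rfl | rfl | rfl
    · exact ⟨h.symm _ _ hac, h.symm _ _ hbc⟩
    · exact ⟨h.symm _ _ had, h.symm _ _ hbd⟩
    · exact ⟨hpa, hpb⟩
    · exact ⟨hra, hrb⟩
  have hc4 : ({c, d, p, r} : Finset V).card = 4 := by
    rw [Finset.card_insert_of_notMem, Finset.card_insert_of_notMem, Finset.card_insert_of_notMem,
      Finset.card_singleton]
    · simpa using hpr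
    · simp only [Finset.mem_insert, Finset.mem_singleton, not_or]
      exact ⟨fun h' => hpd h'.symm, fun h' => h.ne hrd h'.symm⟩
    · simp only [Finset.mem_insert, Finset.mem_singleton, not_or]
      exact ⟨hcne, fun h' => h.ne hpc h'.symm, fun h' => hrc h'.symm⟩
  have heq := Finset.eq_of_subset_of_card_le hsub (by rw [hcard, hc4])
  obtain ⟨s, hsc, hsa, hsb, hsp, _, _⟩ := h.opp a b p c hab (h.symm _ _ hpa) (h.symm _ _ hpb)
    hac hbc hpc
  have hs : s ∈ cn a b := (h.cn_iff a b s).mpr ⟨hsa, hsb⟩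
  rw [← heq] at hs
  simp only [Finset.mem_insert, Finset.mem_singleton] at hs
  rcases hs with rfl | rfl | rfl | rfl
  · exact absurd rfl hsc
  · exact absurd (h.symm _ _ hsp) hpd'
  · exact absurd rfl (h.ne hsp)
  · exact h.symm _ _ hsp

/-- The final contradiction: a triangle with three completions. -/
theorem three (h : G4 A cn) (a b c u v w : V) (hab : A a b) (hac : A a c) (hbc : A b c)
    (hu : A u a ∧ A u b ∧ A u c) (hv : A v a ∧ A v b ∧ A v c) (hw : A w a ∧ A w b ∧ A w c)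
    (huv : u ≠ v) (huw : u ≠ w) (hvw : v ≠ w) : False := by
  obtain ⟨p, q, _, hy⟩ := h.tri a b c hab hac hbc
  have h1 := (hy u).mp hu
  have h2 := (hy v).mp hv
  have h3 := (hy w).mp hw
  rcases h1 with rfl | rfl <;> rcases h2 with rfl | rfl <;> rcases h3 with rfl | rfl <;>
    first | exact huv rfl | exact huw rfl | exact hvw rfl

theorem claim_aux (h : G4 A cn) (L K : Finset V) (x : V)
    (hL : ∀ y z, A y z → y ∈ L)
    (hK : ∀ y, y ∈ K ↔ y ∈ L ∧ y ≠ x ∧ ¬ A y x) (hK5 : K.card ≤ 5)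
    (a b c d pa pb pc pd : V) (ha : a ∈ K) (hb : b ∈ K) (hc : c ∈ K) (hd : d ∈ K)
    (hab : A a b) (hac : A a c) (had : A a d) (hbc : A b c) (hbd : A b d) (hcd : A c d)
    (a1 : pa ≠ a) (a2 : A pa b) (a3 : A pa c) (a4 : A pa d)
    (b1 : pb ≠ b) (b2 : A pb a) (b3 : A pb c) (b4 : A pb d)
    (c1 : pc ≠ c) (c2 : A pc a) (c3 : A pc b) (c4 : A pc d)
    (d1 : pd ≠ d) (d2 : A pd a) (d3 : A pd b) (d4 : A pd c)
    (hpab : A pa pb) (hpac : A pa pc) (hpad : A pa pd) (hpbc : A pb pc) (hpbd : A pb pd)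
    (hpcd : A pc pd) (hx : ¬ A pd x) : False := by
  have hnx : ∀ y, y ∈ K → ∀ z, A z y → z ≠ x := by
    intro y hy z hz
    rintro rfl
    exact ((hK y).mp hy).2.2 (h.symm _ _ hz)
  have hpdK : pd ∈ K := (hK pd).mpr ⟨hL _ _ d2, hnx a ha pd d2, hx⟩
  have hsub : ({a, b, c, d, pd} : Finset V) ⊆ K := by
    intro y hy
    simp only [Finset.mem_insert, Finset.mem_singleton] at hy
    rcases hy with rfl | rfl | rfl | rfl | rfl
    · exact ha
    · exact hb
    · exact hc
    · exact hd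
    · exact hpdK
  have hc5 : ({a, b, c, d, pd} : Finset V).card = 5 := by
    rw [Finset.card_insert_of_notMem, Finset.card_insert_of_notMem, Finset.card_insert_of_notMem,
      Finset.card_insert_of_notMem, Finset.card_singleton]
    · simpa using fun h' => d1 h'.symm
    · simp only [Finset.mem_insert, Finset.mem_singleton, not_or]
      exact ⟨h.ne hcd, fun h' => h.ne d4 h'.symm⟩
    · simp only [Finset.mem_insert, Finset.mem_singleton, not_or]
      exact ⟨h.ne hbc, h.ne hbd, fun h' => h.ne d3 h'.symm⟩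
    · simp only [Finset.mem_insert, Finset.mem_singleton, not_or]
      exact ⟨h.ne hab, h.ne hac, h.ne had, fun h' => h.ne d2 h'.symm⟩
  have heq := Finset.eq_of_subset_of_card_le hsub (by rw [hc5]; exact hK5)
  have hadj : ∀ y, y ∉ K → y ∈ L → y ≠ x → A y x := by
    intro y h1 h2 h3
    by_contra h4
    exact h1 ((hK y).mpr ⟨h2, h3, h4⟩)
  have hpax : A pa x := by
    refine hadj pa ?_ (hL _ _ a2) (hnx b hb pa a2)
    rw [← heq]
    simp only [Finset.mem_insert, Finset.mem_singleton, not_or]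
    exact ⟨a1, h.ne a2, h.ne a3, h.ne a4, h.ne hpad⟩
  have hpbx : A pb x := by
    refine hadj pb ?_ (hL _ _ b2) (hnx a ha pb b2)
    rw [← heq]
    simp only [Finset.mem_insert, Finset.mem_singleton, not_or]
    exact ⟨h.ne b2, b1, h.ne b3, h.ne b4, h.ne hpbd⟩
  have hpcx : A pc x := by
    refine hadj pc ?_ (hL _ _ c2) (hnx a ha pc c2)
    rw [← heq]
    simp only [Finset.mem_insert, Finset.mem_singleton, not_or]
    exact ⟨h.ne c2, h.ne c3, c1, h.ne c4, h.ne hpcd⟩
  exact h.three pa pb pc d pd x hpab hpac hpbc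
    ⟨h.symm _ _ a4, h.symm _ _ b4, h.symm _ _ c4⟩
    ⟨h.symm _ _ hpad, h.symm _ _ hpbd, h.symm _ _ hpcd⟩
    ⟨h.symm _ _ hpax, h.symm _ _ hpbx, h.symm _ _ hpcx⟩
    (fun h' => d1 h'.symm) (fun h' => ((hK d).mp hd).2.1 h')
    (fun h' => ((hK pd).mp hpdK).2.1 h')

/-- If all six edges of a tetrahedron of non-neighbours of `x` have degree four, then `x` has
at least six non-neighbours. -/
theorem claim_one (h : G4 A cn) (L K : Finset V) (x : V)
    (hL : ∀ y z, A y z → y ∈ L)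
    (hK : ∀ y, y ∈ K ↔ y ∈ L ∧ y ≠ x ∧ ¬ A y x) (hK5 : K.card ≤ 5)
    (a b c d : V) (ha : a ∈ K) (hb : b ∈ K) (hc : c ∈ K) (hd : d ∈ K)
    (hab : A a b) (hac : A a c) (had : A a d) (hbc : A b c) (hbd : A b d) (hcd : A c d)
    (n1 : (cn a b).card = 4) (n2 : (cn a c).card = 4) (n3 : (cn a d).card = 4)
    (n4 : (cn b c).card = 4) (n5 : (cn b d).card = 4) (n6 : (cn c d).card = 4) : False := by
  have s := h.symm
  obtain ⟨pd, d1, d2, d3, d4, _, _⟩ := h.opp a b c d hab hac hbc had hbd hcd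
  obtain ⟨pc, c1, c2, c3, c4, _, _⟩ := h.opp a b d c hab had hbd hac hbc (s _ _ hcd)
  obtain ⟨pb, b1, b2, b3, b4, _, _⟩ := h.opp a c d b hac had hcd hab (s _ _ hbc) (s _ _ hbd)
  obtain ⟨pa, a1, a2, a3, a4, _, _⟩ := h.opp b c d a hbc hbd hcd (s _ _ hab) (s _ _ hac)
    (s _ _ had)
  have hpdc : A pd pc := h.E4 a b c d pd pc hab hac hbc had hbd hcd n1 d1 d2 d3 d4 c1 c2 c3 c4
  have hpdb : A pd pb := h.E4 a c b d pd pb hac hab (s _ _ hbc) had hcd hbd n2 d1 d2 d4 d3
    b1 b2 b3 b4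
  have hpcb : A pc pb := h.E4 a d b c pc pb had hab (s _ _ hbd) hac (s _ _ hcd) hbc n3
    c1 c2 c4 c3 b1 b2 b4 b3
  have hpda : A pd pa := h.E4 b c a d pd pa hbc (s _ _ hab) (s _ _ hac) hbd hcd had n4
    d1 d3 d4 d2 a1 a2 a3 a4
  have hpca : A pc pa := h.E4 b d a c pc pa hbd (s _ _ hab) (s _ _ had) hbc (s _ _ hcd) hac n5
    c1 c3 c4 c2 a1 a2 a4 a3
  have hpba : A pb pa := h.E4 c d a b pb pa hcd (s _ _ hac) (s _ _ had) (s _ _ hbc) (s _ _ hbd)
    hab n6 b1 b3 b4 b2 a1 a3 a4 a2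
  by_cases hxd : A pd x
  · by_cases hxc : A pc x
    · by_cases hxb : A pb x
      · by_cases hxa : A pa x
        · exact h.five x pa pb pc pd (s _ _ hxa) (s _ _ hxb) (s _ _ hxc) (s _ _ hxd)
            (s _ _ hpba) (s _ _ hpca) (s _ _ hpda) (s _ _ hpcb) (s _ _ hpdb) (s _ _ hpdc)
        · exact h.claim_aux L K x hL hK hK5 b c d a pb pc pd pa hb hc hd ha hbc hbd (s _ _ hab)
            hcd (s _ _ hac) (s _ _ had) b1 b3 b4 b2 c1 c3 c4 c2 d1 d3 d4 d2 a1 a2 a3 a4
            (s _ _ hpcb) (s _ _ hpdb) hpba (s _ _ hpdc) hpca hpda hxa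
      · exact h.claim_aux L K x hL hK hK5 a c d b pa pc pd pb ha hc hd hb hac had hab hcd
          (s _ _ hbc) (s _ _ hbd) a1 a3 a4 a2 c1 c2 c4 c3 d1 d2 d4 d3 b1 b2 b3 b4
          (s _ _ hpca) (s _ _ hpda) (s _ _ hpba) (s _ _ hpdc) hpcb hpdb hxb
    · exact h.claim_aux L K x hL hK hK5 a b d c pa pb pd pc ha hb hd hc hab had hac hbd hbc
        (s _ _ hcd) a1 a2 a4 a3 b1 b2 b4 b3 d1 d2 d3 d4 c1 c2 c3 c4
        (s _ _ hpba) (s _ _ hpda) (s _ _ hpca) (s _ _ hpdb) (s _ _ hpcb) hpdc hxc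
  · exact h.claim_aux L K x hL hK hK5 a b c d pa pb pc pd ha hb hc hd hab hac had hbc hbd hcd
      a1 a2 a3 a4 b1 b2 b3 b4 c1 c2 c3 c4 d1 d2 d3 d4
      (s _ _ hpba) (s _ _ hpca) (s _ _ hpda) (s _ _ hpcb) (s _ _ hpdb) (s _ _ hpdc) hxd

/-- Two tetrahedra of non-neighbours sharing a triangle. -/
theorem claim_two (h : G4 A cn) (L K : Finset V) (x : V)
    (hL : ∀ y z, A y z → y ∈ L)
    (hK : ∀ y, y ∈ K ↔ y ∈ L ∧ y ≠ x ∧ ¬ A y x) (hK5 : K.card ≤ 5)
    (a b c d e : V) (ha : a ∈ K) (hb : b ∈ K) (hc : c ∈ K) (hd : d ∈ K) (he : e ∈ K)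
    (hab : A a b) (hac : A a c) (had : A a d) (hbc : A b c) (hbd : A b d) (hcd : A c d)
    (hae : A a e) (hbe : A b e) (hce : A c e) (hde : d ≠ e)
    (n1 : (cn a b).card ≤ 5) (n2 : (cn a c).card = 4) (n3 : (cn a d).card = 4)
    (n4 : (cn b c).card = 4) (n5 : (cn b d).card = 4) (n6 : (cn c d).card = 4)
    (n7 : (cn a e).card = 4) (n8 : (cn b e).card = 4) : False := by
  have s := h.symm
  have hnde : ¬ A d e := fun h' => h.five a b c d e hab hac had hae hbc hbd hbe hcd hce h'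
  obtain ⟨pc, c1, c2, c3, c4, c5, _⟩ := h.opp a b d c hab had hbd hac hbc (s _ _ hcd)
  obtain ⟨pb, b1, b2, b3, b4, b5, _⟩ := h.opp a c d b hac had hcd hab (s _ _ hbc) (s _ _ hbd)
  obtain ⟨pa, a1, a2, a3, a4, a5, _⟩ := h.opp b c d a hbc hbd hcd (s _ _ hab) (s _ _ hac)
    (s _ _ had)
  obtain ⟨qc, f1, f2, f3, f4, f5, f6⟩ := h.opp a b e c hab hae hbe hac hbc (s _ _ hce)
  obtain ⟨qb, g1, g2, g3, g4, g5, _⟩ := h.opp a c e b hac hae hce hab (s _ _ hbc) (s _ _ hbe)
  obtain ⟨qa, k1, k2, k3, k4, k5, _⟩ := h.opp b c e a hbc hbe hce (s _ _ hab) (s _ _ hac)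
    (s _ _ hae)
  have hKeq : ({a, b, c, d, e} : Finset V) = K := by
    refine Finset.eq_of_subset_of_card_le ?_ ?_
    · intro y hy
      simp only [Finset.mem_insert, Finset.mem_singleton] at hy
      rcases hy with rfl | rfl | rfl | rfl | rfl
      · exact ha
      · exact hb
      · exact hc
      · exact hd
      · exact he
    · refine hK5.trans (le_of_eq ?_)
      symm
      rw [Finset.card_insert_of_notMem, Finset.card_insert_of_notMem,
        Finset.card_insert_of_notMem, Finset.card_insert_of_notMem, Finset.card_singleton]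
      · simpa using hde
      · simp only [Finset.mem_insert, Finset.mem_singleton, not_or]
        exact ⟨h.ne hcd, h.ne hce⟩
      · simp only [Finset.mem_insert, Finset.mem_singleton, not_or]
        exact ⟨h.ne hbc, h.ne hbd, h.ne hbe⟩
      · simp only [Finset.mem_insert, Finset.mem_singleton, not_or]
        exact ⟨h.ne hab, h.ne hac, h.ne had, h.ne hae⟩
  -- `qb = pb` and `qa = pa`
  have hsmall : ∀ (u v w p q : V), A u v → A u w → A v w → A u d → A v d → A w d → A u e →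
      A v e → A w e → (cn u v).card = 4 → p ≠ w → A p u → A p v → A p d → ¬ A p w →
      q ≠ w → A q u → A q v → A q e → ¬ A q w → q = p := by
    intro u v w p q huv huw hvw hud hvd hwd hue hve hwe hn p1 p2 p3 p4 p5 q1 q2 q3 q4 q5
    have hpe : p ≠ e := by
      rintro rfl
      exact hnde (s _ _ p4)
    have hsub : ({w, d, e, p} : Finset V) ⊆ cn u v := by
      intro y hy
      rw [h.cn_iff]
      simp only [Finset.mem_insert, Finset.mem_singleton] at hy
      rcases hy with rfl | rfl | rfl | rfl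
      · exact ⟨s _ _ huw, s _ _ hvw⟩
      · exact ⟨s _ _ hud, s _ _ hvd⟩
      · exact ⟨s _ _ hue, s _ _ hve⟩
      · exact ⟨p2, p3⟩
    have hcard : ({w, d, e, p} : Finset V).card = 4 := by
      rw [Finset.card_insert_of_notMem, Finset.card_insert_of_notMem,
        Finset.card_insert_of_notMem, Finset.card_singleton]
      · simpa using fun h' => hpe h'.symm
      · simp only [Finset.mem_insert, Finset.mem_singleton, not_or]
        exact ⟨hde, fun h' => h.ne p4 h'.symm⟩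
      · simp only [Finset.mem_insert, Finset.mem_singleton, not_or]
        exact ⟨h.ne hwd, h.ne hwe, fun h' => p1 h'.symm⟩
    have heq := Finset.eq_of_subset_of_card_le hsub (by rw [hn, hcard])
    have hq : q ∈ cn u v := (h.cn_iff u v q).mpr ⟨q2, q3⟩
    rw [← heq] at hq
    simp only [Finset.mem_insert, Finset.mem_singleton] at hq
    rcases hq with rfl | rfl | rfl | rfl
    · exact absurd rfl q1
    · exact absurd q4 hnde
    · exact absurd rfl (h.ne q4)
    · rfl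
  have hqb : qb = pb := hsmall a c b pb qb hac hab (s _ _ hbc) had hcd hbd hae hce hbe n2
    b1 b2 b3 b4 b5 g1 g2 g3 g4 g5
  have hqa : qa = pa := hsmall b c a pa qa hbc (s _ _ hab) (s _ _ hac) hbd hcd had hbe hce hae n4
    a1 a2 a3 a4 a5 k1 k2 k3 k4 k5
  subst hqb hqa
  -- adjacencies among the opposite vertices
  have hpcb : A pc qb := h.E4 a d b c pc qb had hab (s _ _ hbd) hac (s _ _ hcd) hbc n3
    c1 c2 c4 c3 b1 b2 b4 b3
  have hpca : A pc qa := h.E4 b d a c pc qa hbd (s _ _ hab) (s _ _ had) hbc (s _ _ hcd) hac n5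
    c1 c3 c4 c2 a1 a2 a4 a3
  have hpba : A qb qa := h.E4 c d a b qb qa hcd (s _ _ hac) (s _ _ had) (s _ _ hbc) (s _ _ hbd)
    hab n6 b1 b3 b4 b2 a1 a3 a4 a2
  have hqcb : A qc qb := h.E4 a e b c qc qb hae hab (s _ _ hbe) hac (s _ _ hce) hbc n7
    f1 f2 f4 f3 g1 g2 g4 g3
  have hqca : A qc qa := h.E4 b e a c qc qa hbe (s _ _ hab) (s _ _ hae) hbc (s _ _ hce) hac n8
    f1 f3 f4 f2 k1 k2 k4 k3
  -- all of them are adjacent to `x`
  have hnx : ∀ y, y ∈ K → ∀ z, A z y → z ≠ x := by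
    intro y hy z hz
    rintro rfl
    exact ((hK y).mp hy).2.2 (s _ _ hz)
  have hadj : ∀ y, y ∉ K → y ∈ L → y ≠ x → A y x := by
    intro y h1 h2 h3
    by_contra h4
    exact h1 ((hK y).mpr ⟨h2, h3, h4⟩)
  have hpcx : A pc x := by
    refine hadj pc ?_ (hL _ _ c2) (hnx a ha pc c2)
    rw [← hKeq]
    simp only [Finset.mem_insert, Finset.mem_singleton, not_or]
    refine ⟨h.ne c2, h.ne c3, c1, h.ne c4, ?_⟩
    rintro rfl
    exact hnde (s _ _ c4)
  have hqcx : A qc x := by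
    refine hadj qc ?_ (hL _ _ f2) (hnx a ha qc f2)
    rw [← hKeq]
    simp only [Finset.mem_insert, Finset.mem_singleton, not_or]
    refine ⟨h.ne f2, h.ne f3, f1, ?_, h.ne f4⟩
    rintro rfl
    exact hnde f4
  have hqbx : A qb x := by
    refine hadj qb ?_ (hL _ _ b2) (hnx a ha qb b2)
    rw [← hKeq]
    simp only [Finset.mem_insert, Finset.mem_singleton, not_or]
    exact ⟨h.ne b2, b1, h.ne b3, h.ne b4, h.ne g4⟩
  have hqax : A qa x := by
    refine hadj qa ?_ (hL _ _ a2) (hnx b hb qa a2)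
    rw [← hKeq]
    simp only [Finset.mem_insert, Finset.mem_singleton, not_or]
    exact ⟨a1, h.ne a2, h.ne a3, h.ne a4, h.ne k4⟩
  have hdx : d ≠ x := ((hK d).mp hd).2.1
  have hex : e ≠ x := ((hK e).mp he).2.1
  by_cases hcc : pc = qc
  · subst hcc
    exact h.three qa qb pc d e x (s _ _ hpba) (s _ _ hpca) (s _ _ hpcb)
      ⟨s _ _ a4, s _ _ b4, s _ _ c4⟩ ⟨s _ _ k4, s _ _ g4, s _ _ f4⟩
      ⟨s _ _ hqax, s _ _ hqbx, s _ _ hpcx⟩ hde hdx hex
  · -- the link of `a b` is the pentagon `c, d, pc, qc, e`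
    have hsub : ({c, d, e, pc, qc} : Finset V) ⊆ cn a b := by
      intro y hy
      rw [h.cn_iff]
      simp only [Finset.mem_insert, Finset.mem_singleton] at hy
      rcases hy with rfl | rfl | rfl | rfl | rfl
      · exact ⟨s _ _ hac, s _ _ hbc⟩
      · exact ⟨s _ _ had, s _ _ hbd⟩
      · exact ⟨s _ _ hae, s _ _ hbe⟩
      · exact ⟨c2, c3⟩
      · exact ⟨f2, f3⟩
    have hpce : pc ≠ e := by
      rintro rfl
      exact hnde (s _ _ c4)
    have hqcd : qc ≠ d := by
      rintro rfl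
      exact hnde f4
    have hcard : ({c, d, e, pc, qc} : Finset V).card = 5 := by
      rw [Finset.card_insert_of_notMem, Finset.card_insert_of_notMem,
        Finset.card_insert_of_notMem, Finset.card_insert_of_notMem, Finset.card_singleton]
      · simpa using hcc
      · simp only [Finset.mem_insert, Finset.mem_singleton, not_or]
        exact ⟨fun h' => hpce h'.symm, fun h' => h.ne f4 h'.symm⟩
      · simp only [Finset.mem_insert, Finset.mem_singleton, not_or]
        exact ⟨hde, fun h' => h.ne c4 h'.symm, fun h' => hqcd h'.symm⟩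
      · simp only [Finset.mem_insert, Finset.mem_singleton, not_or]
        exact ⟨h.ne hcd, h.ne hce, fun h' => c1 h'.symm, fun h' => f1 h'.symm⟩
    have heq := Finset.eq_of_subset_of_card_le hsub (by rw [hcard]; exact n1)
    obtain ⟨r, r1, r2, r3, r4, _, _⟩ := h.opp a b pc d hab (s _ _ c2) (s _ _ c3) had hbd c4
    have hr : r ∈ cn a b := (h.cn_iff a b r).mpr ⟨r2, r3⟩
    rw [← heq] at hr
    simp only [Finset.mem_insert, Finset.mem_singleton] at hr
    rcases hr with rfl | rfl | rfl | rfl | rfl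
    · exact c5 (s _ _ r4)
    · exact r1 rfl
    · rcases f6 pc c2 c3 (s _ _ r4) with h1 | h1
      · exact c1 h1
      · exact hcc h1
    · exact h.irr _ r4
    · exact h.five x qa qb pc r (s _ _ hqax) (s _ _ hqbx) (s _ _ hpcx) (s _ _ hqcx)
        (s _ _ hpba) (s _ _ hpca) (s _ _ hqca) (s _ _ hpcb) (s _ _ hqcb) (s _ _ r4)

end G4

end Pool.Agent.MP19e880
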