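import Pool.Agent.Lib.MP_19e880_co.Sphere

/-!
The h-polynomials of links, and how they decompose with respect to the complex of
non-neighbours of a vertex.
-/

set_option autoImplicit false
set_option linter.unusedSectionVars false

namespace Pool.Agent.MP19e880

open Polynomial

variable {V : Type} [Fintype V] [LinearOrder V]

/-- The h-polynomial of the link of `σ`, in its second form. -/
noncomputable def H (S : Finset (Finset V)) (d : ℕ) (σ : Finset V) : ℤ[X] :=
  ∑ F ∈ S.filter (fun F => σ ⊆ F), (X - 1) ^ (d - F.card)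

/-- The combinatorial part of what is needed. -/
structure Eul (S : Finset (Finset V)) (d : ℕ) : Prop where
  down : ∀ F ∈ S, ∀ G : Finset V, G ⊆ F → G ∈ S
  flag : ∀ F : Finset V, (∀ a ∈ F, ∀ b ∈ F, ({a, b} : Finset V) ∈ S) → F ∈ S
  le : ∀ F ∈ S, F.card ≤ d
  eul : ∀ F ∈ S, ∑ G ∈ S.filter (fun G => F ⊆ G), (-1 : ℤ) ^ G.card = (-1) ^ d

theorem sum_Icc_pow {R : Type} [CommRing R] (σ G : Finset V) (h : σ ⊆ G) (a b : R) :
    ∑ F ∈ Finset.Icc σ G, a ^ (F.card - σ.card) * b ^ (G.card - F.card) =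
      (a + b) ^ (G.card - σ.card) := by
  rw [Finset.Icc_eq_image_powerset h, Finset.sum_image]
  · have h1 : (G \ σ).card = G.card - σ.card := Finset.card_sdiff_of_subset h
    rw [← h1, ← Finset.sum_pow_mul_eq_add_pow]
    refine Finset.sum_congr rfl fun T hT => ?_
    rw [Finset.mem_powerset] at hT
    have hd : Disjoint σ T := by
      rw [Finset.disjoint_right]
      intro x hx
      exact (Finset.mem_sdiff.mp (hT hx)).2
    rw [Finset.card_union_of_disjoint hd]
    have h2 : T.card ≤ (G \ σ).card := Finset.card_le_card hT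
    congr 2
    · omega
    · omega
  · intro T hT T' hT' hTT
    rw [Finset.coe_powerset, Set.mem_preimage] at hT hT'
    have key : ∀ T : Finset V, (T : Set V) ∈ 𝒫 ((G \ σ : Finset V) : Set V) → (σ ∪ T) \ σ = T := by
      intro T hT
      ext x
      simp only [Finset.mem_sdiff, Finset.mem_union]
      constructor
      · rintro ⟨h1 | h1, h2⟩
        · exact absurd h1 h2
        · exact h1
      · intro hx
        have := hT (Finset.mem_coe.mpr hx)
        rw [Finset.mem_coe, Finset.mem_sdiff] at this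
        exact ⟨Or.inr hx, this.2⟩
    have h1 := key T hT
    have h2 := key T' hT'
    dsimp only at hTT
    rw [← h1, ← h2, hTT]

theorem neg_one_pow_sub' {R : Type} [CommRing R] (a b : ℕ) (h : b ≤ a) :
    (-1 : R) ^ (a - b) = (-1) ^ a * (-1) ^ b := by
  obtain ⟨c, rfl⟩ := Nat.exists_eq_add_of_le h
  rw [Nat.add_sub_cancel_left, pow_add, mul_comm, ← mul_assoc, ← pow_add, ← two_mul, pow_mul]
  simp

namespace Eul

variable {S : Finset (Finset V)} {d : ℕ}

theorem H_first (h : Eul S d) (σ : Finset V) (hσ : σ ∈ S) :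
    H S d σ = ∑ G ∈ S.filter (fun G => σ ⊆ G), X ^ (G.card - σ.card) * (1 - X) ^ (d - G.card) := by
  unfold H
  have h1 : ∀ F ∈ S.filter (fun F => σ ⊆ F), (X - 1 : ℤ[X]) ^ (d - F.card) =
      ∑ G ∈ S.filter (fun G => F ⊆ G), (1 - X) ^ (d - F.card) * ((-1) ^ F.card * (-1) ^ G.card) := by
    intro F hF
    rw [Finset.mem_filter] at hF
    rw [← Finset.mul_sum, ← Finset.mul_sum]
    have h2 := h.eul F hF.1
    have h3 : ∑ G ∈ S.filter (fun G => F ⊆ G), (-1 : ℤ[X]) ^ G.card = (-1) ^ d := by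
      have := congrArg (fun n : ℤ => (C n : ℤ[X])) h2
      simpa using this
    rw [h3]
    have h4 : (X - 1 : ℤ[X]) = (1 - X) * (-1) := by ring
    rw [h4, mul_pow, neg_one_pow_sub' d F.card (h.le F hF.1)]
    ring
  rw [Finset.sum_congr rfl h1]
  rw [Finset.sum_comm' (s' := fun G => Finset.Icc σ G) (t' := S.filter (fun G => σ ⊆ G))]
  · refine Finset.sum_congr rfl fun G hG => ?_
    rw [Finset.mem_filter] at hG
    have h5 := sum_Icc_pow σ G hG.2 (1 : ℤ[X]) (-(1 - X))
    have h6 : (1 + -(1 - X) : ℤ[X]) = X := by ring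
    rw [h6] at h5
    rw [← h5, Finset.sum_mul]
    refine Finset.sum_congr rfl fun F hF => ?_
    rw [Finset.mem_Icc] at hF
    have hFG : F.card ≤ G.card := Finset.card_le_card hF.2
    have hGd := h.le G hG.1
    rw [one_pow, one_mul]
    have h7 : (-(1 - X) : ℤ[X]) = (-1) * (1 - X) := by ring
    rw [h7, mul_pow, neg_one_pow_sub' G.card F.card hFG]
    have h8 : d - F.card = (G.card - F.card) + (d - G.card) := by omega
    rw [h8, pow_add]
    ring
  · intro F G
    simp only [Finset.mem_filter, Finset.mem_Icc]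
    constructor
    · rintro ⟨⟨h1, h2⟩, h3, h4⟩
      exact ⟨⟨h2, h4⟩, h3, h2.trans h4⟩
    · rintro ⟨⟨h1, h2⟩, h3, h4⟩
      exact ⟨⟨h.down G h3 F h2, h1⟩, h3, h2⟩

/-- The faces of the link of `σ` without neighbours of `v`. -/
def _root_.Pool.Agent.MP19e880.Kf (S : Finset (Finset V)) (σ : Finset V) (v : V) :
    Finset (Finset V) :=
  S.filter (fun ρ => Disjoint ρ (Nb S v) ∧ ρ ∪ σ ∈ S)

theorem sub_Nb (h : Eul S d) (F : Finset V) (v : V) (hF : F ∈ S) (hv : v ∈ F) : F ⊆ Nb S v := by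
  intro x hx
  unfold Nb
  rw [Finset.mem_filter]
  refine ⟨Finset.mem_univ _, h.down F hF _ ?_⟩
  intro y hy
  rw [Finset.mem_insert, Finset.mem_singleton] at hy
  rcases hy with rfl | rfl
  · exact hx
  · exact hv

theorem insert_mem (h : Eul S d) (F : Finset V) (v : V) (hF : F ∈ S) (hv : F ⊆ Nb S v)
    (hvS : ({v} : Finset V) ∈ S) : insert v F ∈ S := by
  apply h.flag
  intro a ha b hb
  rw [Finset.mem_insert] at ha hb
  rcases ha with rfl | ha <;> rcases hb with rfl | hb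
  · rw [Finset.pair_eq_singleton]
    exact hvS
  · have := hv hb
    unfold Nb at this
    rw [Finset.mem_filter] at this
    rw [Finset.pair_comm]
    exact this.2
  · have := hv ha
    unfold Nb at this
    rw [Finset.mem_filter] at this
    exact this.2
  · refine h.down F hF _ ?_
    intro y hy
    rw [Finset.mem_insert, Finset.mem_singleton] at hy
    rcases hy with rfl | rfl
    · exact ha
    · exact hb

theorem incl_excl (h : Eul S d) (σ : Finset V) (v : V) (hv : v ∉ σ)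
    (hv2 : insert v σ ∈ S) (w : ℕ → ℤ[X]) :
    ∑ ρ ∈ Kf S σ v, (-1) ^ ρ.card * ∑ F ∈ S.filter (fun F => ρ ∪ σ ⊆ F), w F.card =
      ∑ F ∈ S.filter (fun F => insert v σ ⊆ F), (w F.card + w (F.card - 1)) := by
  have hvS : ({v} : Finset V) ∈ S := h.down _ hv2 _ (by simp)
  have hσN : σ ⊆ Nb S v := (Finset.subset_insert v σ).trans
    (h.sub_Nb (insert v σ) v hv2 (Finset.mem_insert_self _ _))
  -- swap the sums
  have h1 : ∑ ρ ∈ Kf S σ v, (-1) ^ ρ.card * ∑ F ∈ S.filter (fun F => ρ ∪ σ ⊆ F), w F.card =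
      ∑ F ∈ S.filter (fun F => σ ⊆ F), ∑ ρ ∈ (F \ Nb S v).powerset, (-1) ^ ρ.card * w F.card := by
    simp only [Finset.mul_sum]
    refine Finset.sum_comm' ?_
    intro ρ F
    unfold Kf
    simp only [Finset.mem_filter, Finset.mem_powerset]
    constructor
    · rintro ⟨⟨h1, h2, h3⟩, h4, h5⟩
      refine ⟨?_, h4, Finset.subset_union_right.trans h5⟩
      intro x hx
      rw [Finset.mem_sdiff]
      exact ⟨h5 (Finset.mem_union_left _ hx), Finset.disjoint_left.mp h2 hx⟩
    · rintro ⟨h1, h2, h3⟩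
      have h4 : ρ ⊆ F := h1.trans Finset.sdiff_subset
      have h5 : ρ ∪ σ ⊆ F := Finset.union_subset h4 h3
      refine ⟨⟨h.down F h2 ρ h4, ?_, h.down F h2 _ h5⟩, h2, h5⟩
      rw [Finset.disjoint_left]
      intro x hx
      exact (Finset.mem_sdiff.mp (h1 hx)).2
  rw [h1]
  have h2 : ∀ F ∈ S.filter (fun F => σ ⊆ F),
      ∑ ρ ∈ (F \ Nb S v).powerset, (-1) ^ ρ.card * w F.card = if F ⊆ Nb S v then w F.card else 0 := by
    intro F _
    rw [← Finset.sum_mul]
    have h3 : ∑ ρ ∈ (F \ Nb S v).powerset, (-1 : ℤ[X]) ^ ρ.card =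
        if F \ Nb S v = ∅ then 1 else 0 := by
      have := congrArg (fun n : ℤ => (C n : ℤ[X]))
        (Finset.sum_powerset_neg_one_pow_card (x := F \ Nb S v))
      simp only [map_sum, map_pow, map_neg, map_one] at this
      rw [this]
      split_ifs <;> simp
    rw [h3]
    simp only [Finset.sdiff_eq_empty_iff_subset]
    split_ifs <;> simp
  rw [Finset.sum_congr rfl h2, ← Finset.sum_filter, Finset.filter_filter]
  rw [Finset.sum_add_distrib]
  rw [← Finset.sum_filter_add_sum_filter_not (S.filter (fun F => σ ⊆ F ∧ F ⊆ Nb S v))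
    (fun F => v ∈ F)]
  congr 1
  · refine Finset.sum_congr ?_ fun _ _ => rfl
    ext F
    simp only [Finset.mem_filter, Finset.insert_subset_iff]
    constructor
    · rintro ⟨⟨h1, h2, h3⟩, h4⟩
      exact ⟨h1, h4, h2⟩
    · rintro ⟨h1, h4, h2⟩
      exact ⟨⟨h1, h2, h.sub_Nb F v h1 h4⟩, h4⟩
  · refine Finset.sum_bij' (fun F _ => insert v F) (fun F _ => F.erase v) ?_ ?_ ?_ ?_ ?_
    · intro F hF
      simp only [Finset.mem_filter] at hF ⊢
      obtain ⟨⟨h1, h2, h3⟩, h4⟩ := hF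
      exact ⟨h.insert_mem F v h1 h3 hvS, Finset.insert_subset_insert v h2⟩
    · intro F hF
      simp only [Finset.mem_filter, Finset.insert_subset_iff] at hF ⊢
      obtain ⟨h1, h2, h3⟩ := hF
      refine ⟨⟨h.down F h1 _ (Finset.erase_subset _ _), ?_, ?_⟩, Finset.notMem_erase _ _⟩
      · intro x hx
        rw [Finset.mem_erase]
        refine ⟨?_, h3 hx⟩
        rintro rfl
        exact hv hx
      · exact (Finset.erase_subset _ _).trans (h.sub_Nb F v h1 h2)
    · intro F hF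
      simp only [Finset.mem_filter] at hF
      exact Finset.erase_insert hF.2
    · intro F hF
      simp only [Finset.mem_filter, Finset.insert_subset_iff] at hF
      exact Finset.insert_erase hF.2.1
    · intro F hF
      simp only [Finset.mem_filter] at hF
      rw [Finset.card_insert_of_notMem hF.2, Nat.add_sub_cancel]

theorem formula_b (h : Eul S d) (σ : Finset V) (v : V) (hv : v ∉ σ)
    (hv2 : insert v σ ∈ S) :
    ∑ ρ ∈ Kf S σ v, (-1) ^ ρ.card * H S d (ρ ∪ σ) = X * H S d (insert v σ) := by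
  have h1 := h.incl_excl σ v hv hv2 (fun n => (X - 1) ^ (d - n))
  unfold H
  rw [h1, Finset.mul_sum]
  refine Finset.sum_congr rfl fun F hF => ?_
  rw [Finset.mem_filter, Finset.insert_subset_iff] at hF
  have h2 := h.le F hF.1
  have h3 : 0 < F.card := Finset.card_pos.mpr ⟨v, hF.2.1⟩
  have h4 : d - (F.card - 1) = d - F.card + 1 := by omega
  rw [h4, pow_succ]
  ring

theorem card_union (h : Eul S d) (σ : Finset V) (v : V)
    (hv2 : insert v σ ∈ S) (ρ : Finset V) (hρ : ρ ∈ Kf S σ v) :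
    (ρ ∪ σ).card = ρ.card + σ.card := by
  have hσN : σ ⊆ Nb S v := (Finset.subset_insert v σ).trans
    (h.sub_Nb (insert v σ) v hv2 (Finset.mem_insert_self _ _))
  unfold Kf at hρ
  rw [Finset.mem_filter] at hρ
  exact Finset.card_union_of_disjoint (Finset.disjoint_of_subset_right hσN hρ.2.1)

theorem formula_a (h : Eul S d) (σ : Finset V) (v : V) (hv : v ∉ σ)
    (hv2 : insert v σ ∈ S) :
    ∑ ρ ∈ Kf S σ v, (-1) ^ ρ.card * (X ^ ρ.card * H S d (ρ ∪ σ)) = H S d (insert v σ) := by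
  have h1 := h.incl_excl σ v hv hv2 (fun n => X ^ n * (1 - X) ^ (d - n))
  have key : ∀ τ ∈ S, ∑ F ∈ S.filter (fun F => τ ⊆ F), (X : ℤ[X]) ^ F.card * (1 - X) ^ (d - F.card)
      = X ^ τ.card * H S d τ := by
    intro τ hτ
    rw [h.H_first τ hτ, Finset.mul_sum]
    refine Finset.sum_congr rfl fun F hF => ?_
    rw [Finset.mem_filter] at hF
    have h2 := Finset.card_le_card hF.2
    have h3 : F.card = τ.card + (F.card - τ.card) := by omega
    conv_lhs => rw [h3, pow_add]
    have h4 : d - (τ.card + (F.card - τ.card)) = d - F.card := by omega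
    rw [h4]
    ring
  have h2 : ∑ ρ ∈ Kf S σ v, (-1) ^ ρ.card * ∑ F ∈ S.filter (fun F => ρ ∪ σ ⊆ F),
      (X : ℤ[X]) ^ F.card * (1 - X) ^ (d - F.card) =
      X ^ σ.card * ∑ ρ ∈ Kf S σ v, (-1) ^ ρ.card * (X ^ ρ.card * H S d (ρ ∪ σ)) := by
    rw [Finset.mul_sum]
    refine Finset.sum_congr rfl fun ρ hρ => ?_
    have h3 := h.card_union σ v hv2 ρ hρ
    unfold Kf at hρ
    rw [Finset.mem_filter] at hρ
    rw [key _ hρ.2.2, h3, pow_add]
    ring
  have h3 : ∑ F ∈ S.filter (fun F => insert v σ ⊆ F), ((X : ℤ[X]) ^ F.card * (1 - X) ^ (d - F.card)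
      + X ^ (F.card - 1) * (1 - X) ^ (d - (F.card - 1))) = X ^ σ.card * H S d (insert v σ) := by
    rw [h.H_first _ hv2, Finset.mul_sum]
    refine Finset.sum_congr rfl fun F hF => ?_
    rw [Finset.mem_filter] at hF
    have h4 := Finset.card_le_card hF.2
    rw [Finset.card_insert_of_notMem hv] at h4 ⊢
    have h5 := h.le F hF.1
    obtain ⟨m, hm⟩ := Nat.exists_eq_add_of_le h4
    have e1 : F.card - (σ.card + 1) = m := by omega
    have e2 : F.card - 1 = σ.card + m := by omega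
    have e3 : d - (σ.card + m) = d - F.card + 1 := by omega
    rw [e1, e2, e3]
    have e4 : F.card = σ.card + m + 1 := by omega
    generalize d - F.card = r
    rw [e4, pow_succ, pow_succ, pow_add]
    ring
  rw [h2, h3] at h1
  exact mul_left_cancel₀ (pow_ne_zero _ X_ne_zero) h1

theorem formula_ab (h : Eul S d) (σ : Finset V) (v : V) (hv : v ∉ σ)
    (hv2 : insert v σ ∈ S) :
    (1 - X ^ 2) * H S d (insert v σ) =
      ∑ ρ ∈ Kf S σ v, (-1) ^ ρ.card * ((X ^ ρ.card - X) * H S d (ρ ∪ σ)) := by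
  have ha := h.formula_a σ v hv hv2
  have hb := h.formula_b σ v hv hv2
  have h1 : ∑ ρ ∈ Kf S σ v, (-1) ^ ρ.card * ((X ^ ρ.card - X) * H S d (ρ ∪ σ)) =
      ∑ ρ ∈ Kf S σ v, (-1) ^ ρ.card * (X ^ ρ.card * H S d (ρ ∪ σ)) -
        X * ∑ ρ ∈ Kf S σ v, (-1) ^ ρ.card * H S d (ρ ∪ σ) := by
    rw [Finset.mul_sum, ← Finset.sum_sub_distrib]
    refine Finset.sum_congr rfl fun ρ _ => ?_
    ring
  rw [h1, ha, hb]
  ring

theorem main_formula (h : Eul S d) (σ : Finset V) (v : V) (hv : v ∉ σ)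
    (hv2 : insert v σ ∈ S) (hno : ∀ ρ ∈ Kf S σ v, ρ.card ≠ 4) :
    H S d σ = (1 + X) * H S d (insert v σ) +
      X * ∑ ρ ∈ (Kf S σ v).filter (fun ρ => ρ.card = 2), H S d (ρ ∪ σ) -
      X * (1 + X) * ∑ ρ ∈ (Kf S σ v).filter (fun ρ => ρ.card = 3), H S d (ρ ∪ σ) := by
  have hab := h.formula_ab σ v hv hv2
  have hle : ∀ ρ ∈ Kf S σ v, ρ.card ∈ Finset.range 4 := by
    intro ρ hρ
    rw [Finset.mem_range]
    by_contra hcon
    rw [not_lt] at hcon
    obtain ⟨τ, hτ1, hτ2⟩ := Finset.exists_subset_card_eq hcon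
    refine hno τ ?_ hτ2
    unfold Kf at hρ ⊢
    rw [Finset.mem_filter] at hρ ⊢
    exact ⟨h.down ρ hρ.1 τ hτ1, Finset.disjoint_of_subset_left hτ1 hρ.2.1,
      h.down _ hρ.2.2 _ (Finset.union_subset_union_left hτ1)⟩
  rw [← Finset.sum_fiberwise_of_maps_to hle] at hab
  rw [Finset.sum_range_succ, Finset.sum_range_succ, Finset.sum_range_succ,
    Finset.sum_range_succ, Finset.sum_range_zero] at hab
  have hσS : σ ∈ S := h.down _ hv2 _ (Finset.subset_insert _ _)
  have e0 : (Kf S σ v).filter (fun ρ => ρ.card = 0) = {∅} := by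
    ext ρ
    rw [Finset.mem_filter, Finset.mem_singleton, Finset.card_eq_zero]
    constructor
    · rintro ⟨_, h'⟩
      exact h'
    · rintro rfl
      refine ⟨?_, rfl⟩
      unfold Kf
      rw [Finset.mem_filter]
      exact ⟨h.down _ hσS _ (Finset.empty_subset _), Finset.disjoint_empty_left _, by
        rw [Finset.empty_union]; exact hσS⟩
  have s0 : ∑ ρ ∈ (Kf S σ v).filter (fun ρ => ρ.card = 0),
      (-1) ^ ρ.card * ((X ^ ρ.card - X) * H S d (ρ ∪ σ)) = (1 - X) * H S d σ := by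
    rw [e0, Finset.sum_singleton, Finset.empty_union, Finset.card_empty]
    ring
  have s1 : ∑ ρ ∈ (Kf S σ v).filter (fun ρ => ρ.card = 1),
      (-1) ^ ρ.card * ((X ^ ρ.card - X) * H S d (ρ ∪ σ)) = 0 := by
    refine Finset.sum_eq_zero fun ρ hρ => ?_
    rw [Finset.mem_filter] at hρ
    rw [hρ.2]
    ring
  have s2 : ∑ ρ ∈ (Kf S σ v).filter (fun ρ => ρ.card = 2),
      (-1) ^ ρ.card * ((X ^ ρ.card - X) * H S d (ρ ∪ σ)) =
      - (X * (1 - X)) * ∑ ρ ∈ (Kf S σ v).filter (fun ρ => ρ.card = 2), H S d (ρ ∪ σ) := by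
    rw [Finset.mul_sum]
    refine Finset.sum_congr rfl fun ρ hρ => ?_
    rw [Finset.mem_filter] at hρ
    rw [hρ.2]
    ring
  have s3 : ∑ ρ ∈ (Kf S σ v).filter (fun ρ => ρ.card = 3),
      (-1) ^ ρ.card * ((X ^ ρ.card - X) * H S d (ρ ∪ σ)) =
      (X * (1 - X) * (1 + X)) * ∑ ρ ∈ (Kf S σ v).filter (fun ρ => ρ.card = 3), H S d (ρ ∪ σ) := by
    rw [Finset.mul_sum]
    refine Finset.sum_congr rfl fun ρ hρ => ?_
    rw [Finset.mem_filter] at hρ
    rw [hρ.2]
    ring
  rw [s0, s1, s2, s3] at hab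
  have hne : (1 - X : ℤ[X]) ≠ 0 := by
    intro h'
    have := congrArg (eval 0) h'
    simp at this
  apply mul_left_cancel₀ hne
  linear_combination - hab

end Eul

end Pool.Agent.MP19e880
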