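import Pool.Agent.Lib.MP_19e880_co.Strong

/-!
An irreducible flag homology sphere has a vertex with irreducible link; hence it has at least
`3 d - 1` vertices.
-/

set_option autoImplicit false
set_option linter.unusedSectionVars false

namespace Pool.Agent.MP19e880

open Polynomial

variable {V : Type} [Fintype V] [LinearOrder V] {k : Type} [Field k]

/-- `C` is connected in the complement of the graph. -/
def Con (S : Finset (Finset V)) (C : Finset V) : Prop :=
  ∀ A : Finset V, A ⊆ C → A.Nonempty → A ≠ C → ∃ a ∈ A, ∃ b ∈ C \ A, ({a, b} : Finset V) ∉ S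

/-- `C` is a proper component of the link of `σ`. -/
def Comp (S : Finset (Finset V)) (σ C : Finset V) : Prop :=
  C ⊆ lv S σ ∧ C.Nonempty ∧ C ≠ lv S σ ∧
    (∀ a ∈ C, ∀ b ∈ lv S σ \ C, ({a, b} : Finset V) ∈ S) ∧ Con S C

theorem con_split {S : Finset (Finset V)} (L A D : Finset V) (hD : D ⊆ L)
    (hA : ∀ a ∈ A, ∀ b ∈ L \ A, ({a, b} : Finset V) ∈ S) (hc : Con S D) :
    D ⊆ A ∨ Disjoint D A := by
  by_cases h1 : (D ∩ A).Nonempty
  · left
    by_contra h2
    obtain ⟨a, ha, b, hb, hab⟩ := hc (D ∩ A) Finset.inter_subset_left h1 (by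
      intro h3
      exact h2 (Finset.inter_eq_left.mp h3))
    rw [Finset.mem_inter] at ha
    rw [Finset.mem_sdiff, Finset.mem_inter] at hb
    exact hab (hA a ha.2 b (Finset.mem_sdiff.mpr ⟨hD hb.1, fun h3 => hb.2 ⟨hb.1, h3⟩⟩))
  · right
    rw [Finset.not_nonempty_iff_eq_empty, ← Finset.disjoint_iff_inter_eq_empty] at h1
    exact h1

theorem exists_comp {S : Finset (Finset V)} (σ D0 : Finset V) (hirr : ¬ Irr S σ)
    (hD0 : D0 ⊆ lv S σ) (hne : D0.Nonempty) (hc : Con S D0) : ∃ C, Comp S σ C ∧ D0 ⊆ C := by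
  classical
  unfold Irr at hirr
  push Not at hirr
  obtain ⟨A, hA1, hA2, hA3, hA4⟩ := hirr
  let T : Finset (Finset V) := (lv S σ).powerset.filter
    (fun D => D0 ⊆ D ∧ ∀ a ∈ D, ∀ b ∈ lv S σ \ D, ({a, b} : Finset V) ∈ S)
  have hT : ∀ D, D ∈ T ↔ D ⊆ lv S σ ∧ D0 ⊆ D ∧
      ∀ a ∈ D, ∀ b ∈ lv S σ \ D, ({a, b} : Finset V) ∈ S := by
    intro D
    simp only [T, Finset.mem_filter, Finset.mem_powerset]
  have hcompl : ∀ D, D ⊆ lv S σ → (∀ a ∈ D, ∀ b ∈ lv S σ \ D, ({a, b} : Finset V) ∈ S) →
      ∀ a ∈ lv S σ \ D, ∀ b ∈ lv S σ \ (lv S σ \ D), ({a, b} : Finset V) ∈ S := by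
    intro D hD hD2 a ha b hb
    rw [Finset.mem_sdiff, Finset.mem_sdiff, not_and, not_not] at hb
    rw [Finset.pair_comm]
    exact hD2 b (hb.2 hb.1) a ha
  -- a proper member
  have hex : ∃ D ∈ T, D.card < (lv S σ).card := by
    rcases con_split (lv S σ) A D0 hD0 hA4 hc with h1 | h1
    · refine ⟨A, (hT A).mpr ⟨hA1, h1, hA4⟩, ?_⟩
      exact Finset.card_lt_card (Finset.ssubset_iff_subset_ne.mpr ⟨hA1, hA3⟩)
    · refine ⟨lv S σ \ A, (hT _).mpr ⟨Finset.sdiff_subset, ?_, hcompl A hA1 hA4⟩, ?_⟩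
      · intro x hx
        rw [Finset.mem_sdiff]
        exact ⟨hD0 hx, Finset.disjoint_left.mp h1 hx⟩
      · refine Finset.card_lt_card (Finset.ssubset_iff_subset_ne.mpr ⟨Finset.sdiff_subset, ?_⟩)
        intro h2
        obtain ⟨a, ha⟩ := hA2
        have h3 := hA1 ha
        rw [← h2, Finset.mem_sdiff] at h3
        exact h3.2 ha
  obtain ⟨D1, hD1, hD1c⟩ := hex
  obtain ⟨D, hD, hmin⟩ := Finset.exists_min_image T Finset.card ⟨D1, hD1⟩
  have hD' := (hT D).mp hD
  refine ⟨D, ⟨hD'.1, hne.mono hD'.2.1, ?_, hD'.2.2, ?_⟩, hD'.2.1⟩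
  · intro h1
    have h2 := hmin D1 hD1
    rw [h1] at h2
    omega
  · intro B hB1 hB2 hB3
    by_contra hcon
    push Not at hcon
    -- `B` is complete to `D \ B`, so both are complete to the rest
    have hBc : ∀ a ∈ B, ∀ b ∈ lv S σ \ B, ({a, b} : Finset V) ∈ S := by
      intro a ha b hb
      rw [Finset.mem_sdiff] at hb
      by_cases hbD : b ∈ D
      · exact hcon a ha b (Finset.mem_sdiff.mpr ⟨hbD, hb.2⟩)
      · exact hD'.2.2 a (hB1 ha) b (Finset.mem_sdiff.mpr ⟨hb.1, hbD⟩)
    have hB'c : ∀ a ∈ D \ B, ∀ b ∈ lv S σ \ (D \ B), ({a, b} : Finset V) ∈ S := by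
      intro a ha b hb
      rw [Finset.mem_sdiff] at ha hb
      by_cases hbD : b ∈ D
      · have hbB : b ∈ B := by
          by_contra hbB
          exact hb.2 (Finset.mem_sdiff.mpr ⟨hbD, hbB⟩)
        rw [Finset.pair_comm]
        exact hcon b hbB a (Finset.mem_sdiff.mpr ha)
      · exact hD'.2.2 a ha.1 b (Finset.mem_sdiff.mpr ⟨hb.1, hbD⟩)
    rcases con_split D B D0 hD'.2.1 (fun a ha b hb => hcon a ha b hb) hc with h1 | h1
    · have h2 := hmin B ((hT B).mpr ⟨hB1.trans hD'.1, h1, hBc⟩)
      have h3 := Finset.card_lt_card (Finset.ssubset_iff_subset_ne.mpr ⟨hB1, hB3⟩)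
      omega
    · have h2 := hmin (D \ B) ((hT _).mpr ⟨Finset.sdiff_subset.trans hD'.1, by
        intro x hx
        rw [Finset.mem_sdiff]
        exact ⟨hD'.2.1 hx, Finset.disjoint_left.mp h1 hx⟩, hB'c⟩)
      have h3 : (D \ B).card < D.card := by
        refine Finset.card_lt_card (Finset.ssubset_iff_subset_ne.mpr ⟨Finset.sdiff_subset, ?_⟩)
        intro h4
        obtain ⟨b, hb⟩ := hB2
        have h5 := hB1 hb
        rw [← h4, Finset.mem_sdiff] at h5
        exact h5.2 hb
      omega

theorem con_singleton {S : Finset (Finset V)} (u : V) : Con S {u} := by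
  intro A hA hne hA2
  exfalso
  rcases Finset.subset_singleton_iff.mp hA with h1 | h1
  · rw [h1] at hne
    exact Finset.not_nonempty_empty hne
  · exact hA2 h1

/-- An irreducible sphere has a vertex with irreducible link. -/
theorem exists_irr {S : Finset (Finset V)} {d : ℕ} (h : HS k S d) (hE : Eul S d)
    (σ : Finset V) (hσ : σ ∈ S) (hd : σ.card + 2 ≤ d) (hirr : Irr S σ) :
    ∃ x ∈ lv S σ, Irr S (insert x σ) := by
  classical
  by_contra hcon
  push Not at hcon
  let T : Finset (V × Finset V) := Finset.univ.filter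
    (fun p => p.1 ∈ lv S σ ∧ Comp S (insert p.1 σ) p.2)
  have hT : ∀ p, p ∈ T ↔ p.1 ∈ lv S σ ∧ Comp S (insert p.1 σ) p.2 := by
    intro p
    simp only [T, Finset.mem_filter, Finset.mem_univ, true_and]
  have hTne : T.Nonempty := by
    obtain ⟨x, hx, hx2⟩ := h.extend σ hσ (by omega)
    have hxl : x ∈ lv S σ := (mem_lv σ x).mpr ⟨hx, hx2⟩
    obtain ⟨u, hu, hu2⟩ := h.extend (insert x σ) hx2 (by
      rw [Finset.card_insert_of_notMem hx]; omega)
    obtain ⟨C, hC, _⟩ := exists_comp (insert x σ) {u} (hcon x hxl)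
      (Finset.singleton_subset_iff.mpr ((mem_lv _ u).mpr ⟨hu, hu2⟩))
      (Finset.singleton_nonempty u) (con_singleton u)
    exact ⟨(x, C), (hT _).mpr ⟨hxl, hC⟩⟩
  obtain ⟨⟨x, C⟩, hxC, hmax⟩ := Finset.exists_max_image T (fun p => p.2.card) hTne
  obtain ⟨hx, hC1, hC2, hC3, hC4, hC5⟩ := (hT _).mp hxC
  dsimp only at hx hC1 hC2 hC3 hC4 hC5 hmax
  let W : Finset V := (lv S σ).filter (fun w => w ∉ C ∧ ∀ a ∈ C, ({w, a} : Finset V) ∈ S)
  have hW : ∀ w, w ∈ W ↔ w ∈ lv S σ ∧ w ∉ C ∧ ∀ a ∈ C, ({w, a} : Finset V) ∈ S := by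
    intro w
    simp only [W, Finset.mem_filter]
  have hClv : C ⊆ lv S σ := hC1.trans (lv_insert_sub hE σ x)
  have hxW : x ∈ W := by
    rw [hW]
    refine ⟨hx, ?_, ?_⟩
    · intro h1
      have := ((mem_lv_insert h hE σ x x hx).mp (hC1 h1)).2.1
      exact this rfl
    · intro a ha
      exact ((mem_lv_insert h hE σ x a hx).mp (hC1 ha)).2.2
  -- neighbours of members of `W`
  have hN : ∀ w ∈ W, lv S (insert w σ) ⊆ C ∪ W := by
    intro w hw y hy
    have hw' := (hW w).mp hw
    have hCw : C ⊆ lv S (insert w σ) := by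
      intro a ha
      rw [mem_lv_insert h hE σ w a hw'.1]
      refine ⟨hClv ha, ?_, hw'.2.2 a ha⟩
      rintro rfl
      exact hw'.2.1 ha
    obtain ⟨D, hD, hCD⟩ := exists_comp (insert w σ) C (hcon w hw'.1) hCw hC2 hC5
    have h1 := hmax (w, D) ((hT _).mpr ⟨hw'.1, hD⟩)
    dsimp only at h1
    have hDC : C = D := Finset.eq_of_subset_of_card_le hCD h1
    rw [Finset.mem_union]
    by_cases hyC : y ∈ C
    · exact Or.inl hyC
    · right
      rw [hW]
      refine ⟨lv_insert_sub hE σ w hy, hyC, ?_⟩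
      intro a ha
      rw [Finset.pair_comm]
      rw [← hDC] at hD
      exact hD.2.2.2.1 a ha y (Finset.mem_sdiff.mpr ⟨hy, hyC⟩)
  have hfaclv : ∀ F, Fac S d σ F → F ⊆ lv S σ := by
    intro F hF y hy
    rw [mem_lv]
    exact ⟨Finset.disjoint_left.mp hF.1 hy, hE.down _ hF.2.1 _
      (Finset.insert_subset (Finset.mem_union_left _ hy) Finset.subset_union_right)⟩
  -- the facets inside `C ∪ W`
  obtain ⟨P, hP1, hP2, hP3⟩ := exists_facet h (insert x σ) ((mem_lv σ x).mp hx).2
  rw [Finset.disjoint_insert_right] at hP1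
  rw [Finset.card_insert_of_notMem ((mem_lv σ x).mp hx).1] at hP3
  have hF0 : Fac S d σ (insert x P) := by
    refine ⟨?_, ?_, ?_⟩
    · rw [Finset.disjoint_insert_left]
      exact ⟨((mem_lv σ x).mp hx).1, hP1.2⟩
    · rw [Finset.insert_union, ← Finset.union_insert]
      exact hP2
    · rw [Finset.card_insert_of_notMem hP1.1]
      omega
  have hall := h.strong σ hσ (fun F => F ⊆ C ∪ W) (insert x P) hF0 (by
    intro y hy
    rw [Finset.mem_insert] at hy
    rcases hy with rfl | hy
    · exact Finset.mem_union_right _ hxW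
    · refine hN x hxW ?_
      rw [mem_lv_insert h hE σ x y hx]
      refine ⟨hfaclv _ hF0 (Finset.mem_insert_of_mem hy), ?_, ?_⟩
      · rintro rfl
        exact hP1.1 hy
      · exact pair_mem hE _ hF0.2.1 x y (Finset.mem_union_left _ (Finset.mem_insert_self _ _))
          (Finset.mem_union_left _ (Finset.mem_insert_of_mem hy))) (by
    intro R u u' hu hu' hF1 hF2 hsub
    by_cases hRW : ∃ w ∈ R, w ∈ W
    · obtain ⟨w, hwR, hwW⟩ := hRW
      intro y hy
      rw [Finset.mem_insert] at hy
      rcases hy with rfl | hy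
      · refine hN w hwW ?_
        rw [mem_lv_insert h hE σ w y ((hW w).mp hwW).1]
        refine ⟨hfaclv _ hF2 (Finset.mem_insert_self _ _), ?_, ?_⟩
        · rintro rfl
          exact hu' hwR
        · exact pair_mem hE _ hF2.2.1 w y
            (Finset.mem_union_left _ (Finset.mem_insert_of_mem hwR))
            (Finset.mem_union_left _ (Finset.mem_insert_self _ _))
      · exact hsub (Finset.mem_insert_of_mem hy)
    · exfalso
      push Not at hRW
      have hRC : R ⊆ C := by
        intro y hy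
        have h1 := hsub (Finset.mem_insert_of_mem hy)
        rw [Finset.mem_union] at h1
        rcases h1 with h1 | h1
        · exact h1
        · exact absurd h1 (hRW y hy)
      obtain ⟨c, hc⟩ : (lv S (insert x σ) \ C).Nonempty := by
        rw [Finset.sdiff_nonempty]
        intro h1
        exact hC3 (Finset.Subset.antisymm hC1 h1)
      have hc' := (Finset.mem_sdiff.mp hc)
      have h2 : insert c R ∪ insert x σ ∈ S := by
        refine lv_flag hE (insert x σ) _ ((mem_lv σ x).mp hx).2
          (Finset.insert_subset hc'.1 (hRC.trans hC1)) ?_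
        intro a ha b hb
        rw [Finset.mem_insert] at ha hb
        rcases ha with rfl | ha <;> rcases hb with rfl | hb
        · exact pair_mem hE _ ((mem_lv _ _).mp hc'.1).2 _ _ (Finset.mem_insert_self _ _)
            (Finset.mem_insert_self _ _)
        · rw [Finset.pair_comm]; exact hC4 b (hRC hb) _ hc
        · exact hC4 a (hRC ha) _ hc
        · exact pair_mem hE _ hF1.2.1 a b (Finset.mem_union_left _ (Finset.mem_insert_of_mem ha))
            (Finset.mem_union_left _ (Finset.mem_insert_of_mem hb))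
      have h3 := hE.le _ h2
      have h4 : Disjoint (insert c R) (insert x σ) := by
        rw [Finset.disjoint_left]
        intro y hy
        have : y ∈ lv S (insert x σ) := by
          rw [Finset.mem_insert] at hy
          rcases hy with rfl | hy
          · exact hc'.1
          · exact hC1 (hRC hy)
        exact ((mem_lv _ y).mp this).1
      rw [Finset.card_union_of_disjoint h4, Finset.card_insert_of_notMem (fun h5 => hc'.2 (hRC h5)),
        Finset.card_insert_of_notMem ((mem_lv σ x).mp hx).1] at h3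
      have h5 := hF1.2.2
      rw [Finset.card_insert_of_notMem hu] at h5
      omega)
  -- every vertex lies in `C ∪ W`
  have hcover : lv S σ ⊆ C ∪ W := by
    intro y hy
    obtain ⟨Q, hQ1, hQ2, hQ3⟩ := exists_facet h (insert y σ) ((mem_lv σ y).mp hy).2
    rw [Finset.disjoint_insert_right] at hQ1
    rw [Finset.card_insert_of_notMem ((mem_lv σ y).mp hy).1] at hQ3
    have hF : Fac S d σ (insert y Q) := by
      refine ⟨?_, ?_, ?_⟩
      · rw [Finset.disjoint_insert_left]
        exact ⟨((mem_lv σ y).mp hy).1, hQ1.2⟩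
      · rw [Finset.insert_union, ← Finset.union_insert]
        exact hQ2
      · rw [Finset.card_insert_of_notMem hQ1.1]
        omega
    exact hall _ hF (Finset.mem_insert_self _ _)
  obtain ⟨a, ha, b, hb, hab⟩ := hirr C hClv hC2 (by
    intro h1
    rw [← h1] at hx
    exact ((hW x).mp hxW).2.1 hx)
  rw [Finset.mem_sdiff] at hb
  have hbW : b ∈ W := by
    have := hcover hb.1
    rw [Finset.mem_union] at this
    rcases this with h1 | h1
    · exact absurd h1 hb.2
    · exact h1
  apply hab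
  rw [Finset.pair_comm]
  exact ((hW b).mp hbW).2.2 a ha

/-- The non-neighbours of `x` in the link of `σ`. -/
def nn (S : Finset (Finset V)) (σ : Finset V) (x : V) : Finset V :=
  (lv S σ).filter (fun y => ({y, x} : Finset V) ∉ S)

theorem lv_card {S : Finset (Finset V)} {d : ℕ} (h : HS k S d) (hE : Eul S d) (σ : Finset V)
    (x : V) (hx : x ∈ lv S σ) :
    (lv S σ).card = (lv S (insert x σ)).card + 1 + (nn S σ x).card := by
  have h1 : lv S σ = insert x (lv S (insert x σ)) ∪ nn S σ x := by
    ext y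
    rw [Finset.mem_union, Finset.mem_insert, mem_lv_insert h hE σ x y hx]
    unfold nn
    rw [Finset.mem_filter]
    constructor
    · intro hy
      by_cases h2 : y = x
      · exact Or.inl (Or.inl h2)
      · by_cases h3 : ({y, x} : Finset V) ∈ S
        · left; right
          refine ⟨hy, h2, ?_⟩
          rw [Finset.pair_comm]; exact h3
        · exact Or.inr ⟨hy, h3⟩
    · rintro ((rfl | h2) | h2)
      · exact hx
      · exact h2.1
      · exact h2.1
  have h2 : x ∉ lv S (insert x σ) := by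
    intro h3
    exact ((mem_lv_insert h hE σ x x hx).mp h3).2.1 rfl
  have h3 : Disjoint (insert x (lv S (insert x σ))) (nn S σ x) := by
    rw [Finset.disjoint_left]
    intro y hy hy2
    unfold nn at hy2
    rw [Finset.mem_filter] at hy2
    rw [Finset.mem_insert, mem_lv_insert h hE σ x y hx] at hy
    rcases hy with rfl | hy
    · apply hy2.2
      exact pair_mem hE _ ((mem_lv σ y).mp hx).2 y y (Finset.mem_insert_self _ _)
        (Finset.mem_insert_self _ _)
    · apply hy2.2
      rw [Finset.pair_comm]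
      exact hy.2.2
  conv_lhs => rw [h1]
  rw [Finset.card_union_of_disjoint h3, Finset.card_insert_of_notMem h2]

/-- In an irreducible sphere of positive dimension every vertex has two non-neighbours. -/
theorem nn_two {S : Finset (Finset V)} {d : ℕ} (h : HS k S d) (hE : Eul S d) (σ : Finset V)
    (hσ : σ ∈ S) (hd : σ.card + 2 ≤ d) (hirr : Irr S σ) (x : V) (hx : x ∈ lv S σ) :
    2 ≤ (nn S σ x).card := by
  have hx' := (mem_lv σ x).mp hx
  have h1 := lv_bound h σ hσ x hx'.1 hx'.2
  have h2 := lv_card h hE σ x hx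
  by_contra hcon
  have h3 : (nn S σ x).card = 1 := by omega
  obtain ⟨y, hy⟩ := Finset.card_eq_one.mp h3
  have hynn : y ∈ nn S σ x := by rw [hy]; exact Finset.mem_singleton_self y
  have hyl : y ∈ lv S σ ∧ ({y, x} : Finset V) ∉ S := by
    unfold nn at hynn
    exact Finset.mem_filter.mp hynn
  have hlne : (lv S (insert x σ)).Nonempty := by
    obtain ⟨u, hu, hu2⟩ := h.extend (insert x σ) hx'.2 (by
      rw [Finset.card_insert_of_notMem hx'.1]; omega)
    exact ⟨u, (mem_lv _ u).mpr ⟨hu, hu2⟩⟩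
  obtain ⟨a, ha, b, hb, hab⟩ := hirr (lv S (insert x σ)) (lv_insert_sub hE σ x) hlne (by
    intro h4
    rw [← h4] at hx
    exact ((mem_lv_insert h hE σ x x ((mem_lv σ x).mpr hx')).mp hx).2.1 rfl)
  rw [Finset.mem_sdiff, mem_lv_insert h hE σ x b hx] at hb
  rw [mem_lv_insert h hE σ x a hx] at ha
  have hbxy : b = x ∨ b = y := by
    by_cases hbx : b = x
    · exact Or.inl hbx
    · right
      have hbn : b ∈ nn S σ x := by
        unfold nn
        rw [Finset.mem_filter]
        refine ⟨hb.1, ?_⟩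
        intro h5
        apply hb.2
        refine ⟨hb.1, hbx, ?_⟩
        rw [Finset.pair_comm]; exact h5
      rw [hy, Finset.mem_singleton] at hbn
      exact hbn
  rcases hbxy with rfl | rfl
  · apply hab
    rw [Finset.pair_comm]
    exact ha.2.2
  · -- in the link of `a`, the vertex `x` has a non-neighbour
    have ha' := (mem_lv σ a).mp ha.1
    have hxa : x ∈ lv S (insert a σ) := by
      rw [mem_lv_insert h hE σ a x ha.1]
      refine ⟨hx, fun h5 => ha.2.1 h5.symm, ?_⟩
      rw [Finset.pair_comm]; exact ha.2.2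
    have h6 := lv_bound h (insert a σ) ha'.2 x ((mem_lv _ x).mp hxa).1 ((mem_lv _ x).mp hxa).2
    have h7 := lv_card h hE (insert a σ) x hxa
    have h8 : 0 < (nn S (insert a σ) x).card := by omega
    obtain ⟨c, hc⟩ := Finset.card_pos.mp h8
    unfold nn at hc
    rw [Finset.mem_filter, mem_lv_insert h hE σ a c ha.1] at hc
    have hcn : c ∈ nn S σ x := by
      unfold nn
      rw [Finset.mem_filter]
      exact ⟨hc.1.1, hc.2⟩
    rw [hy, Finset.mem_singleton] at hcn
    rw [hcn] at hc
    exact hab hc.1.2.2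

/-- An irreducible flag sphere of dimension `m - 1` has at least `3 m - 1` vertices. -/
theorem irr_bound {S : Finset (Finset V)} {d : ℕ} (h : HS k S d) (hE : Eul S d) :
    ∀ m : ℕ, ∀ σ ∈ S, σ.card + (m + 1) = d → Irr S σ → 3 * m + 2 ≤ (lv S σ).card := by
  intro m
  induction m with
  | zero =>
    intro σ hσ hm _
    have := lv_two_mul h 1 σ hσ (by omega)
    omega
  | succ m ih =>
    intro σ hσ hm hirr
    obtain ⟨x, hx, hx2⟩ := exists_irr h hE σ hσ (by omega) hirr
    have hx' := (mem_lv σ x).mp hx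
    have h1 := ih (insert x σ) hx'.2 (by rw [Finset.card_insert_of_notMem hx'.1]; omega) hx2
    have h2 := nn_two h hE σ hσ (by omega) hirr x hx
    have h3 := lv_card h hE σ x hx
    omega

end Pool.Agent.MP19e880
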