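import Pool.Agent.Lib.MP_19e880_co.Main

/-!
Joins, and the final induction.
-/

set_option autoImplicit false
set_option linter.unusedSectionVars false

namespace Pool.Agent.MP19e880

open Polynomial

variable {V : Type} [Fintype V] [LinearOrder V] {k : Type} [Field k]

namespace Cone

theorem smul {m : ℕ} {p : ℤ[X]} (hp : Cone m p) (a : ℤ) (ha : 0 ≤ a) : Cone m (C a * p) := by
  obtain ⟨c, hc, rfl⟩ := hp
  refine ⟨fun i => a * c i, fun i => mul_nonneg ha (hc i), ?_⟩
  rw [Finset.mul_sum]
  refine Finset.sum_congr rfl fun i _ => ?_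
  rw [C_mul]
  ring

theorem powX {m : ℕ} {p : ℤ[X]} (hp : Cone m p) (i : ℕ) : Cone (m + 2 * i) (X ^ i * p) := by
  induction i with
  | zero => simpa using hp
  | succ i ih =>
    have := ih.mulX
    rw [← mul_assoc, ← pow_succ'] at this
    exact this

theorem powS {m : ℕ} {p : ℤ[X]} (hp : Cone m p) (i : ℕ) : Cone (m + i) ((1 + X) ^ i * p) := by
  induction i with
  | zero => simpa using hp
  | succ i ih =>
    have := ih.mulS
    rw [← mul_assoc, ← pow_succ'] at this
    exact this

theorem mul {m m' : ℕ} {p q : ℤ[X]} (hp : Cone m p) (hq : Cone m' q) :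
    Cone (m + m') (p * q) := by
  obtain ⟨c, hc, rfl⟩ := hp
  rw [Finset.sum_mul]
  refine sum _ _ ?_
  intro i hi
  rw [Finset.mem_range] at hi
  have h1 := ((hq.powS (m - 2 * i)).powX i).smul (c i) (hc i)
  have h2 : m' + (m - 2 * i) + 2 * i = m + m' := by omega
  rw [h2] at h1
  have h3 : C (c i) * X ^ i * (1 + X) ^ (m - 2 * i) * q =
      C (c i) * (X ^ i * ((1 + X) ^ (m - 2 * i) * q)) := by ring
  rw [h3]
  exact h1

end Cone

/-- The link of `σ` is the join of the link of `τ` with another sphere. -/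
def JF (S : Finset (Finset V)) (d : ℕ) (σ τ : Finset V) : Prop :=
  σ ⊂ τ ∧ τ ∈ S ∧ τ.card < d ∧
    ∀ x y : V, x ∉ σ → insert x σ ∈ S → insert x τ ∉ S ∨ x ∈ τ → y ∉ τ → insert y τ ∈ S →
      ({x, y} : Finset V) ∈ S

theorem pair_mem {S : Finset (Finset V)} {d : ℕ} (hE : Eul S d) (F : Finset V) (hF : F ∈ S)
    (a b : V) (ha : a ∈ F) (hb : b ∈ F) : ({a, b} : Finset V) ∈ S := by
  refine hE.down F hF _ ?_
  intro y hy
  rw [Finset.mem_insert, Finset.mem_singleton] at hy
  rcases hy with rfl | rfl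
  · exact ha
  · exact hb

theorem H_join {S : Finset (Finset V)} {d : ℕ} (hE : Eul S d) (σ τ : Finset V)
    (hστ : σ ⊆ τ) (hτ : τ ∈ S)
    (hj : ∀ x y : V, x ∉ σ → insert x σ ∈ S → insert x τ ∉ S ∨ x ∈ τ → y ∉ τ → insert y τ ∈ S →
      ({x, y} : Finset V) ∈ S) (P1 : Finset V) (hP1 : Disjoint P1 τ) (hP2 : P1 ∪ τ ∈ S)
    (hP3 : P1.card + τ.card = d) : H S d σ = H S d τ * H S d (P1 ∪ σ) := by
  have hinsP : ∀ y ∈ P1, y ∉ τ ∧ insert y τ ∈ S := by
    intro y hy
    refine ⟨Finset.disjoint_left.mp hP1 hy, hE.down _ hP2 _ ?_⟩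
    exact Finset.insert_subset (Finset.mem_union_left _ hy) Finset.subset_union_right
  unfold H
  rw [Finset.sum_mul_sum, ← Finset.sum_product']
  symm
  -- membership in the second factor
  have hQ : ∀ Q ∈ S, P1 ∪ σ ⊆ Q → ∀ x ∈ Q, x ∉ P1 → x ∉ σ → insert x τ ∉ S ∨ x ∈ τ := by
    intro Q hQ1 hQ2 x hx hxP hxσ
    by_contra hcon
    rw [not_or, not_not] at hcon
    have h1 : insert x (P1 ∪ τ) ∈ S := by
      apply hE.flag
      intro a ha b hb
      rw [Finset.mem_insert] at ha hb
      have key : ∀ c ∈ P1 ∪ τ, ({x, c} : Finset V) ∈ S := by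
        intro c hc
        rw [Finset.mem_union] at hc
        rcases hc with hc | hc
        · exact pair_mem hE Q hQ1 x c hx (hQ2 (Finset.mem_union_left _ hc))
        · exact pair_mem hE _ hcon.1 x c (Finset.mem_insert_self _ _)
            (Finset.mem_insert_of_mem hc)
      rcases ha with rfl | ha <;> rcases hb with rfl | hb
      · exact pair_mem hE Q hQ1 _ _ hx hx
      · exact key _ hb
      · rw [Finset.pair_comm]; exact key _ ha
      · exact pair_mem hE _ hP2 a b ha hb
    have h2 := hE.le _ h1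
    have h3 : x ∉ P1 ∪ τ := by
      rw [Finset.mem_union, not_or]
      exact ⟨hxP, hcon.2⟩
    rw [Finset.card_insert_of_notMem h3, Finset.card_union_of_disjoint hP1] at h2
    omega
  refine Finset.sum_bij' (fun PQ _ => (PQ.1 \ τ) ∪ (PQ.2 \ P1))
    (fun F _ => (τ ∪ F.filter (fun x => insert x τ ∈ S ∧ x ∉ τ),
      P1 ∪ F.filter (fun x => ¬ (insert x τ ∈ S ∧ x ∉ τ)))) ?_ ?_ ?_ ?_ ?_
  · rintro ⟨P, Q⟩ hPQ
    rw [Finset.mem_product, Finset.mem_filter, Finset.mem_filter] at hPQ
    obtain ⟨⟨hPS, hP⟩, hQS, hQ'⟩ := hPQ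
    dsimp only at hPS hP hQS hQ' ⊢
    rw [Finset.mem_filter]
    constructor
    · apply hE.flag
      intro a ha b hb
      rw [Finset.mem_union, Finset.mem_sdiff, Finset.mem_sdiff] at ha hb
      have key : ∀ a b : V, a ∈ P → a ∉ τ → b ∈ Q → b ∉ P1 → ({a, b} : Finset V) ∈ S := by
        intro a b haP haτ hbQ hbP
        have haS : insert a τ ∈ S := hE.down P hPS _ (Finset.insert_subset haP hP)
        by_cases hbσ : b ∈ σ
        · exact pair_mem hE P hPS a b haP (hP (hστ hbσ))
        · have hbS : insert b σ ∈ S := hE.down Q hQS _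
            (Finset.insert_subset hbQ (Finset.subset_union_right.trans hQ'))
          rw [Finset.pair_comm]
          exact hj b a hbσ hbS (hQ Q hQS hQ' b hbQ hbP hbσ) haτ haS
      rcases ha with ha | ha <;> rcases hb with hb | hb
      · exact pair_mem hE P hPS a b ha.1 hb.1
      · exact key a b ha.1 ha.2 hb.1 hb.2
      · rw [Finset.pair_comm]; exact key b a hb.1 hb.2 ha.1 ha.2
      · exact pair_mem hE Q hQS a b ha.1 hb.1
    · intro x hx
      rw [Finset.mem_union, Finset.mem_sdiff, Finset.mem_sdiff]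
      right
      refine ⟨hQ' (Finset.mem_union_right _ hx), ?_⟩
      intro hxP
      exact Finset.disjoint_left.mp hP1 hxP (hστ hx)
  · intro F hF
    rw [Finset.mem_filter] at hF
    obtain ⟨hFS, hσF⟩ := hF
    rw [Finset.mem_product, Finset.mem_filter, Finset.mem_filter]
    dsimp only
    refine ⟨⟨?_, Finset.subset_union_left⟩, ?_, ?_⟩
    · apply hE.flag
      intro a ha b hb
      rw [Finset.mem_union, Finset.mem_filter] at ha hb
      rcases ha with ha | ha <;> rcases hb with hb | hb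
      · exact pair_mem hE τ hτ a b ha hb
      · exact pair_mem hE _ hb.2.1 a b (Finset.mem_insert_of_mem ha) (Finset.mem_insert_self _ _)
      · exact pair_mem hE _ ha.2.1 a b (Finset.mem_insert_self _ _) (Finset.mem_insert_of_mem hb)
      · exact pair_mem hE F hFS a b ha.1 hb.1
    · apply hE.flag
      intro a ha b hb
      rw [Finset.mem_union, Finset.mem_filter] at ha hb
      have key : ∀ a b : V, a ∈ P1 → b ∈ F → ¬ (insert b τ ∈ S ∧ b ∉ τ) →
          ({a, b} : Finset V) ∈ S := by
        intro a b haP hbF hb'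
        obtain ⟨h1, h2⟩ := hinsP a haP
        by_cases hbσ : b ∈ σ
        · exact pair_mem hE _ h2 a b (Finset.mem_insert_self _ _)
            (Finset.mem_insert_of_mem (hστ hbσ))
        · have hbS : insert b σ ∈ S := hE.down F hFS _ (Finset.insert_subset hbF hσF)
          rw [Finset.pair_comm]
          refine hj b a hbσ hbS ?_ h1 h2
          by_cases h3 : insert b τ ∈ S
          · right
            by_contra h4
            exact hb' ⟨h3, h4⟩
          · exact Or.inl h3
      rcases ha with ha | ha <;> rcases hb with hb | hb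
      · exact pair_mem hE _ hP2 a b (Finset.mem_union_left _ ha) (Finset.mem_union_left _ hb)
      · exact key a b ha hb.1 hb.2
      · rw [Finset.pair_comm]; exact key b a hb ha.1 ha.2
      · exact pair_mem hE F hFS a b ha.1 hb.1
    · refine Finset.union_subset_union_right ?_
      intro x hx
      rw [Finset.mem_filter]
      refine ⟨hσF hx, ?_⟩
      rintro ⟨_, h2⟩
      exact h2 (hστ hx)
  · rintro ⟨P, Q⟩ hPQ
    rw [Finset.mem_product, Finset.mem_filter, Finset.mem_filter] at hPQ
    obtain ⟨⟨hPS, hP⟩, hQS, hQ'⟩ := hPQ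
    dsimp only at hPS hP hQS hQ' ⊢
    have e1 : ∀ x ∈ P, x ∉ τ → insert x τ ∈ S := by
      intro x hx _
      exact hE.down P hPS _ (Finset.insert_subset hx hP)
    have e2 : ∀ x ∈ Q, x ∉ P1 → ¬ (insert x τ ∈ S ∧ x ∉ τ) := by
      intro x hx hxP
      rintro ⟨h1, h2⟩
      by_cases hxσ : x ∈ σ
      · exact h2 (hστ hxσ)
      · rcases hQ Q hQS hQ' x hx hxP hxσ with h3 | h3
        · exact h3 h1
        · exact h2 h3
    ext x
    · simp only [Finset.mem_union, Finset.mem_filter, Finset.mem_sdiff]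
      constructor
      · rintro (h1 | ⟨⟨h1, h2⟩ | ⟨h1, h2⟩, h3, h4⟩)
        · exact hP h1
        · exact h1
        · exact absurd ⟨h3, h4⟩ (e2 x h1 h2)
      · intro h1
        by_cases h2 : x ∈ τ
        · exact Or.inl h2
        · exact Or.inr ⟨Or.inl ⟨h1, h2⟩, e1 x h1 h2, h2⟩
    · simp only [Finset.mem_union, Finset.mem_filter, Finset.mem_sdiff]
      constructor
      · rintro (h1 | ⟨⟨h1, h2⟩ | ⟨h1, h2⟩, h3⟩)
        · exact hQ' (Finset.mem_union_left _ h1)
        · exact absurd ⟨e1 x h1 h2, h2⟩ h3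
        · exact h1
      · intro h1
        by_cases h2 : x ∈ P1
        · exact Or.inl h2
        · exact Or.inr ⟨Or.inr ⟨h1, h2⟩, e2 x h1 h2⟩
  · intro F hF
    rw [Finset.mem_filter] at hF
    obtain ⟨hFS, hσF⟩ := hF
    dsimp only
    ext x
    simp only [Finset.mem_union, Finset.mem_filter, Finset.mem_sdiff]
    constructor
    · rintro (⟨h1 | h1, h2⟩ | ⟨h1 | h1, h2⟩)
      · exact absurd h1 h2
      · exact h1.1
      · exact absurd h1 h2
      · exact h1.1
    · intro h1
      by_cases h2 : insert x τ ∈ S ∧ x ∉ τ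
      · exact Or.inl ⟨Or.inr ⟨h1, h2⟩, h2.2⟩
      · refine Or.inr ⟨Or.inr ⟨h1, h2⟩, ?_⟩
        intro h3
        obtain ⟨h4, h5⟩ := hinsP x h3
        exact h2 ⟨h5, h4⟩
  · rintro ⟨P, Q⟩ hPQ
    rw [Finset.mem_product, Finset.mem_filter, Finset.mem_filter] at hPQ
    obtain ⟨⟨hPS, hP⟩, hQS, hQ'⟩ := hPQ
    dsimp only at hPS hP hQS hQ' ⊢
    rw [← pow_add]
    congr 1
    have hP1Q : P1 ⊆ Q := Finset.subset_union_left.trans hQ'
    have hdis : Disjoint (P \ τ) (Q \ P1) := by
      rw [Finset.disjoint_left]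
      intro x hx1 hx2
      rw [Finset.mem_sdiff] at hx1 hx2
      have h1 : insert x τ ∈ S := hE.down P hPS _ (Finset.insert_subset hx1.1 hP)
      by_cases hxσ : x ∈ σ
      · exact hx1.2 (hστ hxσ)
      · rcases hQ Q hQS hQ' x hx2.1 hx2.2 hxσ with h3 | h3
        · exact h3 h1
        · exact hx1.2 h3
    rw [Finset.card_union_of_disjoint hdis, Finset.card_sdiff_of_subset hP,
      Finset.card_sdiff_of_subset hP1Q]
    have h1 := hE.le P hPS
    have h2 := hE.le Q hQS
    have h3 := Finset.card_le_card hP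
    have h4 := Finset.card_le_card hP1Q
    omega

/-- Facets of links exist. -/
theorem exists_facet {S : Finset (Finset V)} {d : ℕ} (h : HS k S d) (τ : Finset V)
    (hτ : τ ∈ S) : ∃ P : Finset V, Disjoint P τ ∧ P ∪ τ ∈ S ∧ P.card + τ.card = d := by
  have key : ∀ m : ℕ, ∀ τ ∈ S, τ.card + m = d →
      ∃ P : Finset V, Disjoint P τ ∧ P ∪ τ ∈ S ∧ P.card + τ.card = d := by
    intro m
    induction m with
    | zero =>
      intro τ hτ hm
      exact ⟨∅, Finset.disjoint_empty_left _, by rw [Finset.empty_union]; exact hτ, by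
        rw [Finset.card_empty]; omega⟩
    | succ m ih =>
      intro τ hτ hm
      obtain ⟨v, hv, hv2⟩ := h.extend τ hτ (by omega)
      obtain ⟨P, hP1, hP2, hP3⟩ := ih (insert v τ) hv2
        (by rw [Finset.card_insert_of_notMem hv]; omega)
      rw [Finset.disjoint_insert_right] at hP1
      refine ⟨insert v P, ?_, ?_, ?_⟩
      · rw [Finset.disjoint_insert_left]
        exact ⟨hv, hP1.2⟩
      · rw [Finset.union_insert] at hP2
        rw [Finset.insert_union]
        exact hP2
      · rw [Finset.card_insert_of_notMem hv] at hP3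
        rw [Finset.card_insert_of_notMem hP1.1]
        omega
  have := h.card_le τ hτ
  exact key (d - τ.card) τ hτ (by omega)

/-- Good pairs, with joins. -/
inductive Gj (S : Finset (Finset V)) (d : ℕ) : Finset V → V → Prop
  | low (σ : Finset V) (v : V) (h : d ≤ σ.card + 4) : Gj S d σ v
  | step (σ : Finset V) (v : V) (h4 : ∀ ρ ∈ Kf S σ v, ρ.card ≠ 4)
      (h3 : ∀ t ∈ Kf S σ v, t.card = 3 → ∀ x ∈ t, Gj S d (t.erase x ∪ σ) x) : Gj S d σ v
  | join (σ τ : Finset V) (v : V) (hj : JF S d σ τ) (hv : v ∉ τ) (hv2 : insert v τ ∈ S)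
      (hg : Gj S d τ v) : Gj S d σ v

/-- The statement to be proved by induction on the dimension parameter `m`. -/
def QQ (S : Finset (Finset V)) (d m : ℕ) : Prop :=
  (∀ σ ∈ S, σ.card + m = d → Cone m (H S d σ)) ∧
  (∀ σ ∈ S, σ.card + m = d → ∀ v, v ∉ σ → insert v σ ∈ S → Gj S d σ v →
    Cone m (H S d σ - (1 + X) * H S d (insert v σ)))

theorem QQ_low {S : Finset (Finset V)} {d : ℕ} (h : HS k S d) (hE : Eul S d)
    (hnum : ∀ σ ∈ S, σ.card + 4 = d → 5 * fn S σ 1 ≤ fn S σ 2 + 16) : ∀ m ≤ 4, QQ S d m := by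
  intro m hm
  have hP : PP S d m := by
    rcases Nat.lt_or_ge m 4 with hm' | hm'
    · exact PP_low h hE m (by omega)
    · have : m = 4 := by omega
      rw [this]
      exact PP_four h hE hnum
  refine ⟨hP.1, ?_⟩
  intro σ hσ hd v hv hv2 _
  exact hP.2 σ hσ hd v hv hv2 (Gd.low σ v (by omega))

theorem G_join {S : Finset (Finset V)} {d : ℕ} (h : HS k S d) (hE : Eul S d) (m : ℕ)
    (ih : ∀ m' < m, QQ S d m') (σ τ : Finset V) (hm : σ.card + m = d)
    (hj : JF S d σ τ) : Cone m (H S d σ) := by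
  obtain ⟨h1, h2, h3, h4⟩ := hj
  obtain ⟨P, hP1, hP2, hP3⟩ := exists_facet h τ h2
  have hlt := Finset.card_lt_card h1
  rw [H_join hE σ τ h1.1 h2 h4 P hP1 hP2 hP3]
  have hdis : Disjoint P σ := Finset.disjoint_of_subset_right h1.1 hP1
  have c1 := (ih (d - τ.card) (by omega)).1 τ h2 (by omega)
  have c2 := (ih (d - (P ∪ σ).card) (by
    rw [Finset.card_union_of_disjoint hdis]; omega)).1 (P ∪ σ)
    (hE.down _ hP2 _ (Finset.union_subset_union_right h1.1)) (by
    rw [Finset.card_union_of_disjoint hdis]; omega)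
  have c3 := c1.mul c2
  rw [Finset.card_union_of_disjoint hdis] at c3
  have : d - τ.card + (d - (P.card + σ.card)) = m := by omega
  rwa [this] at c3

theorem M_join {S : Finset (Finset V)} {d : ℕ} (h : HS k S d) (hE : Eul S d) (m : ℕ)
    (ih : ∀ m' < m, QQ S d m') (σ τ : Finset V) (hm : σ.card + m = d)
    (hj : JF S d σ τ) (v : V) (hv : v ∉ τ) (hv2 : insert v τ ∈ S)
    (hg : Gj S d τ v) : Cone m (H S d σ - (1 + X) * H S d (insert v σ)) := by
  obtain ⟨h1, h2, h3, h4⟩ := hj
  obtain ⟨P, hP1, hP2, hP3⟩ := exists_facet h (insert v τ) hv2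
  have hlt := Finset.card_lt_card h1
  have hvσ : v ∉ σ := fun h' => hv (h1.1 h')
  rw [Finset.disjoint_insert_right] at hP1
  rw [Finset.card_insert_of_notMem hv] at hP3
  have e1 : insert v P ∪ τ = P ∪ insert v τ := by
    rw [Finset.insert_union, Finset.union_insert]
  have e2 : insert v P ∪ σ = P ∪ insert v σ := by
    rw [Finset.insert_union, Finset.union_insert]
  have H1 := H_join hE σ τ h1.1 h2 h4 (insert v P) (by
    rw [Finset.disjoint_insert_left]; exact ⟨hv, hP1.2⟩) (by rw [e1]; exact hP2) (by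
    rw [Finset.card_insert_of_notMem hP1.1]; omega)
  have H2 := H_join hE (insert v σ) (insert v τ) (Finset.insert_subset_insert v h1.1) hv2 (by
    intro x y hx hx2 hx3 hy hy2
    rw [Finset.mem_insert, not_or] at hx hy
    have hyτ : insert y τ ∈ S := hE.down _ hy2 _
      (Finset.insert_subset_insert _ (Finset.subset_insert _ _))
    have hxσ : insert x σ ∈ S := hE.down _ hx2 _
      (Finset.insert_subset_insert _ (Finset.subset_insert _ _))
    refine h4 x y hx.2 hxσ ?_ hy.2 hyτ
    rcases hx3 with hx3 | hx3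
    · by_cases hxτ : x ∈ τ
      · exact Or.inr hxτ
      · left
        intro hx4
        apply hx3
        have hxv : ({x, v} : Finset V) ∈ S := pair_mem hE _ hx2 x v
          (Finset.mem_insert_self _ _) (Finset.mem_insert_of_mem (Finset.mem_insert_self _ _))
        rw [Finset.insert_comm]
        exact h.flag_insert τ v x hv2 hx4 hxv
    · rw [Finset.mem_insert] at hx3
      rcases hx3 with rfl | hx3
      · exact absurd rfl hx.1
      · exact Or.inr hx3) P (by
    rw [Finset.disjoint_insert_right]; exact hP1) hP2 (by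
    rw [Finset.card_insert_of_notMem hv]; omega)
  have heq : H S d σ - (1 + X) * H S d (insert v σ) =
      (H S d τ - (1 + X) * H S d (insert v τ)) * H S d (P ∪ insert v σ) := by
    rw [H1, H2, e2]
    ring
  rw [heq]
  have hdis : Disjoint P (insert v σ) := by
    rw [Finset.disjoint_insert_right]
    exact ⟨hP1.1, Finset.disjoint_of_subset_right h1.1 hP1.2⟩
  have hcard : (P ∪ insert v σ).card = P.card + (σ.card + 1) := by
    rw [Finset.card_union_of_disjoint hdis, Finset.card_insert_of_notMem hvσ]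
  have c1 := (ih (d - τ.card) (by omega)).2 τ h2 (by omega) v hv hv2 hg
  have c2 := (ih (d - (P ∪ insert v σ).card) (by
    rw [hcard]; omega)).1 (P ∪ insert v σ)
    (hE.down _ hP2 _ (Finset.union_subset_union_right (Finset.insert_subset_insert v h1.1))) (by
    rw [hcard]; omega)
  have c3 := c1.mul c2
  rw [hcard] at c3
  have : d - τ.card + (d - (P.card + (σ.card + 1))) = m := by omega
  rwa [this] at c3

theorem stepj {S : Finset (Finset V)} {d : ℕ} (h : HS k S d) (hE : Eul S d) (m : ℕ)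
    (h0 : QQ S d m) (σ : Finset V) (hm : σ.card + (m + 2) = d)
    (v : V) (hv : v ∉ σ) (hv2 : insert v σ ∈ S)
    (h4 : ∀ ρ ∈ Kf S σ v, ρ.card ≠ 4)
    (h3 : ∀ t ∈ Kf S σ v, t.card = 3 → ∀ x ∈ t, Gj S d (t.erase x ∪ σ) x) :
    Cone (m + 2) (H S d σ - (1 + X) * H S d (insert v σ)) := by
  refine step h hE σ v hv hv2 m h4 ?_ ?_
  · intro e he hc
    have h1 := hE.card_union σ v hv2 e he
    refine h0.1 (e ∪ σ) ?_ (by omega)
    unfold Kf at he
    rw [Finset.mem_filter] at he
    exact he.2.2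
  · intro t ht hc x hx
    have h1 := hE.card_union σ v hv2 t ht
    have hgd := h3 t ht hc x hx
    have htL := (mem_Kf_iff hE σ v hv2 t).mp ht
    have hxσ : x ∉ σ := Finset.disjoint_left.mp htL.1 hx
    have hnot : x ∉ t.erase x ∪ σ := by
      rw [Finset.mem_union, not_or]
      exact ⟨Finset.notMem_erase _ _, hxσ⟩
    have hins : insert x (t.erase x ∪ σ) = t ∪ σ := by
      rw [← Finset.insert_union, Finset.insert_erase hx]
    have h2 : (t.erase x ∪ σ).card + m = d := by
      have := Finset.card_insert_of_notMem hnot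
      rw [hins] at this
      omega
    have h5 := h0.2 (t.erase x ∪ σ) (h.down _ htL.2.1 _
      (Finset.union_subset_union_left (Finset.erase_subset _ _))) h2 x hnot
      (by rw [hins]; exact htL.2.1) hgd
    rwa [hins] at h5

theorem QQ_all {S : Finset (Finset V)} {d : ℕ} (h : HS k S d) (hE : Eul S d)
    (hnum : ∀ σ ∈ S, σ.card + 4 = d → 5 * fn S σ 1 ≤ fn S σ 2 + 16)
    (hex : ∀ σ ∈ S, σ.card + 6 ≤ d → (∃ τ, JF S d σ τ) ∨
      ∃ v, v ∉ σ ∧ insert v σ ∈ S ∧ Gj S d σ v) :
    ∀ m, QQ S d m := by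
  intro m
  induction m using Nat.strong_induction_on with
  | _ m ih =>
    rcases Nat.lt_or_ge m 5 with hm | hm
    · exact QQ_low h hE hnum m (by omega)
    · have hM : ∀ σ ∈ S, σ.card + m = d → ∀ v, v ∉ σ → insert v σ ∈ S → Gj S d σ v →
          Cone m (H S d σ - (1 + X) * H S d (insert v σ)) := by
        intro σ hσ hd v hv hv2 hgd
        cases hgd with
        | low _ _ hh => omega
        | step _ _ h4 h3 =>
          obtain ⟨m', rfl⟩ := Nat.exists_eq_add_of_le' (show 2 ≤ m by omega)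
          exact stepj h hE m' (ih m' (by omega)) σ hd v hv hv2 h4 h3
        | join _ τ _ hj hvτ hvτ2 hg => exact M_join h hE m ih σ τ hd hj v hvτ hvτ2 hg
      refine ⟨?_, hM⟩
      intro σ hσ hd
      rcases Nat.lt_or_ge m 6 with hm6 | hm6
      · have hm5 : m = 5 := by omega
        subst hm5
        exact (PP_five h hE hnum).1 σ hσ hd
      · rcases hex σ hσ (by omega) with ⟨τ, hτ⟩ | ⟨v, hv, hv2, hgd⟩
        · exact G_join h hE m ih σ τ hd hτ
        · have h1 := hM σ hσ hd v hv hv2 hgd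
          obtain ⟨m', rfl⟩ := Nat.exists_eq_add_of_le' (show 1 ≤ m by omega)
          have h2 := (ih m' (by omega)).1 (insert v σ) hv2
            (by rw [Finset.card_insert_of_notMem hv]; omega)
          have h3 := h1.add h2.mulS
          rwa [sub_add_cancel] at h3

end Pool.Agent.MP19e880
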