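import Pool.Agent.Lib.MP_19e880_co.Irr
import Pool.Agent.Lib.MP_19e880_co.FourGraph

/-!
Flag 3-spheres with a vertex that has at most five non-neighbours.
-/

set_option autoImplicit false
set_option linter.unusedSectionVars false

namespace Pool.Agent.MP19e880

open Polynomial

variable {V : Type} [Fintype V] [LinearOrder V] {k : Type} [Field k]

theorem H_neg_two {S : Finset (Finset V)} {d : ℕ} (hE : Eul S d) (τ : Finset V) (hτ : τ ∈ S)
    (hd : τ.card + 2 = d) : eval (-1) (H S d τ) = 4 - (fn S τ 1 : ℤ) := by
  have h1 := hE.ev τ hτ 2 hd 0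
  have hf0 := fn_zero S τ hτ
  simp only [Finset.sum_range_succ, Finset.sum_range_zero, hf0] at h1
  norm_num at h1
  rw [hE.H_sum τ 2 hd]
  simp only [Finset.sum_range_succ, Finset.sum_range_zero, hf0]
  simp only [eval_add, eval_mul, eval_C, eval_pow, eval_sub, eval_X, eval_one, eval_zero]
  norm_num
  linarith

theorem H_neg_four {S : Finset (Finset V)} {d : ℕ} (hE : Eul S d) (σ : Finset V) (hσ : σ ∈ S)
    (hd : σ.card + 4 = d) : eval (-1) (H S d σ) = (fn S σ 2 : ℤ) - 5 * fn S σ 1 + 16 := by
  rw [hE.four σ hσ hd]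
  simp only [eval_add, eval_mul, eval_C, eval_pow, eval_X, eval_one]
  norm_num

theorem gamma_formula {S : Finset (Finset V)} {d : ℕ} (hE : Eul S d) (σ : Finset V) (hσ : σ ∈ S)
    (hd : σ.card + 4 = d) (x : V) (hx : x ∉ σ) (hx2 : insert x σ ∈ S) :
    (fn S σ 2 : ℤ) - 5 * fn S σ 1 + 16 =
      ∑ e ∈ (Kf S σ x).filter (fun ρ => ρ.card = 2), ((fn S (e ∪ σ) 1 : ℤ) - 4) -
        ((Kf S σ x).filter (fun ρ => ρ.card = 4)).card := by
  have hab := congrArg (eval (-1)) (hE.formula_ab σ x hx hx2)
  have hle : ∀ ρ ∈ Kf S σ x, ρ.card ∈ Finset.range 5 := by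
    intro ρ hρ
    have h1 := hE.card_union σ x hx2 ρ hρ
    unfold Kf at hρ
    rw [Finset.mem_filter] at hρ
    have h2 := hE.le _ hρ.2.2
    rw [Finset.mem_range]
    omega
  rw [← Finset.sum_fiberwise_of_maps_to hle] at hab
  simp only [eval_mul, eval_sub, eval_one, eval_pow, eval_X, eval_finsetSum, eval_neg] at hab
  rw [Finset.sum_range_succ, Finset.sum_range_succ, Finset.sum_range_succ,
    Finset.sum_range_succ, Finset.sum_range_succ, Finset.sum_range_zero] at hab
  have e0 : (Kf S σ x).filter (fun ρ => ρ.card = 0) = {∅} := by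
    ext ρ
    rw [Finset.mem_filter, Finset.mem_singleton, Finset.card_eq_zero]
    constructor
    · rintro ⟨_, h'⟩
      exact h'
    · rintro rfl
      refine ⟨?_, rfl⟩
      unfold Kf
      rw [Finset.mem_filter]
      exact ⟨hE.down _ hσ _ (Finset.empty_subset _), Finset.disjoint_empty_left _, by
        rw [Finset.empty_union]; exact hσ⟩
  have s0 : ∑ ρ ∈ (Kf S σ x).filter (fun ρ => ρ.card = 0),
      (-1 : ℤ) ^ ρ.card * (((-1) ^ ρ.card - -1) * eval (-1) (H S d (ρ ∪ σ))) =
      2 * ((fn S σ 2 : ℤ) - 5 * fn S σ 1 + 16) := by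
    rw [e0, Finset.sum_singleton, Finset.empty_union, Finset.card_empty, H_neg_four hE σ hσ hd]
    norm_num
  have s1 : ∑ ρ ∈ (Kf S σ x).filter (fun ρ => ρ.card = 1),
      (-1 : ℤ) ^ ρ.card * (((-1) ^ ρ.card - -1) * eval (-1) (H S d (ρ ∪ σ))) = 0 := by
    refine Finset.sum_eq_zero fun ρ hρ => ?_
    rw [Finset.mem_filter] at hρ
    rw [hρ.2]
    norm_num
  have s2 : ∑ ρ ∈ (Kf S σ x).filter (fun ρ => ρ.card = 2),
      (-1 : ℤ) ^ ρ.card * (((-1) ^ ρ.card - -1) * eval (-1) (H S d (ρ ∪ σ))) =
      - (2 * ∑ e ∈ (Kf S σ x).filter (fun ρ => ρ.card = 2), ((fn S (e ∪ σ) 1 : ℤ) - 4)) := by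
    rw [Finset.mul_sum, ← Finset.sum_neg_distrib]
    refine Finset.sum_congr rfl fun ρ hρ => ?_
    rw [Finset.mem_filter] at hρ
    have h1 := hE.card_union σ x hx2 ρ hρ.1
    have h2 : ρ ∪ σ ∈ S := by
      have := hρ.1
      unfold Kf at this
      rw [Finset.mem_filter] at this
      exact this.2.2
    rw [hρ.2, H_neg_two hE (ρ ∪ σ) h2 (by omega)]
    ring
  have s3 : ∑ ρ ∈ (Kf S σ x).filter (fun ρ => ρ.card = 3),
      (-1 : ℤ) ^ ρ.card * (((-1) ^ ρ.card - -1) * eval (-1) (H S d (ρ ∪ σ))) = 0 := by
    refine Finset.sum_eq_zero fun ρ hρ => ?_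
    rw [Finset.mem_filter] at hρ
    rw [hρ.2]
    norm_num
  have s4 : ∑ ρ ∈ (Kf S σ x).filter (fun ρ => ρ.card = 4),
      (-1 : ℤ) ^ ρ.card * (((-1) ^ ρ.card - -1) * eval (-1) (H S d (ρ ∪ σ))) =
      2 * ((Kf S σ x).filter (fun ρ => ρ.card = 4)).card := by
    have h3 : ∀ ρ ∈ (Kf S σ x).filter (fun ρ => ρ.card = 4),
        (-1 : ℤ) ^ ρ.card * (((-1) ^ ρ.card - -1) * eval (-1) (H S d (ρ ∪ σ))) = 2 := by
      intro ρ hρ
      rw [Finset.mem_filter] at hρ
      have h1 := hE.card_union σ x hx2 ρ hρ.1
      have h2 : ρ ∪ σ ∈ S := by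
        have := hρ.1
        unfold Kf at this
        rw [Finset.mem_filter] at this
        exact this.2.2
      rw [hρ.2, H_facet hE (ρ ∪ σ) h2 (by omega)]
      norm_num
    rw [Finset.sum_congr rfl h3, Finset.sum_const, nsmul_eq_mul, mul_comm]
  rw [s0, s1, s2, s3, s4] at hab
  have h0 : (1 - (-1 : ℤ) ^ 2) = 0 := by norm_num
  rw [h0, zero_mul] at hab
  linarith

/-- Vertices of links, by adjacency. -/
theorem mem_lv_union {S : Finset (Finset V)} {d : ℕ} (hE : Eul S d) (σ F : Finset V)
    (hσ : σ ∈ S) (hF : F ⊆ lv S σ) (hFS : F ∪ σ ∈ S) (y : V) :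
    y ∈ lv S (F ∪ σ) ↔ y ∈ lv S σ ∧ y ∉ F ∧ ∀ a ∈ F, ({y, a} : Finset V) ∈ S := by
  constructor
  · intro hy
    rw [mem_lv, Finset.mem_union, not_or] at hy
    refine ⟨?_, hy.1.1, ?_⟩
    · rw [mem_lv]
      exact ⟨hy.1.2, hE.down _ hy.2 _
        (Finset.insert_subset_insert _ Finset.subset_union_right)⟩
    · intro a ha
      exact pair_mem hE _ hy.2 y a (Finset.mem_insert_self _ _)
        (Finset.mem_insert_of_mem (Finset.mem_union_left _ ha))
  · rintro ⟨h1, h2, h3⟩
    have h1' := (mem_lv σ y).mp h1
    rw [mem_lv, Finset.mem_union, not_or]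
    refine ⟨⟨h2, h1'.1⟩, ?_⟩
    rw [← Finset.insert_union]
    refine lv_flag hE σ _ hσ (Finset.insert_subset h1 hF) ?_
    intro a ha b hb
    rw [Finset.mem_insert] at ha hb
    rcases ha with rfl | ha <;> rcases hb with rfl | hb
    · exact pair_mem hE _ h1'.2 _ _ (Finset.mem_insert_self _ _) (Finset.mem_insert_self _ _)
    · exact h3 b hb
    · rw [Finset.pair_comm]; exact h3 a ha
    · exact pair_mem hE _ hFS a b (Finset.mem_union_left _ ha) (Finset.mem_union_left _ hb)

/-- Adjacency in the link of `σ`. -/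
def Ad (S : Finset (Finset V)) (σ : Finset V) (a b : V) : Prop :=
  a ∈ lv S σ ∧ b ∈ lv S σ ∧ a ≠ b ∧ ({a, b} : Finset V) ∈ S

open Classical in
/-- Common neighbours in the link of `σ`. -/
noncomputable def cm (S : Finset (Finset V)) (σ : Finset V) (a b : V) : Finset V :=
  (lv S σ).filter (fun y => Ad S σ y a ∧ Ad S σ y b)

theorem mem_cm (S : Finset (Finset V)) (σ : Finset V) (a b y : V) :
    y ∈ cm S σ a b ↔ y ∈ lv S σ ∧ Ad S σ y a ∧ Ad S σ y b := by
  classical
  unfold cm
  rw [Finset.mem_filter]

theorem self_pair {S : Finset (Finset V)} {d : ℕ} (hE : Eul S d) (σ : Finset V) (a : V)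
    (ha : a ∈ lv S σ) : ({a, a} : Finset V) ∈ S :=
  pair_mem hE _ ((mem_lv σ a).mp ha).2 a a (Finset.mem_insert_self _ _)
    (Finset.mem_insert_self _ _)

theorem g4 {S : Finset (Finset V)} {d : ℕ} (h : HS k S d) (hE : Eul S d) (σ : Finset V)
    (hσ : σ ∈ S) (hd : σ.card + 4 = d) : G4 (Ad S σ) (cm S σ) := by
  refine ⟨?_, ?_, ?_, ?_, ?_⟩
  · rintro a b ⟨h1, h2, h3, h4⟩
    exact ⟨h2, h1, fun h' => h3 h'.symm, by rw [Finset.pair_comm]; exact h4⟩
  · rintro a ⟨_, _, h3, _⟩
    exact h3 rfl
  · intro a b c d' e hab hac had hae hbc hbd hbe hcd hce hde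
    have hsub : ({a, b, c, d', e} : Finset V) ⊆ lv S σ := by
      intro y hy
      simp only [Finset.mem_insert, Finset.mem_singleton] at hy
      rcases hy with rfl | rfl | rfl | rfl | rfl
      · exact hab.1
      · exact hbc.1
      · exact hcd.1
      · exact hde.1
      · exact hde.2.1
    have h1 : ({a, b, c, d', e} : Finset V) ∪ σ ∈ S := by
      refine lv_flag hE σ _ hσ hsub ?_
      intro u hu v hv
      simp only [Finset.mem_insert, Finset.mem_singleton] at hu hv
      have hs : ∀ p q : V, Ad S σ p q → ({q, p} : Finset V) ∈ S := by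
        intro p q hpq
        rw [Finset.pair_comm]
        exact hpq.2.2.2
      rcases hu with rfl | rfl | rfl | rfl | rfl <;> rcases hv with rfl | rfl | rfl | rfl | rfl <;>
        first
          | exact self_pair hE σ _ (hsub (by simp))
          | exact hab.2.2.2 | exact hac.2.2.2 | exact had.2.2.2 | exact hae.2.2.2
          | exact hbc.2.2.2 | exact hbd.2.2.2 | exact hbe.2.2.2 | exact hcd.2.2.2
          | exact hce.2.2.2 | exact hde.2.2.2
          | exact hs _ _ hab | exact hs _ _ hac | exact hs _ _ had | exact hs _ _ hae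
          | exact hs _ _ hbc | exact hs _ _ hbd | exact hs _ _ hbe | exact hs _ _ hcd
          | exact hs _ _ hce | exact hs _ _ hde
    have h2 := hE.le _ h1
    have h3 : Disjoint ({a, b, c, d', e} : Finset V) σ := by
      rw [Finset.disjoint_left]
      intro y hy
      exact ((mem_lv σ y).mp (hsub hy)).1
    rw [Finset.card_union_of_disjoint h3] at h2
    have h4 : ({a, b, c, d', e} : Finset V).card = 5 := by
      rw [Finset.card_insert_of_notMem, Finset.card_insert_of_notMem,
        Finset.card_insert_of_notMem, Finset.card_insert_of_notMem, Finset.card_singleton]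
      · simpa using hde.2.2.1
      · simp only [Finset.mem_insert, Finset.mem_singleton, not_or]
        exact ⟨hcd.2.2.1, hce.2.2.1⟩
      · simp only [Finset.mem_insert, Finset.mem_singleton, not_or]
        exact ⟨hbc.2.2.1, hbd.2.2.1, hbe.2.2.1⟩
      · simp only [Finset.mem_insert, Finset.mem_singleton, not_or]
        exact ⟨hab.2.2.1, hac.2.2.1, had.2.2.1, hae.2.2.1⟩
    omega
  · intro a b c hab hac hbc
    have hsub : ({a, b, c} : Finset V) ⊆ lv S σ := by
      intro y hy
      simp only [Finset.mem_insert, Finset.mem_singleton] at hy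
      rcases hy with rfl | rfl | rfl
      · exact hab.1
      · exact hbc.1
      · exact hbc.2.1
    have h1 : ({a, b, c} : Finset V) ∪ σ ∈ S := by
      refine lv_flag hE σ _ hσ hsub ?_
      intro u hu v hv
      simp only [Finset.mem_insert, Finset.mem_singleton] at hu hv
      have hs : ∀ p q : V, Ad S σ p q → ({q, p} : Finset V) ∈ S := by
        intro p q hpq
        rw [Finset.pair_comm]
        exact hpq.2.2.2
      rcases hu with rfl | rfl | rfl <;> rcases hv with rfl | rfl | rfl <;>
        first
          | exact self_pair hE σ _ (hsub (by simp))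
          | exact hab.2.2.2 | exact hac.2.2.2 | exact hbc.2.2.2
          | exact hs _ _ hab | exact hs _ _ hac | exact hs _ _ hbc
    have h3 : Disjoint ({a, b, c} : Finset V) σ := by
      rw [Finset.disjoint_left]
      intro y hy
      exact ((mem_lv σ y).mp (hsub hy)).1
    have h4 : ({a, b, c} : Finset V).card = 3 := by
      rw [Finset.card_insert_of_notMem, Finset.card_insert_of_notMem, Finset.card_singleton]
      · simpa using hbc.2.2.1
      · simp only [Finset.mem_insert, Finset.mem_singleton, not_or]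
        exact ⟨hab.2.2.1, hac.2.2.1⟩
    have h5 := HS.two (S := S) (d := d) hE (({a, b, c} : Finset V) ∪ σ) h1 (by
      rw [Finset.card_union_of_disjoint h3, h4]; omega)
    obtain ⟨p, q, hpq, hlv⟩ := Finset.card_eq_two.mp h5
    refine ⟨p, q, hpq, ?_⟩
    intro y
    have h6 : (y = p ∨ y = q) ↔ y ∈ lv S (({a, b, c} : Finset V) ∪ σ) := by
      rw [hlv]
      simp
    rw [h6, mem_lv_union hE σ _ hσ hsub h1]
    constructor
    · rintro ⟨ha, hb, hc⟩
      refine ⟨ha.1, ?_, ?_⟩
      · simp only [Finset.mem_insert, Finset.mem_singleton, not_or]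
        exact ⟨ha.2.2.1, hb.2.2.1, hc.2.2.1⟩
      · intro u hu
        simp only [Finset.mem_insert, Finset.mem_singleton] at hu
        rcases hu with rfl | rfl | rfl
        · exact ha.2.2.2
        · exact hb.2.2.2
        · exact hc.2.2.2
    · rintro ⟨hy, hyn, hya⟩
      simp only [Finset.mem_insert, Finset.mem_singleton, not_or] at hyn
      exact ⟨⟨hy, hab.1, hyn.1, hya a (by simp)⟩, ⟨hy, hbc.1, hyn.2.1, hya b (by simp)⟩,
        ⟨hy, hbc.2.1, hyn.2.2, hya c (by simp)⟩⟩
  · intro a b y
    rw [mem_cm]
    constructor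
    · rintro ⟨_, h2⟩
      exact h2
    · intro h2
      exact ⟨h2.1.1, h2⟩

theorem cm_card {S : Finset (Finset V)} {d : ℕ} (hE : Eul S d) (σ : Finset V)
    (hσ : σ ∈ S) (a b : V) (hab : Ad S σ a b) :
    (cm S σ a b).card = fn S (({a, b} : Finset V) ∪ σ) 1 := by
  rw [fn_one S hE.down]
  congr 1
  have hsub : ({a, b} : Finset V) ⊆ lv S σ := by
    intro y hy
    simp only [Finset.mem_insert, Finset.mem_singleton] at hy
    rcases hy with rfl | rfl
    · exact hab.1
    · exact hab.2.1
  have h1 : ({a, b} : Finset V) ∪ σ ∈ S := by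
    refine lv_flag hE σ _ hσ hsub ?_
    intro u hu v hv
    simp only [Finset.mem_insert, Finset.mem_singleton] at hu hv
    rcases hu with rfl | rfl <;> rcases hv with rfl | rfl
    · exact self_pair hE σ _ hab.1
    · exact hab.2.2.2
    · rw [Finset.pair_comm]; exact hab.2.2.2
    · exact self_pair hE σ _ hab.2.1
  ext y
  rw [mem_lv_union hE σ _ hσ hsub h1, mem_cm]
  constructor
  · rintro ⟨h2, h3, h4⟩
    refine ⟨h2, ?_, ?_⟩
    · simp only [Finset.mem_insert, Finset.mem_singleton, not_or]
      exact ⟨h3.2.2.1, h4.2.2.1⟩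
    · intro u hu
      simp only [Finset.mem_insert, Finset.mem_singleton] at hu
      rcases hu with rfl | rfl
      · exact h3.2.2.2
      · exact h4.2.2.2
  · rintro ⟨h2, h3, h4⟩
    simp only [Finset.mem_insert, Finset.mem_singleton, not_or] at h3
    exact ⟨h2, ⟨h2, hab.1, h3.1, h4 a (by simp)⟩, ⟨h2, hab.2.1, h3.2, h4 b (by simp)⟩⟩

theorem card_four {q : Finset V} (hq : q.card = 4) :
    ∃ a b c d : V, a ≠ b ∧ a ≠ c ∧ a ≠ d ∧ b ≠ c ∧ b ≠ d ∧ c ≠ d ∧ q = {a, b, c, d} := by
  obtain ⟨a, t, ha, rfl, ht⟩ := Finset.card_eq_succ.mp hq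
  obtain ⟨b, c, d, hbc, hbd, hcd, rfl⟩ := Finset.card_eq_three.mp ht
  simp only [Finset.mem_insert, Finset.mem_singleton, not_or] at ha
  exact ⟨a, b, c, d, ha.1, ha.2.1, ha.2.2, hbc, hbd, hcd, rfl⟩

/-- The inequality of Davis and Okun for flag 3-spheres with a vertex having at most five
non-neighbours. -/
theorem num_of_five {S : Finset (Finset V)} {d : ℕ} (h : HS k S d) (hE : Eul S d)
    (σ : Finset V) (hσ : σ ∈ S) (hd : σ.card + 4 = d) (x : V) (hx : x ∈ lv S σ)
    (h5 : (nn S σ x).card ≤ 5) : 5 * fn S σ 1 ≤ fn S σ 2 + 16 := by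
  have hx' := (mem_lv σ x).mp hx
  have hform := gamma_formula hE σ hσ hd x hx'.1 hx'.2
  have hG := g4 h hE σ hσ hd
  set E2 := (Kf S σ x).filter (fun ρ => ρ.card = 2) with hE2
  set Q := (Kf S σ x).filter (fun ρ => ρ.card = 4) with hQ
  have hLA : ∀ y z, Ad S σ y z → y ∈ lv S σ := fun y z hyz => hyz.1
  have hKA : ∀ y, y ∈ nn S σ x ↔ y ∈ lv S σ ∧ y ≠ x ∧ ¬ Ad S σ y x := by
    intro y
    unfold nn
    rw [Finset.mem_filter]
    constructor
    · rintro ⟨h1, h2⟩
      refine ⟨h1, ?_, fun h3 => h2 h3.2.2.2⟩
      rintro rfl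
      exact h2 (self_pair hE σ _ h1)
    · rintro ⟨h1, h2, h3⟩
      exact ⟨h1, fun h4 => h3 ⟨h1, hx, h2, h4⟩⟩
  have hKf : ∀ ρ ∈ Kf S σ x, ρ ∪ σ ∈ S ∧ ρ ⊆ nn S σ x := by
    intro ρ hρ
    rw [mem_Kf_iff hE σ x hx'.2] at hρ
    refine ⟨hρ.2.1, ?_⟩
    intro y hy
    unfold nn
    rw [Finset.mem_filter, mem_lv]
    refine ⟨⟨Finset.disjoint_left.mp hρ.1 hy, hE.down _ hρ.2.1 _
      (Finset.insert_subset (Finset.mem_union_left _ hy) Finset.subset_union_right)⟩, ?_⟩
    intro h1
    refine Finset.disjoint_left.mp hρ.2.2 hy ?_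
    unfold Nb
    rw [Finset.mem_filter]
    exact ⟨Finset.mem_univ _, h1⟩
  have hnnlv : nn S σ x ⊆ lv S σ := Finset.filter_subset _ _
  -- adjacency inside a member of `Kf`
  have hadq : ∀ ρ ∈ Kf S σ x, ∀ a ∈ ρ, ∀ b ∈ ρ, a ≠ b → Ad S σ a b := by
    intro ρ hρ a ha b hb hab
    obtain ⟨h1, h2⟩ := hKf ρ hρ
    exact ⟨hnnlv (h2 ha), hnnlv (h2 hb), hab,
      pair_mem hE _ h1 a b (Finset.mem_union_left _ ha) (Finset.mem_union_left _ hb)⟩
  -- subsets of members
  have hdown : ∀ ρ ∈ Kf S σ x, ∀ ρ' : Finset V, ρ' ⊆ ρ → ρ' ∈ Kf S σ x := by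
    intro ρ hρ ρ' hsub
    rw [mem_Kf_iff hE σ x hx'.2] at hρ ⊢
    exact ⟨Finset.disjoint_of_subset_left hsub hρ.1,
      hE.down _ hρ.2.1 _ (Finset.union_subset_union_left hsub),
      Finset.disjoint_of_subset_left hsub hρ.2.2⟩
  have hge : ∀ e ∈ E2, 4 ≤ fn S (e ∪ σ) 1 := by
    intro e he
    rw [hE2, Finset.mem_filter] at he
    rw [fn_one S hE.down]
    refine lv_two_mul h 2 (e ∪ σ) (hKf e he.1).1 ?_
    rw [hE.card_union σ x hx'.2 e he.1]
    omega
  have hsum : ∑ e ∈ E2, ((fn S (e ∪ σ) 1 : ℤ) - 4) =
      ((∑ e ∈ E2, (fn S (e ∪ σ) 1 - 4) : ℕ) : ℤ) := by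
    push_cast
    refine Finset.sum_congr rfl fun e he => ?_
    have := hge e he
    omega
  rw [hsum] at hform
  -- it remains to bound the number of tetrahedra
  have hmain : Q.card ≤ ∑ e ∈ E2, (fn S (e ∪ σ) 1 - 4) := by
    -- every tetrahedron has an edge of degree at least five
    have hexc : ∀ q ∈ Q, ∃ e ∈ E2, e ⊆ q ∧ 5 ≤ fn S (e ∪ σ) 1 := by
      intro q hq
      rw [hQ, Finset.mem_filter] at hq
      obtain ⟨a, b, c, d', hab, hac, had, hbc, hbd, hcd, rfl⟩ := card_four hq.2
      by_contra hcon
      push Not at hcon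
      have hmem : ∀ u ∈ ({a, b, c, d'} : Finset V), u ∈ nn S σ x := fun u hu =>
        (hKf _ hq.1).2 hu
      have hfour : ∀ u v : V, u ∈ ({a, b, c, d'} : Finset V) → v ∈ ({a, b, c, d'} : Finset V) →
          u ≠ v → (cm S σ u v).card = 4 := by
        intro u v hu hv huv
        have hsub : ({u, v} : Finset V) ⊆ {a, b, c, d'} :=
          Finset.insert_subset hu (Finset.singleton_subset_iff.mpr hv)
        have he : ({u, v} : Finset V) ∈ E2 := by
          rw [hE2, Finset.mem_filter]
          exact ⟨hdown _ hq.1 _ hsub, Finset.card_pair huv⟩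
        rw [cm_card hE σ hσ u v (hadq _ hq.1 u hu v hv huv)]
        have h1 := hge _ he
        have h2 := hcon _ he hsub
        omega
      have hA : ∀ u v : V, u ∈ ({a, b, c, d'} : Finset V) → v ∈ ({a, b, c, d'} : Finset V) →
          u ≠ v → Ad S σ u v := fun u v hu hv huv => hadq _ hq.1 u hu v hv huv
      exact hG.claim_one (lv S σ) (nn S σ x) x hLA hKA h5 a b c d'
        (hmem a (by simp)) (hmem b (by simp)) (hmem c (by simp)) (hmem d' (by simp))
        (hA a b (by simp) (by simp) hab) (hA a c (by simp) (by simp) hac)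
        (hA a d' (by simp) (by simp) had) (hA b c (by simp) (by simp) hbc)
        (hA b d' (by simp) (by simp) hbd) (hA c d' (by simp) (by simp) hcd)
        (hfour a b (by simp) (by simp) hab) (hfour a c (by simp) (by simp) hac)
        (hfour a d' (by simp) (by simp) had) (hfour b c (by simp) (by simp) hbc)
        (hfour b d' (by simp) (by simp) hbd) (hfour c d' (by simp) (by simp) hcd)
    rcases Nat.lt_or_ge Q.card 1 with hQ0 | hQ1
    · omega
    · obtain ⟨q, hq⟩ := Finset.card_pos.mp (show 0 < Q.card by omega)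
      obtain ⟨e1, he1, he1q, he15⟩ := hexc q hq
      have hs1 : fn S (e1 ∪ σ) 1 - 4 ≤ ∑ e ∈ E2, (fn S (e ∪ σ) 1 - 4) :=
        Finset.single_le_sum (f := fun e => fn S (e ∪ σ) 1 - 4) (fun _ _ => Nat.zero_le _) he1
      rcases Nat.lt_or_ge Q.card 2 with hQ2 | hQ2
      · omega
      · -- at most two tetrahedra
        have hq' := hq
        rw [hQ, Finset.mem_filter] at hq'
        have hQle : Q.card ≤ 2 := by
          by_contra hcon
          rw [not_le] at hcon
          have hKface : nn S σ x ∪ σ ∈ S := by
            refine lv_flag hE σ _ hσ hnnlv ?_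
            intro u hu v hv
            by_cases huv : u = v
            · subst huv
              exact self_pair hE σ u (hnnlv hu)
            · -- some tetrahedron contains both
              have hq3 : ∃ p ∈ Q, u ∈ p ∧ v ∈ p := by
                by_contra hno
                push Not at hno
                have himg : ∀ p ∈ Q, p ∈ ({(nn S σ x).erase u, (nn S σ x).erase v} :
                    Finset (Finset V)) := by
                  intro p hp
                  have hp' := hp
                  rw [hQ, Finset.mem_filter] at hp'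
                  have hpn := (hKf p hp'.1).2
                  rw [Finset.mem_insert, Finset.mem_singleton]
                  by_cases hup : u ∈ p
                  · right
                    have hvp := hno p hp hup
                    refine Finset.eq_of_subset_of_card_le ?_ ?_
                    · intro y hy
                      rw [Finset.mem_erase]
                      refine ⟨?_, hpn hy⟩
                      rintro rfl
                      exact hvp hy
                    · rw [Finset.card_erase_of_mem hv]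
                      omega
                  · left
                    refine Finset.eq_of_subset_of_card_le ?_ ?_
                    · intro y hy
                      rw [Finset.mem_erase]
                      refine ⟨?_, hpn hy⟩
                      rintro rfl
                      exact hup hy
                    · rw [Finset.card_erase_of_mem hu]
                      omega
                have h1 := Finset.card_le_card (show Q ⊆ _ from himg)
                have h2 := Finset.card_le_two (a := (nn S σ x).erase u)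
                  (b := (nn S σ x).erase v)
                omega
              obtain ⟨p, hp, hup, hvp⟩ := hq3
              rw [hQ, Finset.mem_filter] at hp
              exact (hadq p hp.1 u hup v hvp huv).2.2.2
          have h1 := hE.le _ hKface
          have h2 : Disjoint (nn S σ x) σ := by
            rw [Finset.disjoint_left]
            intro y hy
            exact ((mem_lv σ y).mp (hnnlv hy)).1
          rw [Finset.card_union_of_disjoint h2] at h1
          -- then there is only one tetrahedron
          have h3 : Q ⊆ {nn S σ x} := by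
            intro p hp
            rw [hQ, Finset.mem_filter] at hp
            rw [Finset.mem_singleton]
            exact Finset.eq_of_subset_of_card_le (hKf p hp.1).2 (by omega)
          have h4 := Finset.card_le_card h3
          rw [Finset.card_singleton] at h4
          omega
        by_contra hcon
        rw [not_le] at hcon
        have hQc : Q.card = 2 := by omega
        -- another tetrahedron
        obtain ⟨q2, hq2, hq2ne⟩ : ∃ q2 ∈ Q, q2 ≠ q := by
          by_contra hno
          push Not at hno
          have : Q ⊆ {q} := fun p hp => Finset.mem_singleton.mpr (hno p hp)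
          have := Finset.card_le_card this
          rw [Finset.card_singleton] at this
          omega
        have hq2' := hq2
        rw [hQ, Finset.mem_filter] at hq2'
        obtain ⟨e2, he2, he2q, he25⟩ := hexc q2 hq2
        have he12 : e1 = e2 := by
          by_contra hne
          have h1 : ∑ e ∈ ({e1, e2} : Finset (Finset V)), (fn S (e ∪ σ) 1 - 4) ≤
              ∑ e ∈ E2, (fn S (e ∪ σ) 1 - 4) := by
            refine Finset.sum_le_sum_of_subset ?_
            intro e he
            rw [Finset.mem_insert, Finset.mem_singleton] at he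
            rcases he with rfl | rfl
            · exact he1
            · exact he2
          rw [Finset.sum_pair hne] at h1
          omega
        subst he12
        -- other edges have degree four
        have hother : ∀ e ∈ E2, e ≠ e1 → fn S (e ∪ σ) 1 = 4 := by
          intro e he hne
          have h1 : ∑ e ∈ ({e1, e} : Finset (Finset V)), (fn S (e ∪ σ) 1 - 4) ≤
              ∑ e ∈ E2, (fn S (e ∪ σ) 1 - 4) := by
            refine Finset.sum_le_sum_of_subset ?_
            intro e' he'
            rw [Finset.mem_insert, Finset.mem_singleton] at he'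
            rcases he' with rfl | rfl
            · exact he1
            · exact he
          rw [Finset.sum_pair (fun h' => hne h'.symm)] at h1
          have := hge e he
          omega
        have hq4 := hq'.2
        have hq24 := hq2'.2
        have hinter : (q ∩ q2).card = 3 := by
          have h1 := Finset.card_union_add_card_inter q q2
          have h2 : (q ∪ q2).card ≤ 5 := (Finset.card_le_card (Finset.union_subset
            (hKf q hq'.1).2 (hKf q2 hq2'.1).2)).trans h5
          have h3 : (q ∩ q2).card ≠ 4 := by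
            intro h4
            have h6 : q ∩ q2 = q := Finset.eq_of_subset_of_card_le Finset.inter_subset_left
              (by omega)
            have h7 : q ∩ q2 = q2 := Finset.eq_of_subset_of_card_le Finset.inter_subset_right
              (by omega)
            exact hq2ne (h7.symm.trans h6)
          have h4 : (q ∩ q2).card ≤ q.card := Finset.card_le_card Finset.inter_subset_left
          omega
        have he1i : e1 ⊆ q ∩ q2 := Finset.subset_inter he1q he2q
        have he1c : e1.card = 2 := by
          rw [hE2, Finset.mem_filter] at he1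
          exact he1.2
        obtain ⟨a, b, hab, rfl⟩ := Finset.card_eq_two.mp he1c
        have hc1 : ((q ∩ q2) \ {a, b}).card = 1 := by
          rw [Finset.card_sdiff_of_subset he1i]
          omega
        obtain ⟨c, hc⟩ := Finset.card_eq_one.mp hc1
        have hcm : c ∈ (q ∩ q2) \ {a, b} := by rw [hc]; exact Finset.mem_singleton_self c
        have hd1 : (q \ q2).card = 1 := by
          have := Finset.card_inter_add_card_sdiff q q2
          omega
        obtain ⟨d', hd'⟩ := Finset.card_eq_one.mp hd1
        have hdm : d' ∈ q \ q2 := by rw [hd']; exact Finset.mem_singleton_self d'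
        have hf1 : (q2 \ q).card = 1 := by
          have := Finset.card_inter_add_card_sdiff q2 q
          rw [Finset.inter_comm] at this
          omega
        obtain ⟨f, hf⟩ := Finset.card_eq_one.mp hf1
        have hfm : f ∈ q2 \ q := by rw [hf]; exact Finset.mem_singleton_self f
        rw [Finset.mem_sdiff] at hcm hdm hfm
        rw [Finset.mem_inter, Finset.mem_insert, Finset.mem_singleton, not_or] at hcm
        have haq := Finset.mem_inter.mp (he1i (Finset.mem_insert_self a {b}))
        have hbq := Finset.mem_inter.mp (he1i (Finset.mem_insert_of_mem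
          (Finset.mem_singleton_self b)))
        have hda : a ≠ d' := by
          rintro rfl
          exact hdm.2 haq.2
        have hdb : b ≠ d' := by
          rintro rfl
          exact hdm.2 hbq.2
        have hdc : c ≠ d' := by
          rintro rfl
          exact hdm.2 hcm.1.2
        have hfa : a ≠ f := by
          rintro rfl
          exact hfm.2 haq.1
        have hfb : b ≠ f := by
          rintro rfl
          exact hfm.2 hbq.1
        have hfc : c ≠ f := by
          rintro rfl
          exact hfm.2 hcm.1.1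
        have hdf : d' ≠ f := by
          rintro rfl
          exact hdm.2 hfm.1
        have hac : a ≠ c := fun h' => hcm.2.1 h'.symm
        have hbc : b ≠ c := fun h' => hcm.2.2 h'.symm
        have hfour : ∀ (p : Finset V), p ∈ Kf S σ x → ∀ u v : V, u ∈ p → v ∈ p →
            u ≠ v → ({u, v} : Finset V) ≠ {a, b} → (cm S σ u v).card = 4 := by
          intro p hp u v hu hv huv hne
          have hsub : ({u, v} : Finset V) ⊆ p :=
            Finset.insert_subset hu (Finset.singleton_subset_iff.mpr hv)
          have he : ({u, v} : Finset V) ∈ E2 := by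
            rw [hE2, Finset.mem_filter]
            exact ⟨hdown _ hp _ hsub, Finset.card_pair huv⟩
          rw [cm_card hE σ hσ u v (hadq _ hp u hu v hv huv)]
          exact hother _ he hne
        have hne2 : ∀ u v : V, v ≠ a → v ≠ b → ({u, v} : Finset V) ≠ {a, b} := by
          intro u v h1 h2 h3
          have : v ∈ ({a, b} : Finset V) := by
            rw [← h3]
            exact Finset.mem_insert_of_mem (Finset.mem_singleton_self v)
          rw [Finset.mem_insert, Finset.mem_singleton] at this
          rcases this with h4 | h4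
          · exact h1 h4
          · exact h2 h4
        have hmemq : ∀ u ∈ q, u ∈ nn S σ x := fun u hu => (hKf _ hq'.1).2 hu
        have hmemq2 : ∀ u ∈ q2, u ∈ nn S σ x := fun u hu => (hKf _ hq2'.1).2 hu
        refine hG.claim_two (lv S σ) (nn S σ x) x hLA hKA h5 a b c d' f
          (hmemq a haq.1) (hmemq b hbq.1) (hmemq c hcm.1.1) (hmemq d' hdm.1) (hmemq2 f hfm.1)
          (hadq q hq'.1 a haq.1 b hbq.1 hab) (hadq q hq'.1 a haq.1 c hcm.1.1 hac)
          (hadq q hq'.1 a haq.1 d' hdm.1 hda) (hadq q hq'.1 b hbq.1 c hcm.1.1 hbc)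
          (hadq q hq'.1 b hbq.1 d' hdm.1 hdb) (hadq q hq'.1 c hcm.1.1 d' hdm.1 hdc)
          (hadq q2 hq2'.1 a haq.2 f hfm.1 hfa) (hadq q2 hq2'.1 b hbq.2 f hfm.1 hfb)
          (hadq q2 hq2'.1 c hcm.1.2 f hfm.1 hfc) hdf
          ?_
          (hfour q hq'.1 a c haq.1 hcm.1.1 hac (hne2 a c (fun h' => hac h'.symm)
            (fun h' => hbc h'.symm)))
          (hfour q hq'.1 a d' haq.1 hdm.1 hda (hne2 a d' (fun h' => hda h'.symm)
            (fun h' => hdb h'.symm)))
          (hfour q hq'.1 b c hbq.1 hcm.1.1 hbc (hne2 b c (fun h' => hac h'.symm)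
            (fun h' => hbc h'.symm)))
          (hfour q hq'.1 b d' hbq.1 hdm.1 hdb (hne2 b d' (fun h' => hda h'.symm)
            (fun h' => hdb h'.symm)))
          (hfour q hq'.1 c d' hcm.1.1 hdm.1 hdc (hne2 c d' (fun h' => hda h'.symm)
            (fun h' => hdb h'.symm)))
          (hfour q2 hq2'.1 a f haq.2 hfm.1 hfa (hne2 a f (fun h' => hfa h'.symm)
            (fun h' => hfb h'.symm)))
          (hfour q2 hq2'.1 b f hbq.2 hfm.1 hfb (hne2 b f (fun h' => hfa h'.symm)
            (fun h' => hfb h'.symm)))
        rw [cm_card hE σ hσ a b (hadq q hq'.1 a haq.1 b hbq.1 hab)]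
        omega
  have : (Q.card : ℤ) ≤ ((∑ e ∈ E2, (fn S (e ∪ σ) 1 - 4) : ℕ) : ℤ) := by
    exact_mod_cast hmain
  omega

end Pool.Agent.MP19e880
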