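import Mathlib

/-!
Families of finite vertex sets behaving like the vertex sets of the links of a flag sphere:
non-neighbours, separators.
-/

set_option autoImplicit false
set_option linter.unusedSectionVars false

namespace Pool.Agent.MP19e880.Low

variable {V : Type} [DecidableEq V]

open Classical in
/-- The neighbours of `x` in `C`. -/
noncomputable def nb (A : V → V → Prop) (C : Finset V) (x : V) : Finset V :=
  C.filter (fun y => A x y)

open Classical in
/-- The vertices of `C` different from `x` and not adjacent to `x`. -/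
noncomputable def na (A : V → V → Prop) (C : Finset V) (x : V) : Finset V :=
  C.filter (fun y => y ≠ x ∧ ¬ A x y)

theorem mem_nb {A : V → V → Prop} {C : Finset V} {x y : V} : y ∈ nb A C x ↔ y ∈ C ∧ A x y := by
  classical
  unfold nb
  rw [Finset.mem_filter]

theorem mem_na {A : V → V → Prop} {C : Finset V} {x y : V} :
    y ∈ na A C x ↔ y ∈ C ∧ y ≠ x ∧ ¬ A x y := by
  classical
  unfold na
  rw [Finset.mem_filter]

/-- `C` is connected. -/
def Cn (A : V → V → Prop) (C : Finset V) : Prop :=
  ∀ X : Finset V, X ⊆ C → X.Nonempty → X ≠ C → ∃ a ∈ X, ∃ b ∈ C, b ∉ X ∧ A a b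

/-- `C` is connected in the complement. -/
def Ci (A : V → V → Prop) (C : Finset V) : Prop :=
  ∀ X : Finset V, X ⊆ C → X.Nonempty → X ≠ C → ∃ a ∈ X, ∃ b ∈ C, b ∉ X ∧ ¬ A a b

/-- `X` is complete to the rest of `C`. -/
def Cp (A : V → V → Prop) (C X : Finset V) : Prop :=
  ∀ a ∈ X, ∀ b ∈ C, b ∉ X → A a b

/-- Families behaving like the vertex sets of links. -/
structure Fam (A : V → V → Prop) (F : ℕ → Finset V → Prop) : Prop where
  symm : ∀ x y, A x y → A y x
  irr : ∀ x, ¬ A x x
  zero : ∀ C, F 0 C ↔ C = ∅
  one : ∀ C, F 1 C → ∃ a b, a ≠ b ∧ ¬ A a b ∧ C = {a, b}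
  link : ∀ m C x, F (m + 1) C → x ∈ C → F m (nb A C x)
  ne : ∀ m C, F (m + 1) C → C.Nonempty
  conn : ∀ m C, F (m + 2) C → Cn A C
  mconn : ∀ m C x, F (m + 1) C → x ∈ C → Cn A (na A C x)
  join : ∀ m C X, F m C → X ⊆ C → X.Nonempty → X ≠ C → Cp A C X →
    ∃ m1 m2, m1 + m2 = m ∧ F m1 X ∧ F m2 (C \ X)
  bound : ∀ m C, F (m + 1) C → Ci A C → 3 * m + 2 ≤ C.card

namespace Fam

variable {A : V → V → Prop} {F : ℕ → Finset V → Prop}

theorem neAdj (h : Fam A F) {x y : V} (hxy : A x y) : x ≠ y := by
  rintro rfl
  exact h.irr _ hxy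

theorem card_one (h : Fam A F) (C : Finset V) (hC : F 1 C) : C.card = 2 := by
  obtain ⟨a, b, hab, _, rfl⟩ := h.one C hC
  exact Finset.card_pair hab

theorem na_nonempty (h : Fam A F) : ∀ (m : ℕ) (C : Finset V) (x : V), F (m + 1) C → x ∈ C →
    (na A C x).Nonempty := by
  intro m
  induction m with
  | zero =>
    intro C x hC hx
    obtain ⟨a, b, hab, hA, rfl⟩ := h.one C hC
    rw [Finset.mem_insert, Finset.mem_singleton] at hx
    rcases hx with rfl | rfl
    · exact ⟨b, mem_na.mpr ⟨by simp, hab.symm, hA⟩⟩
    · exact ⟨a, mem_na.mpr ⟨by simp, hab, fun h' => hA (h.symm _ _ h')⟩⟩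
  | succ m ih =>
    intro C x hC hx
    obtain ⟨y, hy⟩ := h.ne m _ (h.link (m + 1) C x hC hx)
    rw [mem_nb] at hy
    obtain ⟨z, hz⟩ := ih (nb A C y) x (h.link (m + 1) C y hC hy.1)
      (mem_nb.mpr ⟨hx, h.symm _ _ hy.2⟩)
    rw [mem_na, mem_nb] at hz
    exact ⟨z, mem_na.mpr ⟨hz.1.1, hz.2⟩⟩

theorem card_eq (h : Fam A F) (C : Finset V) (x : V) (hx : x ∈ C) :
    C.card = (nb A C x).card + (na A C x).card + 1 := by
  have h1 : C = insert x (nb A C x ∪ na A C x) := by
    ext y
    rw [Finset.mem_insert, Finset.mem_union, mem_nb, mem_na]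
    constructor
    · intro hy
      by_cases h2 : y = x
      · exact Or.inl h2
      · by_cases h3 : A x y
        · exact Or.inr (Or.inl ⟨hy, h3⟩)
        · exact Or.inr (Or.inr ⟨hy, h2, h3⟩)
    · rintro (rfl | h2 | h2)
      · exact hx
      · exact h2.1
      · exact h2.1
  have h2 : x ∉ nb A C x ∪ na A C x := by
    rw [Finset.mem_union, mem_nb, mem_na, not_or]
    exact ⟨fun h3 => h.irr x h3.2, fun h3 => h3.2.1 rfl⟩
  have h3 : Disjoint (nb A C x) (na A C x) := by
    rw [Finset.disjoint_left]
    intro y hy hy2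
    rw [mem_nb] at hy
    rw [mem_na] at hy2
    exact hy2.2.2 hy.2
  conv_lhs => rw [h1]
  rw [Finset.card_insert_of_notMem h2, Finset.card_union_of_disjoint h3]

theorem two_mul (h : Fam A F) : ∀ (m : ℕ) (C : Finset V), F m C → 2 * m ≤ C.card := by
  intro m
  induction m with
  | zero => intro C _; omega
  | succ m ih =>
    intro C hC
    obtain ⟨x, hx⟩ := h.ne m C hC
    have h1 := ih _ (h.link m C x hC hx)
    have h2 := Finset.card_pos.mpr (h.na_nonempty m C x hC hx)
    have h3 := h.card_eq C x hx
    omega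

/-- Separators are large. -/
theorem sep (h : Fam A F) : ∀ (m : ℕ) (C P Q : Finset V), F m C → P ⊆ C → Q ⊆ C → P.Nonempty →
    Q.Nonempty → Disjoint P Q → (∀ p ∈ P, ∀ q ∈ Q, ¬ A p q) →
      2 * m ≤ ((C \ P) \ Q).card + 2 := by
  intro m
  induction m with
  | zero => intro C P Q _ _ _ _ _ _ _; omega
  | succ m ih =>
    rcases m with _ | m
    · intro C P Q _ _ _ _ _ _ _; omega
    intro C P Q hC
    generalize hN : ((C \ P) \ Q).card = N
    induction N using Nat.strong_induction_on generalizing P Q with
    | _ N ih2 =>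
      intro hP hQ hPn hQn hPQ hno
      have hS : ∀ y, y ∈ (C \ P) \ Q ↔ y ∈ C ∧ y ∉ P ∧ y ∉ Q := by
        intro y
        rw [Finset.mem_sdiff, Finset.mem_sdiff, and_assoc]
      by_cases hs : ∃ s ∈ (C \ P) \ Q, (∀ p ∈ P, ¬ A s p) ∨ (∀ q ∈ Q, ¬ A s q)
      · obtain ⟨s, hs, hs2⟩ := hs
        have hs' := (hS s).mp hs
        have hpos : 0 < ((C \ P) \ Q).card := Finset.card_pos.mpr ⟨s, hs⟩
        rcases hs2 with hs2 | hs2
        · have e1 : (C \ P) \ (insert s Q) = ((C \ P) \ Q).erase s := by
            ext y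
            simp only [Finset.mem_sdiff, Finset.mem_insert, Finset.mem_erase, not_or]
            tauto
          have h1 : ((C \ P) \ (insert s Q)).card = N - 1 := by
            rw [e1, Finset.card_erase_of_mem hs, hN]
          have h2 := ih2 (N - 1) (by omega) P (insert s Q) h1 hP
            (Finset.insert_subset hs'.1 hQ) hPn (Finset.insert_nonempty _ _) (by
              rw [Finset.disjoint_insert_right]; exact ⟨hs'.2.1, hPQ⟩) (by
              intro p hp q hq
              rw [Finset.mem_insert] at hq
              rcases hq with rfl | hq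
              · exact fun h' => hs2 p hp (h.symm _ _ h')
              · exact hno p hp q hq)
          omega
        · have e1 : (C \ (insert s P)) \ Q = ((C \ P) \ Q).erase s := by
            ext y
            simp only [Finset.mem_sdiff, Finset.mem_insert, Finset.mem_erase, not_or]
            tauto
          have h1 : ((C \ (insert s P)) \ Q).card = N - 1 := by
            rw [e1, Finset.card_erase_of_mem hs, hN]
          have h2 := ih2 (N - 1) (by omega) (insert s P) Q h1
            (Finset.insert_subset hs'.1 hP) hQ (Finset.insert_nonempty _ _) hQn (by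
              rw [Finset.disjoint_insert_left]; exact ⟨hs'.2.2, hPQ⟩) (by
              intro p hp q hq
              rw [Finset.mem_insert] at hp
              rcases hp with rfl | hp
              · exact hs2 q hq
              · exact hno p hp q hq)
          omega
      · push Not at hs
        obtain ⟨q0, hq0⟩ := hQn
        obtain ⟨p0, hp0⟩ := hPn
        obtain ⟨a, ha, s, hsC, hsP, has⟩ := h.conn m C hC P hP ⟨p0, hp0⟩ (by
          rintro rfl
          exact Finset.disjoint_left.mp hPQ (hQ hq0) hq0)
        have hsQ : s ∉ Q := fun h' => hno a ha s h' has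
        have hs0 : s ∈ (C \ P) \ Q := (hS s).mpr ⟨hsC, hsP, hsQ⟩
        obtain ⟨⟨p, hp, hsp⟩, ⟨q, hq, hsq⟩⟩ := hs s hs0
        -- the separator in the link of `s`
        have h1 := ih (nb A C s) (nb A P s) (nb A Q s) (h.link (m + 1) C s hC hsC)
          (by intro y hy; rw [mem_nb] at hy ⊢; exact ⟨hP hy.1, hy.2⟩)
          (by intro y hy; rw [mem_nb] at hy ⊢; exact ⟨hQ hy.1, hy.2⟩)
          ⟨p, mem_nb.mpr ⟨hp, hsp⟩⟩ ⟨q, mem_nb.mpr ⟨hq, hsq⟩⟩
          (by
            rw [Finset.disjoint_left]
            intro y hy hy2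
            rw [mem_nb] at hy hy2
            exact Finset.disjoint_left.mp hPQ hy.1 hy2.1)
          (by
            intro p hp q hq
            rw [mem_nb] at hp hq
            exact hno p hp.1 q hq.1)
        -- a member of the separator not adjacent to `s`
        have ht : ∃ t ∈ (C \ P) \ Q, t ≠ s ∧ ¬ A s t := by
          by_contra hcon
          push Not at hcon
          have hM : ∀ y ∈ na A C s, y ∈ P ∨ y ∈ Q := by
            intro y hy
            rw [mem_na] at hy
            by_contra hy2
            rw [not_or] at hy2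
            exact hy.2.2 (hcon y ((hS y).mpr ⟨hy.1, hy2.1, hy2.2⟩) hy.2.1)
          have key : ∀ p : V, p ∈ C → A s p → ∃ z ∈ na A C s, A p z := by
            intro p hp hsp
            obtain ⟨z, hz⟩ := h.na_nonempty m (nb A C p) s (h.link (m + 1) C p hC hp)
              (mem_nb.mpr ⟨hsC, h.symm _ _ hsp⟩)
            rw [mem_na, mem_nb] at hz
            exact ⟨z, mem_na.mpr ⟨hz.1.1, hz.2⟩, hz.1.2⟩
          obtain ⟨z, hz, hpz⟩ := key p (hP hp) hsp
          obtain ⟨z', hz', hqz'⟩ := key q (hQ hq) hsq
          have hzP : z ∈ P := by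
            rcases hM z hz with h' | h'
            · exact h'
            · exact absurd hpz (hno p hp z h')
          have hzQ : z' ∈ Q := by
            rcases hM z' hz' with h' | h'
            · exact absurd (h.symm _ _ hqz') (hno z' h' q hq)
            · exact h'
          obtain ⟨a, ha, b, hb, hbX, hab⟩ := h.mconn (m + 1) C s hC hsC (na A C s ∩ P)
            Finset.inter_subset_left ⟨z, Finset.mem_inter.mpr ⟨hz, hzP⟩⟩ (by
              intro h'
              rw [← h', Finset.mem_inter] at hz'
              exact Finset.disjoint_left.mp hPQ hz'.2 hzQ)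
          rw [Finset.mem_inter] at ha hbX
          rcases hM b hb with h' | h'
          · exact hbX ⟨hb, h'⟩
          · exact hno a ha.2 b h' hab
        obtain ⟨t, ht, hts, hnt⟩ := ht
        have hsub : insert s (insert t ((nb A C s \ nb A P s) \ nb A Q s)) ⊆ (C \ P) \ Q := by
          intro y hy
          rw [Finset.mem_insert, Finset.mem_insert, Finset.mem_sdiff, Finset.mem_sdiff, mem_nb,
            mem_nb, mem_nb] at hy
          rcases hy with rfl | rfl | hy
          · exact hs0
          · exact ht
          · rw [hS]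
            exact ⟨hy.1.1.1, fun h' => hy.1.2 ⟨h', hy.1.1.2⟩, fun h' => hy.2 ⟨h', hy.1.1.2⟩⟩
        have hc := Finset.card_le_card hsub
        rw [Finset.card_insert_of_notMem, Finset.card_insert_of_notMem] at hc
        · omega
        · intro h'
          rw [Finset.mem_sdiff, Finset.mem_sdiff, mem_nb] at h'
          exact hnt h'.1.1.2
        · intro h'
          rw [Finset.mem_insert, Finset.mem_sdiff, Finset.mem_sdiff, mem_nb] at h'
          rcases h' with h' | h'
          · exact hts h'.symm
          · exact h.irr s h'.1.1.2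

/-- A member contained in a member of the same dimension is equal to it. -/
theorem sub_eq (h : Fam A F) : ∀ (m : ℕ) (K L : Finset V), F m K → F m L → L ⊆ K → L = K := by
  intro m
  induction m with
  | zero =>
    intro K L hK hL _
    rw [h.zero] at hK hL
    rw [hK, hL]
  | succ m ih =>
    rcases m with _ | m
    · intro K L hK hL hsub
      exact Finset.eq_of_subset_of_card_le hsub (by rw [h.card_one K hK, h.card_one L hL])
    · intro K L hK hL hsub
      by_contra hne
      obtain ⟨a, ha, b, hb, hbL, hab⟩ := h.conn m K hK L hsub (h.ne _ L hL) hne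
      have h1 := ih (nb A K a) (nb A L a) (h.link _ K a hK (hsub ha)) (h.link _ L a hL ha) (by
        intro y hy
        rw [mem_nb] at hy ⊢
        exact ⟨hsub hy.1, hy.2⟩)
      have h2 : b ∈ nb A L a := by
        rw [h1]
        exact mem_nb.mpr ⟨hb, hab⟩
      exact hbL (mem_nb.mp h2).1

end Fam

end Pool.Agent.MP19e880.Low
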