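import Pool.Agent.Lib.MP_19e880_co.LowA

/-!
The neighbours of a vertex having only one neighbour outside its star.
-/

set_option autoImplicit false
set_option linter.unusedSectionVars false
set_option linter.unusedVariables false

namespace Pool.Agent.MP19e880.Low

variable {V : Type} [DecidableEq V]

/-- The neighbours of `u` different from `v` and not adjacent to `v`. -/
noncomputable def zs (A : V → V → Prop) (C : Finset V) (v u : V) : Finset V := na A (nb A C u) v

open Classical in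
/-- The neighbours `u` of `v` with exactly one neighbour outside the star of `v`. -/
noncomputable def js (A : V → V → Prop) (C : Finset V) (v : V) : Finset V :=
  (nb A C v).filter (fun u => (zs A C v u).card = 1)

open Classical in
/-- The vertices of `C` having exactly one non-neighbour in `C`. -/
noncomputable def sus (A : V → V → Prop) (C : Finset V) : Finset V :=
  C.filter (fun u => (na A C u).card = 1)

theorem mem_zs {A : V → V → Prop} {C : Finset V} {v u y : V} :
    y ∈ zs A C v u ↔ y ∈ C ∧ A u y ∧ y ≠ v ∧ ¬ A v y := by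
  unfold zs
  rw [mem_na, mem_nb, and_assoc]

theorem mem_js {A : V → V → Prop} {C : Finset V} {v u : V} :
    u ∈ js A C v ↔ u ∈ C ∧ A v u ∧ (zs A C v u).card = 1 := by
  classical
  unfold js
  rw [Finset.mem_filter, mem_nb, and_assoc]

theorem mem_sus {A : V → V → Prop} {C : Finset V} {u : V} :
    u ∈ sus A C ↔ u ∈ C ∧ (na A C u).card = 1 := by
  classical
  unfold sus
  rw [Finset.mem_filter]

/-- No vertex has only one non-neighbour. -/
def Ns (A : V → V → Prop) (C : Finset V) : Prop := ∀ x ∈ C, 2 ≤ (na A C x).card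

namespace Fam

variable {A : V → V → Prop} {F : ℕ → Finset V → Prop}

theorem link2 (h : Fam A F) (m : ℕ) (C : Finset V) (hC : F (m + 2) C) (x y : V) (hx : x ∈ C)
    (hy : y ∈ C) (hxy : A x y) : F m (nb A (nb A C x) y) :=
  h.link m _ y (h.link (m + 1) C x hC hx) (mem_nb.mpr ⟨hy, hxy⟩)

theorem j_same (h : Fam A F) (m : ℕ) (C : Finset V) (hC : F (m + 3) C) (v u u' z z' : V)
    (hv : v ∈ C) (hu : u ∈ C) (hvu : A v u) (hu' : u' ∈ C) (hvu' : A v u') (huu : A u u')
    (hz : zs A C v u = {z}) (hz' : zs A C v u' = {z'}) : z = z' := by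
  obtain ⟨y, hy⟩ := h.na_nonempty m _ v (h.link2 (m + 1) C hC u u' hu hu' huu)
    (mem_nb.mpr ⟨mem_nb.mpr ⟨hv, h.symm _ _ hvu⟩, h.symm _ _ hvu'⟩)
  rw [mem_na, mem_nb, mem_nb] at hy
  have h1 : y ∈ zs A C v u := mem_zs.mpr ⟨hy.1.1.1, hy.1.1.2, hy.2⟩
  have h2 : y ∈ zs A C v u' := mem_zs.mpr ⟨hy.1.1.1, hy.1.2, hy.2⟩
  rw [hz, Finset.mem_singleton] at h1
  rw [hz', Finset.mem_singleton] at h2
  rw [← h1, h2]

theorem z_adj (h : Fam A F) (m : ℕ) (C : Finset V) (hC : F (m + 3) C) (v u w z : V)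
    (hv : v ∈ C) (hu : u ∈ C) (hvu : A v u) (hw : w ∈ C) (hvw : A v w) (huw : A u w)
    (hz : zs A C v u = {z}) : A w z := by
  obtain ⟨y, hy⟩ := h.na_nonempty m _ v (h.link2 (m + 1) C hC u w hu hw huw)
    (mem_nb.mpr ⟨mem_nb.mpr ⟨hv, h.symm _ _ hvu⟩, h.symm _ _ hvw⟩)
  rw [mem_na, mem_nb, mem_nb] at hy
  have h1 : y ∈ zs A C v u := mem_zs.mpr ⟨hy.1.1.1, hy.1.1.2, hy.2⟩
  rw [hz, Finset.mem_singleton] at h1
  rw [← h1]
  exact hy.1.2

theorem nondom (h : Fam A F) (m : ℕ) (C : Finset V) (hC : F (m + 3) C) (hns : Ns A C) (v z : V)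
    (hv : v ∈ C) (D : Finset V) (hD : D ⊆ nb A C v) (hDn : D.Nonempty)
    (hz : ∀ u ∈ D, zs A C v u = {z}) : ∃ w ∈ nb A C v, w ∉ D ∧ ∀ u ∈ D, ¬ A u w := by
  by_contra hcon
  push Not at hcon
  obtain ⟨u0, hu0⟩ := hDn
  have hz0 : z ∈ zs A C v u0 := by rw [hz u0 hu0]; exact Finset.mem_singleton_self z
  rw [mem_zs] at hz0
  have hL : nb A C v ⊆ nb A C z := by
    intro w hw
    rw [mem_nb]
    refine ⟨(mem_nb.mp hw).1, ?_⟩
    by_cases hwD : w ∈ D
    · have : z ∈ zs A C v w := by rw [hz w hwD]; exact Finset.mem_singleton_self z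
      rw [mem_zs] at this
      exact h.symm _ _ this.2.1
    · obtain ⟨u, hu, huw⟩ := hcon w hw hwD
      have hu' := mem_nb.mp (hD hu)
      exact h.symm _ _ (h.z_adj m C hC v u w z hv hu'.1 hu'.2 (mem_nb.mp hw).1 (mem_nb.mp hw).2
        huw (hz u hu))
  have heq := h.sub_eq (m + 2) _ _ (h.link _ C z hC hz0.1) (h.link _ C v hC hv) hL
  have hzM : z ∈ na A C v := mem_na.mpr ⟨hz0.1, hz0.2.2.1, hz0.2.2.2⟩
  obtain ⟨a, ha, b, hb, hbz, hab⟩ := h.mconn (m + 2) C v hC hv {z}
    (Finset.singleton_subset_iff.mpr hzM) (Finset.singleton_nonempty z) (by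
      intro h'
      have := hns v hv
      rw [← h', Finset.card_singleton] at this
      omega)
  rw [Finset.mem_singleton] at ha
  subst ha
  rw [mem_na] at hb
  have : b ∈ nb A C v := by
    rw [heq]
    exact mem_nb.mpr ⟨hb.1, hab⟩
  exact hb.2.2 (mem_nb.mp this).2

theorem js_z (h : Fam A F) (C : Finset V) (v u : V) (hu : u ∈ js A C v) :
    ∃ z, zs A C v u = {z} := Finset.card_eq_one.mp (mem_js.mp hu).2.2

theorem js_sub (h : Fam A F) (C : Finset V) (v : V) : js A C v ⊆ nb A C v := by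
  intro u hu
  rw [mem_js] at hu
  exact mem_nb.mpr ⟨hu.1, hu.2.1⟩

/-- The set `js` is not split by a join decomposition of the link. -/
theorem js_split (h : Fam A F) (m : ℕ) (C : Finset V) (hC : F (m + 3) C) (hns : Ns A C) (v : V)
    (hv : v ∈ C) (X : Finset V) (hX : X ⊆ nb A C v) (hc : Cp A (nb A C v) X) :
    js A C v ⊆ X ∨ Disjoint (js A C v) X := by
  by_contra hcon
  rw [not_or, Finset.not_subset, Finset.not_disjoint_iff] at hcon
  obtain ⟨⟨u2, hu2, hu2X⟩, ⟨u1, hu1, hu1X⟩⟩ := hcon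
  obtain ⟨z, hz⟩ := h.js_z C v u1 hu1
  have hs := h.js_sub C v
  have m1 := mem_js.mp hu1
  have m2 := mem_js.mp hu2
  have h12 : A u1 u2 := hc u1 hu1X u2 (hs hu2) hu2X
  have same : ∀ u u' : V, u ∈ js A C v → u' ∈ js A C v → A u u' → zs A C v u = {z} →
      zs A C v u' = {z} := by
    intro u u' hu hu' huu hzu
    obtain ⟨z', hz'⟩ := h.js_z C v u' hu'
    have a1 := mem_js.mp hu
    have a2 := mem_js.mp hu'
    rw [hz', h.j_same m C hC v u u' z z' hv a1.1 a1.2.1 a2.1 a2.2.1 huu hzu hz']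
  have hz2 := same u1 u2 hu1 hu2 h12 hz
  have hall : ∀ u ∈ js A C v, zs A C v u = {z} := by
    intro u hu
    by_cases huX : u ∈ X
    · exact same u2 u hu2 hu (h.symm _ _ (hc u huX u2 (hs hu2) hu2X)) hz2
    · exact same u1 u hu1 hu (hc u1 hu1X u (hs hu) huX) hz
  obtain ⟨w, hw, _, hw2⟩ := h.nondom m C hC hns v z hv (js A C v) hs ⟨u1, hu1⟩ hall
  by_cases hwX : w ∈ X
  · exact hw2 u2 hu2 (h.symm _ _ (hc w hwX u2 (hs hu2) hu2X))
  · exact hw2 u1 hu1 (hc u1 hu1X w hw hwX)

/-- The size of `js` and of its parts with a common outer neighbour. -/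
theorem js_card (h : Fam A F) (m m1 : ℕ) (C : Finset V) (hC : F (m + 3) C) (hns : Ns A C)
    (v : V) (hv : v ∈ C) (H : Finset V) (hH : H ⊆ nb A C v) (hc : Cp A (nb A C v) H)
    (hF : F m1 H) (hJ : js A C v ⊆ H) (D : Finset V) (z : V) (hDn : D.Nonempty)
    (hD : ∀ u, u ∈ D ↔ u ∈ js A C v ∧ zs A C v u = {z}) :
    (js A C v).card + 2 * m1 ≤ H.card + 2 ∧ D.card + 1 + 2 * m1 ≤ H.card + 2 := by
  classical
  have hDJ : D ⊆ js A C v := fun u hu => ((hD u).mp hu).1
  have hDH : D ⊆ H := hDJ.trans hJ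
  obtain ⟨w, hw, hwD, hwno⟩ := h.nondom m C hC hns v z hv D (hDH.trans hH) hDn
    (fun u hu => ((hD u).mp hu).2)
  have hwH : w ∈ H := by
    by_contra hwH
    obtain ⟨u, hu⟩ := hDn
    exact hwno u hu (hc u (hDH hu) w hw hwH)
  let Q : Finset V := H.filter (fun y => y ∉ D ∧ ∀ u ∈ D, ¬ A u y)
  have hQ : ∀ y, y ∈ Q ↔ y ∈ H ∧ y ∉ D ∧ ∀ u ∈ D, ¬ A u y := by
    intro y
    simp only [Q, Finset.mem_filter]
  have hwQ : w ∈ Q := (hQ w).mpr ⟨hwH, hwD, hwno⟩
  have hQH : Q ⊆ H := fun y hy => ((hQ y).mp hy).1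
  have hDQ : Disjoint D Q := by
    rw [Finset.disjoint_left]
    intro y hy hy2
    exact ((hQ y).mp hy2).2.1 hy
  have hsep := h.sep m1 H D Q hF hDH hQH hDn ⟨w, hwQ⟩ hDQ (by
    intro p hp q hq
    exact ((hQ q).mp hq).2.2 p hp)
  have hc1 : ((H \ D) \ Q).card + Q.card + D.card = H.card := by
    have h1 : (H \ D) \ Q = H \ (D ∪ Q) := by
      ext y
      simp only [Finset.mem_sdiff, Finset.mem_union, not_or]
      tauto
    rw [h1, Finset.card_sdiff_of_subset (Finset.union_subset hDH hQH),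
      Finset.card_union_of_disjoint hDQ]
    have := Finset.card_le_card (Finset.union_subset hDH hQH)
    rw [Finset.card_union_of_disjoint hDQ] at this
    omega
  have hQpos : 0 < Q.card := Finset.card_pos.mpr ⟨w, hwQ⟩
  constructor
  · have hdis : Disjoint (js A C v) ((H \ D) \ Q) := by
      rw [Finset.disjoint_left]
      intro y hy hy2
      rw [Finset.mem_sdiff, Finset.mem_sdiff, hQ] at hy2
      obtain ⟨⟨hyH, hyD⟩, hyQ⟩ := hy2
      have hex : ∃ u ∈ D, A u y := by
        by_contra hcon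
        push Not at hcon
        exact hyQ ⟨hyH, hyD, hcon⟩
      obtain ⟨u, hu, huy⟩ := hex
      apply hyD
      rw [hD]
      refine ⟨hy, ?_⟩
      obtain ⟨z', hz'⟩ := h.js_z C v y hy
      have a1 := mem_js.mp (hDJ hu)
      have a2 := mem_js.mp hy
      rw [hz', h.j_same m C hC v u y z z' hv a1.1 a1.2.1 a2.1 a2.2.1 huy ((hD u).mp hu).2 hz']
    have h1 := Finset.card_le_card (Finset.union_subset hJ
      (Finset.sdiff_subset.trans Finset.sdiff_subset : (H \ D) \ Q ⊆ H))
    rw [Finset.card_union_of_disjoint hdis] at h1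
    omega
  · omega

/-- The factor containing `js`. -/
theorem factor (h : Fam A F) (m : ℕ) (C : Finset V) (hC : F (m + 3) C) (hns : Ns A C) (v : V)
    (hv : v ∈ C) (hJn : (js A C v).Nonempty) :
    ∃ H : Finset V, H ⊆ nb A C v ∧ js A C v ⊆ H ∧ Cp A (nb A C v) H ∧ Ci A H := by
  classical
  let T : Finset (Finset V) := (nb A C v).powerset.filter
    (fun H => js A C v ⊆ H ∧ Cp A (nb A C v) H)
  have hT : ∀ H, H ∈ T ↔ H ⊆ nb A C v ∧ js A C v ⊆ H ∧ Cp A (nb A C v) H := by
    intro H
    simp only [T, Finset.mem_filter, Finset.mem_powerset]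
  have hL : nb A C v ∈ T := by
    rw [hT]
    exact ⟨Finset.Subset.refl _, h.js_sub C v, fun a _ b hb hb' => absurd hb hb'⟩
  obtain ⟨H, hH, hmin⟩ := Finset.exists_min_image T Finset.card ⟨_, hL⟩
  obtain ⟨h1, h2, h3⟩ := (hT H).mp hH
  refine ⟨H, h1, h2, h3, ?_⟩
  intro X hX hXn hXH
  by_contra hcon
  push Not at hcon
  have hXc : Cp A (nb A C v) X := by
    intro a ha b hb hbX
    by_cases hbH : b ∈ H
    · exact hcon a ha b hbH hbX
    · exact h3 a (hX ha) b hb hbH
  rcases h.js_split m C hC hns v hv X (hX.trans h1) hXc with hs | hs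
  · have h4 := hmin X ((hT X).mpr ⟨hX.trans h1, hs, hXc⟩)
    have h5 := Finset.card_lt_card (Finset.ssubset_iff_subset_ne.mpr ⟨hX, hXH⟩)
    omega
  · have h4 := hmin (H \ X) ((hT _).mpr ⟨Finset.sdiff_subset.trans h1, ?_, ?_⟩)
    · have h5 : (H \ X).card < H.card := by
        rw [Finset.card_sdiff_of_subset hX]
        have := Finset.card_pos.mpr hXn
        have := Finset.card_le_card hX
        omega
      omega
    · intro u hu
      rw [Finset.mem_sdiff]
      exact ⟨h2 hu, Finset.disjoint_left.mp hs hu⟩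
    · intro a ha b hb hbX
      rw [Finset.mem_sdiff] at ha hbX
      by_cases hbH : b ∈ H
      · have hbX' : b ∈ X := by
          by_contra h'
          exact hbX ⟨hbH, h'⟩
        exact h.symm _ _ (hcon b hbX' a ha.1 ha.2)
      · exact h3 a ha.1 b hb hbH

theorem na_of_cp (h : Fam A F) (C X : Finset V) (hX : X ⊆ C) (hc : Cp A C X) (x : V)
    (hx : x ∈ X) : na A C x = na A X x := by
  ext y
  rw [mem_na, mem_na]
  constructor
  · rintro ⟨h1, h2, h3⟩
    refine ⟨?_, h2, h3⟩
    by_contra hy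
    exact h3 (hc x hx y h1 hy)
  · rintro ⟨h1, h2, h3⟩
    exact ⟨hX h1, h2, h3⟩

theorem cp_compl (h : Fam A F) (C X : Finset V) (hc : Cp A C X) : Cp A C (C \ X) := by
  intro a ha b hb hbX
  rw [Finset.mem_sdiff] at ha hbX
  have : b ∈ X := by
    by_contra h'
    exact hbX ⟨hb, h'⟩
  exact h.symm _ _ (hc b this a ha.1 ha.2)

theorem sus_split (h : Fam A F) (C X : Finset V) (hX : X ⊆ C) (hc : Cp A C X) :
    (sus A X).card + (sus A (C \ X)).card ≤ (sus A C).card := by
  classical
  have h1 : sus A X ∪ sus A (C \ X) ⊆ sus A C := by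
    intro y hy
    rw [Finset.mem_union, mem_sus, mem_sus] at hy
    rw [mem_sus]
    rcases hy with ⟨h1, h2⟩ | ⟨h1, h2⟩
    · rw [h.na_of_cp C X hX hc y h1]
      exact ⟨hX h1, h2⟩
    · rw [h.na_of_cp C (C \ X) Finset.sdiff_subset (h.cp_compl C X hc) y h1]
      exact ⟨(Finset.mem_sdiff.mp h1).1, h2⟩
  have h2 : Disjoint (sus A X) (sus A (C \ X)) := by
    rw [Finset.disjoint_left]
    intro y hy hy2
    rw [mem_sus] at hy hy2
    exact (Finset.mem_sdiff.mp hy2.1).2 hy.1
  rw [← Finset.card_union_of_disjoint h2]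
  exact Finset.card_le_card h1

/-- The key inequality. -/
theorem key (h : Fam A F) : ∀ (N : ℕ) (R : Finset V) (m : ℕ), R.card = N → F m R →
    10 * m ≤ (sus A R).card + 4 * R.card := by
  intro N
  induction N using Nat.strong_induction_on with
  | _ N ih =>
    intro R m hN hR
    rcases m with _ | m
    · omega
    by_cases hci : Ci A R
    · have h1 := h.bound m R hR hci
      rcases m with _ | m
      · obtain ⟨a, b, hab, hA, rfl⟩ := h.one R hR
        have h2 : ({a, b} : Finset V) ⊆ sus A {a, b} := by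
          intro y hy
          rw [mem_sus]
          refine ⟨hy, ?_⟩
          have e1 : na A {a, b} a = {b} := by
            ext y
            simp only [mem_na, Finset.mem_insert, Finset.mem_singleton]
            constructor
            · rintro ⟨rfl | rfl, h2, _⟩
              · exact absurd rfl h2
              · rfl
            · rintro rfl
              exact ⟨Or.inr rfl, hab.symm, hA⟩
          have e2 : na A {a, b} b = {a} := by
            ext y
            simp only [mem_na, Finset.mem_insert, Finset.mem_singleton]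
            constructor
            · rintro ⟨rfl | rfl, h2, _⟩
              · rfl
              · exact absurd rfl h2
            · rintro rfl
              exact ⟨Or.inl rfl, hab, fun h' => hA (h.symm _ _ h')⟩
          rw [Finset.mem_insert, Finset.mem_singleton] at hy
          rcases hy with rfl | rfl
          · rw [e1, Finset.card_singleton]
          · rw [e2, Finset.card_singleton]
        have h3 := Finset.card_le_card h2
        rw [Finset.card_pair hab] at h3 ⊢
        omega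
      · omega
    · unfold Ci at hci
      push Not at hci
      obtain ⟨X, hX, hXn, hXR, hXc⟩ := hci
      have hXc' : Cp A R X := fun a ha b hb hb' => hXc a ha b hb hb'
      obtain ⟨m1, m2, hm, hF1, hF2⟩ := h.join (m + 1) R X hR hX hXn hXR hXc'
      have h1 := Finset.card_lt_card (Finset.ssubset_iff_subset_ne.mpr ⟨hX, hXR⟩)
      have h2 := Finset.card_pos.mpr hXn
      have h3 := Finset.card_sdiff_of_subset hX
      have i1 := ih X.card (by omega) X m1 rfl hF1
      have i2 := ih (R \ X).card (by omega) (R \ X) m2 rfl hF2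
      have i3 := h.sus_split R X hX hXc'
      omega

end Fam

end Pool.Agent.MP19e880.Low
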