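import Pool.Agent.Lib.MP_19e880_co.LowB

/-!
The inequality at a vertex, and its only exception.
-/

set_option autoImplicit false
set_option linter.unusedSectionVars false
set_option linter.unusedVariables false

namespace Pool.Agent.MP19e880.Low

variable {V : Type} [DecidableEq V]

/-- The exceptional situation at `v`: a pentagon `u c a b e` in the link of `v`, with
`js = {u, a, b}`. -/
structure Pent (A : V → V → Prop) (C : Finset V) (v u a b c e z z' : V) : Prop where
  hv : v ∈ C
  hu : u ∈ js A C v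
  ha : a ∈ js A C v
  hb : b ∈ js A C v
  hc : c ∈ nb A C v
  he : e ∈ nb A C v
  hc' : c ∉ js A C v
  he' : e ∉ js A C v
  all : ∀ w ∈ nb A C v, ¬ A u w → w = u ∨ w = a ∨ w = b
  alla : ∀ w ∈ nb A C v, ¬ A a w → w = u ∨ w = a ∨ w = e
  allb : ∀ w ∈ nb A C v, ¬ A b w → w = u ∨ w = b ∨ w = c
  ab : A a b
  ac : A a c
  be : A b e
  uc : A u c
  ue : A u e
  nua : ¬ A u a
  nub : ¬ A u b
  nae : ¬ A a e
  nbc : ¬ A b c
  nce : ¬ A c e
  hce : c ≠ e
  za : zs A C v a = {z}
  zb : zs A C v b = {z}
  zu : zs A C v u = {z'}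
  zz : z ≠ z'

namespace Fam

variable {A : V → V → Prop} {F : ℕ → Finset V → Prop}

theorem pent_swap (h : Fam A F) {C : Finset V} {v u a b c e z z' : V}
    (p : Pent A C v u a b c e z z') : Pent A C v u b a e c z z' where
  hv := p.hv
  hu := p.hu
  ha := p.hb
  hb := p.ha
  hc := p.he
  he := p.hc
  hc' := p.he'
  he' := p.hc'
  all := by
    intro w hw hn
    rcases p.all w hw hn with h1 | h1 | h1
    · exact Or.inl h1
    · exact Or.inr (Or.inr h1)
    · exact Or.inr (Or.inl h1)
  alla := p.allb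
  allb := p.alla
  ab := h.symm _ _ p.ab
  ac := p.be
  be := p.ac
  uc := p.ue
  ue := p.uc
  nua := p.nub
  nub := p.nua
  nae := p.nbc
  nbc := p.nae
  nce := fun h' => p.nce (h.symm _ _ h')
  hce := p.hce.symm
  za := p.zb
  zb := p.za
  zu := p.zu
  zz := p.zz

/-- The inequality at `v`, or the exceptional case. -/
theorem vertex (h : Fam A F) (m : ℕ) (C : Finset V) (hC : F (m + 3) C) (hns : Ns A C) (v : V)
    (hv : v ∈ C) :
    10 * (m + 2) + (js A C v).card ≤ (sus A (nb A C v)).card + 4 * (nb A C v).card + 2 ∨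
    (10 * (m + 2) + (js A C v).card ≤ (sus A (nb A C v)).card + 4 * (nb A C v).card + 3 ∧
      (js A C v).card = 3 ∧ ∃ H : Finset V, H ⊆ nb A C v ∧ js A C v ⊆ H ∧
        Cp A (nb A C v) H ∧ F 2 H ∧ H.card = 5) := by
  classical
  have hL := h.link (m + 2) C v hC hv
  have hkey := h.key _ _ (m + 2) rfl hL
  by_cases hJ2 : (js A C v).card ≤ 2
  · left; omega
  have hJn : (js A C v).Nonempty := by
    rw [← Finset.card_pos]; omega
  obtain ⟨H, hH, hJH, hcp, hci⟩ := h.factor m C hC hns v hv hJn
  obtain ⟨m1, m2, hm, hF1, hF2⟩ : ∃ m1 m2, m1 + m2 = m + 2 ∧ F m1 H ∧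
      F m2 (nb A C v \ H) := by
    by_cases heq : H = nb A C v
    · refine ⟨m + 2, 0, rfl, by rw [heq]; exact hL, ?_⟩
      rw [h.zero, heq, Finset.sdiff_self]
    · exact h.join (m + 2) _ H hL hH (hJn.mono hJH) heq hcp
  obtain ⟨u0, hu0⟩ := hJn
  obtain ⟨z, hz⟩ := h.js_z C v u0 hu0
  have hjc := h.js_card m m1 C hC hns v hv H hH hcp hF1 hJH
    ((js A C v).filter (fun u => zs A C v u = {z})) z ⟨u0, by
      rw [Finset.mem_filter]; exact ⟨hu0, hz⟩⟩ (fun u => Finset.mem_filter)
  have hc3 := Finset.card_le_card hJH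
  have hm1 : 2 ≤ m1 := by
    rcases m1 with _ | m1
    · rw [h.zero] at hF1
      rw [hF1, Finset.card_empty] at hc3
      omega
    · rcases m1 with _ | m1
      · rw [h.card_one H hF1] at hc3
        omega
      · omega
  obtain ⟨n1, rfl⟩ : ∃ n1, m1 = n1 + 2 := ⟨m1 - 2, by omega⟩
  have hb := h.bound (n1 + 1) H hF1 hci
  have hkR := h.key _ _ m2 rfl hF2
  have hs := h.sus_split (nb A C v) H hH hcp
  have hcc := Finset.card_sdiff_of_subset hH
  have hcl := Finset.card_le_card hH
  rcases Nat.eq_zero_or_pos n1 with h0 | hpos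
  · subst h0
    by_cases h5 : H.card = 5
    · by_cases h6 : (js A C v).card = 3
      · right
        refine ⟨by omega, h6, H, hH, hJH, hcp, hF1, h5⟩
      · left; omega
    · left; omega
  · left; omega

/-- The pentagon in the exceptional case. -/
theorem exists_pent (h : Fam A F) (m : ℕ) (C : Finset V) (hC : F (m + 3) C) (hns : Ns A C)
    (v : V) (hv : v ∈ C) (hJ : (js A C v).card = 3) (H : Finset V) (hH : H ⊆ nb A C v)
    (hJH : js A C v ⊆ H) (hcp : Cp A (nb A C v) H) (hF : F 2 H) (h5 : H.card = 5) :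
    ∃ u a b c e z z', Pent A C v u a b c e z z' := by
  classical
  -- parts with a common outer neighbour have at most two members
  have hD : ∀ z : V, ((js A C v).filter (fun u => zs A C v u = {z})).card ≤ 2 := by
    intro z
    by_cases hne : ((js A C v).filter (fun u => zs A C v u = {z})).Nonempty
    · have := (h.js_card m 2 C hC hns v hv H hH hcp hF hJH
        ((js A C v).filter (fun u => zs A C v u = {z})) z hne (fun u => Finset.mem_filter)).2
      omega
    · rw [Finset.not_nonempty_iff_eq_empty] at hne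
      rw [hne, Finset.card_empty]
      omega
  have hnb : ∀ x ∈ H, (nb A H x).card = 2 := fun x hx => h.card_one _ (h.link 1 H x hF hx)
  have hna : ∀ x ∈ H, (na A H x).card = 2 := by
    intro x hx
    have h1 := h.card_eq H x hx
    have h2 := hnb x hx
    omega
  -- an adjacent pair
  have hadj : ∃ a ∈ js A C v, ∃ b ∈ js A C v, A a b := by
    by_contra hcon
    push Not at hcon
    obtain ⟨x1, x2, x3, h12, h13, h23, hJe⟩ := Finset.card_eq_three.mp hJ
    have m1 : x1 ∈ js A C v := by rw [hJe]; simp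
    have m2 : x2 ∈ js A C v := by rw [hJe]; simp
    have m3 : x3 ∈ js A C v := by rw [hJe]; simp
    -- the two other vertices
    have hsub : ∀ x ∈ js A C v, nb A H x = H \ js A C v := by
      intro x hx
      apply Finset.eq_of_subset_of_card_le
      · intro y hy
        rw [mem_nb] at hy
        rw [Finset.mem_sdiff]
        exact ⟨hy.1, fun hy2 => hcon x hx y hy2 hy.2⟩
      · rw [Finset.card_sdiff_of_subset hJH, hnb x (hJH hx)]
        omega
    obtain ⟨y, hy⟩ : (H \ js A C v).Nonempty := by
      rw [← Finset.card_pos, Finset.card_sdiff_of_subset hJH]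
      omega
    have hyH := (Finset.mem_sdiff.mp hy).1
    have h3 : js A C v ⊆ nb A H y := by
      intro x hx
      rw [mem_nb]
      refine ⟨hJH hx, ?_⟩
      rw [← hsub x hx, mem_nb] at hy
      exact h.symm _ _ hy.2
    have h4 := Finset.card_le_card h3
    rw [hnb y hyH] at h4
    omega
  obtain ⟨a, ha, b, hb, hab⟩ := hadj
  have hane : a ≠ b := h.neAdj hab
  obtain ⟨u, hu⟩ : ((js A C v).erase a).erase b |>.Nonempty := by
    rw [← Finset.card_pos, Finset.card_erase_of_mem (by
      rw [Finset.mem_erase]; exact ⟨hane.symm, hb⟩), Finset.card_erase_of_mem ha]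
    omega
  rw [Finset.mem_erase, Finset.mem_erase] at hu
  obtain ⟨hub, hua, hu⟩ := hu
  obtain ⟨z, hz⟩ := h.js_z C v a ha
  obtain ⟨z1, hz1⟩ := h.js_z C v b hb
  obtain ⟨z', hz'⟩ := h.js_z C v u hu
  have ma := mem_js.mp ha
  have mb := mem_js.mp hb
  have mu := mem_js.mp hu
  have e1 := h.j_same m C hC v a b z z1 hv ma.1 ma.2.1 mb.1 mb.2.1 hab hz hz1
  subst e1
  have hzz : z ≠ z' := by
    rintro rfl
    have h1 := hD z
    have h2 : ({u, a, b} : Finset V) ⊆ (js A C v).filter (fun u => zs A C v u = {z}) := by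
      intro y hy
      rw [Finset.mem_insert, Finset.mem_insert, Finset.mem_singleton] at hy
      rw [Finset.mem_filter]
      rcases hy with rfl | rfl | rfl
      · exact ⟨hu, hz'⟩
      · exact ⟨ha, hz⟩
      · exact ⟨hb, hz1⟩
    have h3 := Finset.card_le_card h2
    rw [Finset.card_insert_of_notMem (by
      rw [Finset.mem_insert, Finset.mem_singleton, not_or]; exact ⟨hua, hub⟩),
      Finset.card_pair hane] at h3
    omega
  have hnua : ¬ A u a := by
    intro h'
    exact hzz (h.j_same m C hC v u a z' z hv mu.1 mu.2.1 ma.1 ma.2.1 h' hz' hz).symm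
  have hnub : ¬ A u b := by
    intro h'
    exact hzz (h.j_same m C hC v u b z' z hv mu.1 mu.2.1 mb.1 mb.2.1 h' hz' hz1).symm
  have hJe : js A C v = {u, a, b} := by
    symm
    apply Finset.eq_of_subset_of_card_le
    · intro y hy
      rw [Finset.mem_insert, Finset.mem_insert, Finset.mem_singleton] at hy
      rcases hy with rfl | rfl | rfl
      · exact hu
      · exact ha
      · exact hb
    · rw [hJ, Finset.card_insert_of_notMem (by
        rw [Finset.mem_insert, Finset.mem_singleton, not_or]; exact ⟨hua, hub⟩),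
        Finset.card_pair hane]
  have hnau : na A H u = {a, b} := by
    symm
    apply Finset.eq_of_subset_of_card_le
    · intro y hy
      rw [Finset.mem_insert, Finset.mem_singleton] at hy
      rw [mem_na]
      rcases hy with rfl | rfl
      · exact ⟨hJH ha, fun h' => hua h'.symm, hnua⟩
      · exact ⟨hJH hb, fun h' => hub h'.symm, hnub⟩
    · rw [hna u (hJH hu), Finset.card_pair hane]
  obtain ⟨c0, e0, hce0, hnce0, hnbu⟩ := h.one _ (h.link 1 H u hF (hJH hu))
  -- membership in `H`
  have hHmem : ∀ y, y ∈ H → y = u ∨ y = a ∨ y = b ∨ y = c0 ∨ y = e0 := by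
    intro y hy
    by_cases h1 : y = u
    · exact Or.inl h1
    · by_cases h2 : A u y
      · have h3 : y ∈ nb A H u := mem_nb.mpr ⟨hy, h2⟩
        rw [hnbu, Finset.mem_insert, Finset.mem_singleton] at h3
        rcases h3 with h3 | h3
        · exact Or.inr (Or.inr (Or.inr (Or.inl h3)))
        · exact Or.inr (Or.inr (Or.inr (Or.inr h3)))
      · have h3 : y ∈ na A H u := mem_na.mpr ⟨hy, h1, h2⟩
        rw [hnau, Finset.mem_insert, Finset.mem_singleton] at h3
        rcases h3 with h3 | h3
        · exact Or.inr (Or.inl h3)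
        · exact Or.inr (Or.inr (Or.inl h3))
  have hc0 : c0 ∈ H ∧ A u c0 := by
    have : c0 ∈ nb A H u := by rw [hnbu]; simp
    exact mem_nb.mp this
  have he0 : e0 ∈ H ∧ A u e0 := by
    have : e0 ∈ nb A H u := by rw [hnbu]; simp
    exact mem_nb.mp this
  have hca : c0 ≠ a := by
    rintro rfl
    exact hnua hc0.2
  have hcb : c0 ≠ b := by
    rintro rfl
    exact hnub hc0.2
  have hea : e0 ≠ a := by
    rintro rfl
    exact hnua he0.2
  have heb : e0 ≠ b := by
    rintro rfl
    exact hnub he0.2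
  have hcu : c0 ≠ u := fun h' => h.irr u (by rw [h'] at hc0; exact hc0.2)
  have heu : e0 ≠ u := fun h' => h.irr u (by rw [h'] at he0; exact he0.2)
  -- neither `c0` nor `e0` is adjacent to both `a` and `b`
  have hnot : ∀ y, y ∈ H → A u y → ¬ (A a y ∧ A b y) := by
    rintro y hy huy ⟨hay, hby⟩
    have h1 : ({u, a, b} : Finset V) ⊆ nb A H y := by
      intro x hx
      rw [Finset.mem_insert, Finset.mem_insert, Finset.mem_singleton] at hx
      rw [mem_nb]
      rcases hx with rfl | rfl | rfl
      · exact ⟨hJH hu, h.symm _ _ huy⟩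
      · exact ⟨hJH ha, h.symm _ _ hay⟩
      · exact ⟨hJH hb, h.symm _ _ hby⟩
    have h2 := Finset.card_le_card h1
    rw [hnb y hy, Finset.card_insert_of_notMem (by
      rw [Finset.mem_insert, Finset.mem_singleton, not_or]; exact ⟨hua, hub⟩),
      Finset.card_pair hane] at h2
    omega
  -- each of `a`, `b` is adjacent to one of `c0`, `e0`
  have hone : ∀ x y : V, x ∈ H → y ∈ H → A x y → ¬ A x u → (∀ w ∈ H, A x w → w ≠ u → w = y ∨
      w = c0 ∨ w = e0) → A x c0 ∨ A x e0 := by
    intro x y hx hy hxy hxu hw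
    by_contra hcon
    rw [not_or] at hcon
    have h1 : nb A H x ⊆ {y} := by
      intro w hw2
      rw [mem_nb] at hw2
      rw [Finset.mem_singleton]
      have hwu : w ≠ u := by
        rintro rfl
        exact hxu hw2.2
      rcases hw w hw2.1 hw2.2 hwu with h' | h' | h'
      · exact h'
      · rw [h'] at hw2
        exact absurd hw2.2 hcon.1
      · rw [h'] at hw2
        exact absurd hw2.2 hcon.2
    have h2 := Finset.card_le_card h1
    rw [hnb x hx, Finset.card_singleton] at h2
    omega
  have ho1 := hone a b (hJH ha) (hJH hb) hab (fun h' => hnua (h.symm _ _ h')) (by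
    intro w hw haw hwu
    rcases hHmem w hw with h' | h' | h' | h' | h'
    · exact absurd h' hwu
    · rw [h'] at haw
      exact absurd haw (h.irr a)
    · exact Or.inl h'
    · exact Or.inr (Or.inl h')
    · exact Or.inr (Or.inr h'))
  have ho2 := hone b a (hJH hb) (hJH ha) (h.symm _ _ hab) (fun h' => hnub (h.symm _ _ h')) (by
    intro w hw haw hwu
    rcases hHmem w hw with h' | h' | h' | h' | h'
    · exact absurd h' hwu
    · exact Or.inl h'
    · rw [h'] at haw
      exact absurd haw (h.irr b)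
    · exact Or.inr (Or.inl h')
    · exact Or.inr (Or.inr h'))
  -- choose the names
  have hfin : ∀ c e : V, c ∈ H → e ∈ H → A u c → A u e → c ≠ e → ¬ A c e → A a c → A b e →
      (∀ y ∈ H, y = u ∨ y = a ∨ y = b ∨ y = c ∨ y = e) →
      ∃ u a b c e z z', Pent A C v u a b c e z z' := by
    intro c e hcH heH huc hue hce hnce hac hbe hmem
    have hnbc : ¬ A b c := fun h' => hnot c hcH huc ⟨hac, h'⟩
    have hnae : ¬ A a e := fun h' => hnot e heH hue ⟨h', hbe⟩
    have hcu : c ≠ u := (h.neAdj huc).symm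
    have heu : e ≠ u := (h.neAdj hue).symm
    have hca : c ≠ a := (h.neAdj hac).symm
    have heb : e ≠ b := (h.neAdj hbe).symm
    have hcb : c ≠ b := by
      rintro rfl
      exact hnub huc
    have hea : e ≠ a := by
      rintro rfl
      exact hnua hue
    refine ⟨u, a, b, c, e, z, z', hv, hu, ha, hb, hH hcH, hH heH, ?_, ?_, ?_, ?_, ?_, hab, hac,
      hbe, huc, hue, hnua, hnub, hnae, hnbc, hnce, hce, hz, hz1, hz', hzz⟩
    · rw [hJe]
      simp only [Finset.mem_insert, Finset.mem_singleton, not_or]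
      exact ⟨hcu, hca, hcb⟩
    · rw [hJe]
      simp only [Finset.mem_insert, Finset.mem_singleton, not_or]
      exact ⟨heu, hea, heb⟩
    · intro w hw hn
      have hwH : w ∈ H := by
        by_contra h'
        exact hn (hcp u (hJH hu) w hw h')
      rcases hmem w hwH with h' | h' | h' | h' | h'
      · exact Or.inl h'
      · exact Or.inr (Or.inl h')
      · exact Or.inr (Or.inr h')
      · rw [h'] at hn
        exact absurd huc hn
      · rw [h'] at hn
        exact absurd hue hn
    · intro w hw hn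
      have hwH : w ∈ H := by
        by_contra h'
        exact hn (hcp a (hJH ha) w hw h')
      rcases hmem w hwH with h' | h' | h' | h' | h'
      · exact Or.inl h'
      · exact Or.inr (Or.inl h')
      · rw [h'] at hn
        exact absurd hab hn
      · rw [h'] at hn
        exact absurd hac hn
      · exact Or.inr (Or.inr h')
    · intro w hw hn
      have hwH : w ∈ H := by
        by_contra h'
        exact hn (hcp b (hJH hb) w hw h')
      rcases hmem w hwH with h' | h' | h' | h' | h'
      · exact Or.inl h'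
      · rw [h'] at hn
        exact absurd (h.symm _ _ hab) hn
      · exact Or.inr (Or.inl h')
      · exact Or.inr (Or.inr h')
      · rw [h'] at hn
        exact absurd hbe hn
  have hmem' : ∀ y ∈ H, y = u ∨ y = a ∨ y = b ∨ y = e0 ∨ y = c0 := by
    intro y hy
    rcases hHmem y hy with h' | h' | h' | h' | h'
    · exact Or.inl h'
    · exact Or.inr (Or.inl h')
    · exact Or.inr (Or.inr (Or.inl h'))
    · exact Or.inr (Or.inr (Or.inr (Or.inr h')))
    · exact Or.inr (Or.inr (Or.inr (Or.inl h')))
  rcases ho1 with h1 | h1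
  · rcases ho2 with h2 | h2
    · exact absurd ⟨h1, h2⟩ (hnot c0 hc0.1 hc0.2)
    · exact hfin c0 e0 hc0.1 he0.1 hc0.2 he0.2 hce0 hnce0 h1 h2 hHmem
  · rcases ho2 with h2 | h2
    · exact hfin e0 c0 he0.1 hc0.1 he0.2 hc0.2 hce0.symm (fun h' => hnce0 (h.symm _ _ h')) h1 h2
        hmem'
    · exact absurd ⟨h1, h2⟩ (hnot e0 he0.1 he0.2)

/-- In the exceptional case, `js` at `u` is contained in the outer neighbour of `u`. -/
theorem pent_js_aux (h : Fam A F) (m : ℕ) (C : Finset V) (hC : F (m + 3) C)
    {v u a b c e z z' : V} (p : Pent A C v u a b c e z z') : c ∉ js A C u := by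
  intro hcJ
  have mu := mem_js.mp p.hu
  have ma := mem_js.mp p.ha
  have mc := mem_nb.mp p.hc
  have mcJ := mem_js.mp hcJ
  -- `zs v c` has a member different from `z'`
  have hex : ∃ y ∈ zs A C v c, y ≠ z' := by
    by_contra hcon
    push Not at hcon
    apply p.hc'
    rw [mem_js]
    refine ⟨mc.1, mc.2, ?_⟩
    have h1 : (zs A C v c).Nonempty := h.na_nonempty (m + 1) _ v (h.link (m + 2) C c hC mc.1)
      (mem_nb.mpr ⟨p.hv, h.symm _ _ mc.2⟩)
    have h2 : zs A C v c ⊆ {z'} := by
      intro y hy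
      rw [Finset.mem_singleton]
      exact hcon y hy
    have h3 := Finset.card_le_card h2
    have h4 := Finset.card_pos.mpr h1
    rw [Finset.card_singleton] at h3
    omega
  obtain ⟨y, hy, hyz⟩ := hex
  rw [mem_zs] at hy
  have hnuy : ¬ A u y := by
    intro huy
    have : y ∈ zs A C v u := mem_zs.mpr ⟨hy.1, huy, hy.2.2⟩
    rw [p.zu, Finset.mem_singleton] at this
    exact hyz this
  have h1 : y ∈ zs A C u c := by
    rw [mem_zs]
    refine ⟨hy.1, hy.2.1, ?_, hnuy⟩
    rintro rfl
    exact hy.2.2.2 mu.2.1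
  have h2 : a ∈ zs A C u c := by
    rw [mem_zs]
    refine ⟨ma.1, h.symm _ _ p.ac, ?_, p.nua⟩
    rintro rfl
    have h3 := p.za
    rw [p.zu, Finset.singleton_inj] at h3
    exact p.zz h3.symm
  have h3 : y ≠ a := by
    rintro rfl
    exact hy.2.2.2 ma.2.1
  obtain ⟨w, hw⟩ := Finset.card_eq_one.mp mcJ.2.2
  rw [hw, Finset.mem_singleton] at h1 h2
  exact h3 (h1.trans h2.symm)

theorem pent_js (h : Fam A F) (m : ℕ) (C : Finset V) (hC : F (m + 3) C)
    {v u a b c e z z' : V} (p : Pent A C v u a b c e z z') : ∀ w ∈ js A C u, w = z' := by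
  intro w hw
  have mu := mem_js.mp p.hu
  have ma := mem_js.mp p.ha
  have mb := mem_js.mp p.hb
  have mw := mem_js.mp hw
  obtain ⟨t, ht⟩ := Finset.card_eq_one.mp mw.2.2
  have hua : a ≠ u := by
    rintro rfl
    have h3 := p.za
    rw [p.zu, Finset.singleton_inj] at h3
    exact p.zz h3.symm
  have hub : b ≠ u := by
    rintro rfl
    have h3 := p.zb
    rw [p.zu, Finset.singleton_inj] at h3
    exact p.zz h3.symm
  have hnab : ¬ (A w a ∧ A w b) := by
    rintro ⟨h1, h2⟩
    have h3 : a ∈ zs A C u w := mem_zs.mpr ⟨ma.1, h1, hua, p.nua⟩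
    have h4 : b ∈ zs A C u w := mem_zs.mpr ⟨mb.1, h2, hub, p.nub⟩
    rw [ht, Finset.mem_singleton] at h3 h4
    exact h.neAdj p.ab (h3.trans h4.symm)
  by_contra hwz
  by_cases hwv : w = v
  · subst hwv
    exact hnab ⟨ma.2.1, mb.2.1⟩
  · have hvw : A v w := by
      by_contra hn
      have : w ∈ zs A C v u := mem_zs.mpr ⟨mw.1, mw.2.1, hwv, hn⟩
      rw [p.zu, Finset.mem_singleton] at this
      exact hwz this
    have hwL : w ∈ nb A C v := mem_nb.mpr ⟨mw.1, hvw⟩
    by_cases h1 : A a w
    · by_cases h2 : A b w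
      · exact hnab ⟨h.symm _ _ h1, h.symm _ _ h2⟩
      · rcases p.allb w hwL h2 with h3 | h3 | h3
        · rw [h3] at mw
          exact h.irr u mw.2.1
        · rw [h3] at mw
          exact p.nub mw.2.1
        · rw [h3] at hw
          exact h.pent_js_aux m C hC p hw
    · rcases p.alla w hwL h1 with h3 | h3 | h3
      · rw [h3] at mw
        exact h.irr u mw.2.1
      · rw [h3] at mw
        exact p.nua mw.2.1
      · rw [h3] at hw
        exact h.pent_js_aux m C hC (h.pent_swap p) hw

/-- Two exceptional vertices with the same `u`, first case. -/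
theorem pent_two_aux1 (h : Fam A F) (m : ℕ) (C : Finset V) (hC : F (m + 3) C)
    {v u a b c e z z' : V} (p : Pent A C v u a b c e z z')
    {w c' e' y y' : V} (q : Pent A C w u a b c' e' y y') (hwv : A v w) : False := by
  have mu := mem_js.mp p.hu
  have ma := mem_js.mp p.ha
  have mw : w ∈ C := q.hv
  have maw := mem_js.mp q.ha
  have muw := mem_js.mp q.hu
  have hy : y ∈ zs A C w a := by rw [q.za]; exact Finset.mem_singleton_self y
  rw [mem_zs] at hy
  have hnz : z ≠ y := by
    rintro rfl
    have h1 := h.z_adj m C hC v a w z p.hv ma.1 ma.2.1 mw hwv (h.symm _ _ maw.2.1) p.za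
    exact hy.2.2.2 h1
  have hyv : y ≠ v := by
    rintro rfl
    exact hy.2.2.2 (h.symm _ _ hwv)
  have hvy : A v y := by
    by_contra hn
    have : y ∈ zs A C v a := mem_zs.mpr ⟨hy.1, hy.2.1, hyv, hn⟩
    rw [p.za, Finset.mem_singleton] at this
    exact hnz this.symm
  have huy : A u y := by
    by_contra hn
    rcases p.all y (mem_nb.mpr ⟨hy.1, hvy⟩) hn with h1 | h1 | h1
    · rw [h1] at hy
      exact hy.2.2.2 muw.2.1
    · rw [h1] at hy
      exact h.irr a hy.2.1
    · rw [h1] at hy
      exact hy.2.2.2 (mem_js.mp q.hb).2.1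
  have h2 : y ∈ zs A C w u := mem_zs.mpr ⟨hy.1, huy, hy.2.2⟩
  rw [q.zu, Finset.mem_singleton] at h2
  exact q.zz h2

/-- Two exceptional vertices with the same `u`, second case. -/
theorem pent_two_aux2 (h : Fam A F) (m : ℕ) (C : Finset V) (hC : F (m + 3) C)
    {v u a b c e z z' : V} (p : Pent A C v u a b c e z z')
    {b' c' e' y y' : V} (q : Pent A C c u a b' c' e' y y') : False := by
  have mu := mem_js.mp p.hu
  have ma := mem_js.mp p.ha
  have mb := mem_js.mp p.hb
  have mc := mem_nb.mp p.hc
  have me := mem_nb.mp p.he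
  have mbc := mem_js.mp q.hb
  have hbc : b ≠ c := by
    rintro rfl
    exact p.nub p.uc
  have h1 : b ∈ zs A C c a :=
    mem_zs.mpr ⟨mb.1, p.ab, hbc, fun h' => p.nbc (h.symm _ _ h')⟩
  rw [q.za, Finset.mem_singleton] at h1
  -- `y = b`
  subst h1
  have h2 : b ∈ zs A C c b' := by rw [q.zb]; exact Finset.mem_singleton_self b
  rw [mem_zs] at h2
  have hnvb' : ¬ A v b' := by
    intro hvb
    rcases p.all b' (mem_nb.mpr ⟨mbc.1, hvb⟩) q.nub with h3 | h3 | h3
    · have h4 := q.zb
      rw [h3, q.zu, Finset.singleton_inj] at h4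
      exact q.zz h4.symm
    · exact h.neAdj q.ab h3.symm
    · rw [h3] at h2
      exact h.irr b h2.2.1
  have hb'v : b' ≠ v := by
    rintro rfl
    exact q.nub (h.symm _ _ mu.2.1)
  have h5 : b' ∈ zs A C v a := mem_zs.mpr ⟨mbc.1, q.ab, hb'v, hnvb'⟩
  rw [p.za, Finset.mem_singleton] at h5
  -- `b' = z`
  subst h5
  have h6 := h.z_adj m C hC v b e b' p.hv mb.1 mb.2.1 me.1 me.2 p.be p.zb
  have h7 : e ∈ zs A C c b' :=
    mem_zs.mpr ⟨me.1, h.symm _ _ h6, p.hce.symm, p.nce⟩
  rw [q.zb, Finset.mem_singleton] at h7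
  exact h.neAdj p.be h7.symm

/-- Two exceptional vertices with the same `u`. -/
theorem pent_two (h : Fam A F) (m : ℕ) (C : Finset V) (hC : F (m + 3) C)
    {v u a b c e z z' : V} (p : Pent A C v u a b c e z z')
    {w a' b' c' e' y y' : V} (q : Pent A C w u a' b' c' e' y y') (hwv : w ≠ v) : w = z' := by
  have mu := mem_js.mp p.hu
  have ma := mem_js.mp p.ha
  have mb := mem_js.mp p.hb
  have muw := mem_js.mp q.hu
  have mw := q.hv
  by_contra hwz
  have huw : A u w := h.symm _ _ muw.2.1
  have hvw : A v w := by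
    by_contra hn
    have : w ∈ zs A C v u := mem_zs.mpr ⟨mw, huw, hwv, hn⟩
    rw [p.zu, Finset.mem_singleton] at this
    exact hwz this
  have hwL : w ∈ nb A C v := mem_nb.mpr ⟨mw, hvw⟩
  have hau : a ≠ u := by
    rintro rfl
    have h3 := p.za
    rw [p.zu, Finset.singleton_inj] at h3
    exact p.zz h3.symm
  have hbu : b ≠ u := by
    rintro rfl
    have h3 := p.zb
    rw [p.zu, Finset.singleton_inj] at h3
    exact p.zz h3.symm
  have hsel : ∀ x : V, x ∈ C → A w x → ¬ A u x → x ≠ u → x = a' ∨ x = b' := by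
    intro x hx hwx hux hxu
    rcases q.all x (mem_nb.mpr ⟨hx, hwx⟩) hux with h1 | h1 | h1
    · exact absurd h1 hxu
    · exact Or.inl h1
    · exact Or.inr h1
  by_cases h1 : A a w
  · by_cases h2 : A b w
    · -- both adjacent
      have s1 := hsel a ma.1 (h.symm _ _ h1) p.nua hau
      have s2 := hsel b mb.1 (h.symm _ _ h2) p.nub hbu
      rcases s1 with s1 | s1 <;> rcases s2 with s2 | s2
      · exact h.neAdj p.ab (s1.trans s2.symm)
      · subst s1
        subst s2
        exact h.pent_two_aux1 m C hC p q hvw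
      · subst s1
        subst s2
        exact h.pent_two_aux1 m C hC p (h.pent_swap q) hvw
      · exact h.neAdj p.ab (s1.trans s2.symm)
    · rcases p.allb w hwL h2 with h3 | h3 | h3
      · rw [h3] at huw
        exact h.irr u huw
      · rw [h3] at huw
        exact p.nub huw
      · subst h3
        rcases hsel a ma.1 (h.symm _ _ h1) p.nua hau with s1 | s1
        · subst s1
          exact h.pent_two_aux2 m C hC p q
        · subst s1
          exact h.pent_two_aux2 m C hC p (h.pent_swap q)
  · rcases p.alla w hwL h1 with h3 | h3 | h3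
    · rw [h3] at huw
      exact h.irr u huw
    · rw [h3] at huw
      exact p.nua huw
    · subst h3
      have hbw : A b w := p.be
      rcases hsel b mb.1 (h.symm _ _ hbw) p.nub hbu with s1 | s1
      · subst s1
        exact h.pent_two_aux2 m C hC (h.pent_swap p) q
      · subst s1
        exact h.pent_two_aux2 m C hC (h.pent_swap p) (h.pent_swap q)

/-- An exceptional vertex `w` with the same `u` is not in `js` at `u`. -/
theorem pent_notMem (h : Fam A F) (C : Finset V)
    {w u a b c e z z' : V} (p : Pent A C w u a b c e z z') : w ∉ js A C u := by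
  intro hw
  have mw := mem_js.mp hw
  obtain ⟨t, ht⟩ := Finset.card_eq_one.mp mw.2.2
  have ma := mem_js.mp p.ha
  have mb := mem_js.mp p.hb
  have hau : a ≠ u := by
    rintro rfl
    have h3 := p.za
    rw [p.zu, Finset.singleton_inj] at h3
    exact p.zz h3.symm
  have hbu : b ≠ u := by
    rintro rfl
    have h3 := p.zb
    rw [p.zu, Finset.singleton_inj] at h3
    exact p.zz h3.symm
  have h3 : a ∈ zs A C u w := mem_zs.mpr ⟨ma.1, ma.2.1, hau, p.nua⟩
  have h4 : b ∈ zs A C u w := mem_zs.mpr ⟨mb.1, mb.2.1, hbu, p.nub⟩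
  rw [ht, Finset.mem_singleton] at h3 h4
  exact h.neAdj p.ab (h3.trans h4.symm)

end Fam

end Pool.Agent.MP19e880.Low
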