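import Pool.Agent.Lib.MP_19e880_co.LowC

/-!
The global inequality.
-/

set_option autoImplicit false
set_option linter.unusedSectionVars false
set_option linter.unusedVariables false

namespace Pool.Agent.MP19e880.Low

variable {V : Type} [DecidableEq V]

/-- The sum of the degrees. -/
noncomputable def dg (A : V → V → Prop) (C : Finset V) : ℕ := ∑ v ∈ C, (nb A C v).card

namespace Fam

variable {A : V → V → Prop} {F : ℕ → Finset V → Prop}

theorem sus_link (h : Fam A F) (C : Finset V) (v u : V) :
    u ∈ sus A (nb A C v) ↔ u ∈ C ∧ A v u ∧ (zs A C u v).card = 1 := by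
  rw [mem_sus, mem_nb, and_assoc]
  rfl

/-- Double counting. -/
theorem double (h : Fam A F) (C : Finset V) :
    ∑ v ∈ C, (sus A (nb A C v)).card = ∑ v ∈ C, (js A C v).card := by
  classical
  have h1 : ∀ v ∈ C, (sus A (nb A C v)).card =
      ∑ u ∈ C, if A v u ∧ (zs A C u v).card = 1 then 1 else 0 := by
    intro v _
    rw [← Finset.sum_filter, ← Finset.card_eq_sum_ones]
    congr 1
    ext u
    rw [h.sus_link, Finset.mem_filter]
  have h2 : ∀ v ∈ C, (js A C v).card =
      ∑ u ∈ C, if A v u ∧ (zs A C v u).card = 1 then 1 else 0 := by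
    intro v _
    rw [← Finset.sum_filter, ← Finset.card_eq_sum_ones]
    congr 1
    ext u
    rw [mem_js, Finset.mem_filter]
  rw [Finset.sum_congr rfl h1, Finset.sum_congr rfl h2, Finset.sum_comm]
  refine Finset.sum_congr rfl fun u _ => Finset.sum_congr rfl fun v _ => ?_
  have : (A v u ∧ (zs A C u v).card = 1) ↔ (A u v ∧ (zs A C u v).card = 1) :=
    ⟨fun h' => ⟨h.symm _ _ h'.1, h'.2⟩, fun h' => ⟨h.symm _ _ h'.1, h'.2⟩⟩
  simp only [this]

/-- The excess at a vertex. -/
noncomputable def Qf (A : V → V → Prop) (C : Finset V) (m : ℕ) (v : V) : ℤ :=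
  ((sus A (nb A C v)).card : ℤ) - (js A C v).card + 4 * (nb A C v).card + 2 - 10 * (m + 2)

theorem sum_Q (h : Fam A F) (m : ℕ) (C : Finset V) (hC : F (m + 3) C) (hns : Ns A C) :
    0 ≤ ∑ v ∈ C, Qf A C m v := by
  classical
  let E : Finset V := C.filter (fun v => Qf A C m v < 0)
  have hE : ∀ v, v ∈ E ↔ v ∈ C ∧ Qf A C m v < 0 := by
    intro v
    simp only [E, Finset.mem_filter]
  have hex : ∀ v ∈ E, -1 ≤ Qf A C m v ∧ ∃ u, ∃ a b c e z z', Pent A C v u a b c e z z' := by
    intro v hv
    have hv' := (hE v).mp hv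
    rcases h.vertex m C hC hns v hv'.1 with h1 | ⟨h1, h2, H, h3, h4, h5, h6, h7⟩
    · exfalso
      have := hv'.2
      unfold Qf at this
      omega
    · refine ⟨?_, h.exists_pent m C hC hns v hv'.1 h2 H h3 h4 h5 h6 h7⟩
      unfold Qf
      omega
  choose! g hg using fun v hv => (hex v hv).2
  have hgC : ∀ v ∈ E, g v ∈ C := by
    intro v hv
    obtain ⟨a, b, c, e, z, z', p⟩ := hg v hv
    exact (mem_js.mp p.hu).1
  -- the main point
  have hfib : ∀ u ∈ C, (E.filter (fun v => g v = u)).Nonempty →
      ((E.filter (fun v => g v = u)).card : ℤ) ≤ Qf A C m u := by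
    intro u hu ⟨v, hv⟩
    rw [Finset.mem_filter] at hv
    obtain ⟨hvE, hgv⟩ := hv
    obtain ⟨a, b, c, e, z, z', p⟩ := hg v hvE
    rw [hgv] at p
    have hkey := h.key _ _ (m + 2) rfl (h.link (m + 2) C u hC hu)
    have hjs := h.pent_js m C hC p
    have hsub : E.filter (fun v => g v = u) ⊆ {v, z'} := by
      intro w hw
      rw [Finset.mem_filter] at hw
      rw [Finset.mem_insert, Finset.mem_singleton]
      by_cases hwv : w = v
      · exact Or.inl hwv
      · right
        obtain ⟨a1, b1, c1, e1, y, y', q⟩ := hg w hw.1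
        rw [hw.2] at q
        exact h.pent_two m C hC p q hwv
    by_cases hz : z' ∈ E.filter (fun v => g v = u)
    · have hz' := Finset.mem_filter.mp hz
      obtain ⟨a1, b1, c1, e1, y, y', q⟩ := hg z' hz'.1
      rw [hz'.2] at q
      have h0 : js A C u = ∅ := by
        rw [Finset.eq_empty_iff_forall_notMem]
        intro w hw
        have := hjs w hw
        rw [this] at hw
        exact h.pent_notMem C q hw
      have h1 : (js A C u).card = 0 := by rw [h0, Finset.card_empty]
      have h2 := (Finset.card_le_card hsub).trans Finset.card_le_two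
      unfold Qf
      omega
    · have h1 : (js A C u).card ≤ 1 := by
        rw [Finset.card_le_one]
        intro x hx y hy
        rw [hjs x hx, hjs y hy]
      have h2 : E.filter (fun v => g v = u) ⊆ {v} := by
        intro w hw
        have h3 := hsub hw
        rw [Finset.mem_insert, Finset.mem_singleton] at h3
        rw [Finset.mem_singleton]
        rcases h3 with h3 | h3
        · exact h3
        · rw [h3] at hw
          exact absurd hw hz
      have h3 := Finset.card_le_card h2
      rw [Finset.card_singleton] at h3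
      unfold Qf
      omega
  have hcardE : (E.card : ℤ) = ∑ u ∈ C, ((E.filter (fun v => g v = u)).card : ℤ) := by
    rw [← Nat.cast_sum]
    congr 1
    exact Finset.card_eq_sum_card_fiberwise (fun v hv => hgC v hv)
  have hterm : ∀ u ∈ C, (if u ∈ E then (-1 : ℤ) else 0) +
      ((E.filter (fun v => g v = u)).card : ℤ) ≤ Qf A C m u := by
    intro u hu
    by_cases hne : (E.filter (fun v => g v = u)).Nonempty
    · have h1 := hfib u hu hne
      split_ifs
      · omega
      · omega
    · rw [Finset.not_nonempty_iff_eq_empty] at hne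
      rw [hne, Finset.card_empty]
      split_ifs with huE
      · have := (hex u huE).1
        push_cast
        omega
      · have : ¬ Qf A C m u < 0 := fun h' => huE ((hE u).mpr ⟨hu, h'⟩)
        push_cast
        omega
  have hsum := Finset.sum_le_sum hterm
  rw [Finset.sum_add_distrib, ← hcardE] at hsum
  have h1 : ∑ u ∈ C, (if u ∈ E then (-1 : ℤ) else 0) = - (E.card : ℤ) := by
    rw [← Finset.sum_filter]
    have h2 : C.filter (fun u => u ∈ E) = E := by
      ext u
      rw [Finset.mem_filter]
      exact ⟨fun h' => h'.2, fun h' => ⟨((hE u).mp h').1, h'⟩⟩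
    rw [h2, Finset.sum_const, nsmul_eq_mul]
    ring
  rw [h1] at hsum
  linarith

/-- The inequality for families without suspension points. -/
theorem ns_bound (h : Fam A F) (m : ℕ) (C : Finset V) (hC : F (m + 2) C) (hns : Ns A C) :
    (5 * (m + 2) - 6) * (C.card : ℤ) ≤ 2 * (dg A C : ℤ) := by
  rcases m with _ | m
  · have h1 : dg A C = 2 * C.card := by
      unfold dg
      rw [Finset.sum_congr rfl (fun x hx => h.card_one _ (h.link 1 C x hC hx)), Finset.sum_const,
        smul_eq_mul, mul_comm]
    rw [h1]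
    push_cast
    linarith
  · have h1 := h.sum_Q m C hC hns
    unfold Qf at h1
    rw [Finset.sum_sub_distrib, Finset.sum_add_distrib, Finset.sum_add_distrib,
      Finset.sum_sub_distrib, ← Finset.mul_sum, Finset.sum_const, Finset.sum_const] at h1
    have h2 : (∑ v ∈ C, ((sus A (nb A C v)).card : ℤ)) = ∑ v ∈ C, ((js A C v).card : ℤ) := by
      rw [← Nat.cast_sum, ← Nat.cast_sum, h.double]
    rw [h2] at h1
    have h3 : (∑ v ∈ C, ((nb A C v).card : ℤ)) = (dg A C : ℤ) := by
      unfold dg
      rw [Nat.cast_sum]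
    rw [h3] at h1
    simp only [nsmul_eq_mul] at h1
    push_cast at h1 ⊢
    linarith

/-- Removing a suspension. -/
theorem unsuspend (h : Fam A F) (m : ℕ) (C : Finset V) (hC : F (m + 1) C) (hns : ¬ Ns A C) :
    ∃ L : Finset V, F m L ∧ C.card = L.card + 2 ∧ (sus A C).card = (sus A L).card + 2 ∧
      dg A C = dg A L + 4 * L.card := by
  classical
  unfold Ns at hns
  push Not at hns
  obtain ⟨v, hv, hlt⟩ := hns
  have hpos := Finset.card_pos.mpr (h.na_nonempty m C v hC hv)
  obtain ⟨z, hz⟩ := Finset.card_eq_one.mp (show (na A C v).card = 1 by omega)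
  have hzm : z ∈ na A C v := by rw [hz]; exact Finset.mem_singleton_self z
  have hzm' := mem_na.mp hzm
  have hcard := h.card_eq C v hv
  rw [hz, Finset.card_singleton] at hcard
  -- `z` is adjacent to the link of `v`
  have hzw : ∀ w ∈ nb A C v, A z w := by
    intro w hw
    rw [mem_nb] at hw
    rcases m with _ | m
    · have := h.link 0 C v hC hv
      rw [h.zero] at this
      have h2 : w ∈ nb A C v := mem_nb.mpr hw
      rw [this] at h2
      exact absurd h2 (Finset.notMem_empty w)
    · obtain ⟨y, hy⟩ := h.na_nonempty m (nb A C w) v (h.link (m + 1) C w hC hw.1)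
        (mem_nb.mpr ⟨hv, h.symm _ _ hw.2⟩)
      rw [mem_na, mem_nb] at hy
      have h2 : y ∈ na A C v := mem_na.mpr ⟨hy.1.1, hy.2⟩
      rw [hz, Finset.mem_singleton] at h2
      rw [← h2]
      exact h.symm _ _ hy.1.2
  have hCe : C = insert v (insert z (nb A C v)) := by
    ext y
    rw [Finset.mem_insert, Finset.mem_insert, mem_nb]
    constructor
    · intro hy
      by_cases h1 : y = v
      · exact Or.inl h1
      · by_cases h2 : A v y
        · exact Or.inr (Or.inr ⟨hy, h2⟩)
        · have h3 : y ∈ na A C v := mem_na.mpr ⟨hy, h1, h2⟩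
          rw [hz, Finset.mem_singleton] at h3
          exact Or.inr (Or.inl h3)
    · rintro (rfl | rfl | h1)
      · exact hv
      · exact hzm'.1
      · exact h1.1
  have hvz : v ≠ z := hzm'.2.1.symm
  have hvL : v ∉ nb A C v := fun h' => h.irr v (mem_nb.mp h').2
  have hzL : z ∉ nb A C v := fun h' => hzm'.2.2 (mem_nb.mp h').2
  have hnz : nb A C z = nb A C v := by
    ext y
    constructor
    · intro hy
      rw [mem_nb] at hy
      rw [mem_nb]
      refine ⟨hy.1, ?_⟩
      by_contra hn
      have hyv : y ≠ v := by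
        rintro rfl
        exact hzm'.2.2 (h.symm _ _ hy.2)
      have h3 : y ∈ na A C v := mem_na.mpr ⟨hy.1, hyv, hn⟩
      rw [hz, Finset.mem_singleton] at h3
      rw [h3] at hy
      exact h.irr z hy.2
    · intro hy
      rw [mem_nb]
      exact ⟨(mem_nb.mp hy).1, hzw y hy⟩
  have hsus : sus A C = insert v (insert z (sus A (nb A C v))) := by
    have hw : ∀ w ∈ nb A C v, na A C w = na A (nb A C v) w := by
      intro w hw
      ext y
      rw [mem_na, mem_na]
      constructor
      · rintro ⟨h1, h2, h3⟩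
        refine ⟨?_, h2, h3⟩
        rw [hCe, Finset.mem_insert, Finset.mem_insert] at h1
        rcases h1 with rfl | rfl | h1
        · exact absurd (h.symm _ _ (mem_nb.mp hw).2) h3
        · exact absurd (h.symm _ _ (hzw w hw)) h3
        · exact h1
      · rintro ⟨h1, h2, h3⟩
        exact ⟨(mem_nb.mp h1).1, h2, h3⟩
    have hcz := h.card_eq C z hzm'.1
    rw [hnz] at hcz
    ext x
    rw [Finset.mem_insert, Finset.mem_insert, mem_sus, mem_sus]
    constructor
    · rintro ⟨h1, h2⟩
      rw [hCe, Finset.mem_insert, Finset.mem_insert] at h1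
      rcases h1 with h1 | h1 | h1
      · exact Or.inl h1
      · exact Or.inr (Or.inl h1)
      · right
        right
        rw [hw x h1] at h2
        exact ⟨h1, h2⟩
    · rintro (rfl | rfl | ⟨h1, h2⟩)
      · exact ⟨hv, by rw [hz, Finset.card_singleton]⟩
      · exact ⟨hzm'.1, by omega⟩
      · rw [← hw x h1] at h2
        exact ⟨(mem_nb.mp h1).1, h2⟩
  have hscard : (sus A C).card = (sus A (nb A C v)).card + 2 := by
    rw [hsus, Finset.card_insert_of_notMem, Finset.card_insert_of_notMem]
    · intro h'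
      exact hzL (mem_sus.mp h').1
    · rw [Finset.mem_insert, not_or]
      exact ⟨hvz, fun h' => hvL (mem_sus.mp h').1⟩
  refine ⟨nb A C v, h.link m C v hC hv, by omega, hscard, ?_⟩
  have hsum : dg A C = (nb A C v).card + ((nb A C z).card +
      ∑ w ∈ nb A C v, (nb A C w).card) := by
    unfold dg
    conv_lhs => rw [hCe]
    rw [Finset.sum_insert, Finset.sum_insert hzL]
    · rw [← hCe]
    · rw [Finset.mem_insert, not_or]
      exact ⟨hvz, hvL⟩
  have hw : ∀ w ∈ nb A C v, (nb A C w).card = (nb A (nb A C v) w).card + 2 := by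
    intro w hw
    have h1 : nb A C w = insert v (insert z (nb A (nb A C v) w)) := by
      ext y
      rw [Finset.mem_insert, Finset.mem_insert]
      constructor
      · intro hy
        rw [mem_nb] at hy
        rw [hCe, Finset.mem_insert, Finset.mem_insert] at hy
        rcases hy.1 with h1 | h1 | h1
        · exact Or.inl h1
        · exact Or.inr (Or.inl h1)
        · exact Or.inr (Or.inr (mem_nb.mpr ⟨h1, hy.2⟩))
      · rintro (rfl | rfl | h1)
        · exact mem_nb.mpr ⟨hv, h.symm _ _ (mem_nb.mp hw).2⟩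
        · exact mem_nb.mpr ⟨hzm'.1, h.symm _ _ (hzw w hw)⟩
        · rw [mem_nb] at h1
          exact mem_nb.mpr ⟨(mem_nb.mp h1.1).1, h1.2⟩
    rw [h1, Finset.card_insert_of_notMem, Finset.card_insert_of_notMem]
    · intro h'
      exact hzL (mem_nb.mp h').1
    · rw [Finset.mem_insert, not_or]
      exact ⟨hvz, fun h' => hvL (mem_nb.mp h').1⟩
  rw [hsum, hnz, Finset.sum_congr rfl hw, Finset.sum_add_distrib, Finset.sum_const, smul_eq_mul]
  unfold dg
  omega

/-- Twice `γ₂`. -/
noncomputable def g2 (A : V → V → Prop) (C : Finset V) (d : ℤ) : ℤ :=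
  (dg A C : ℤ) - 2 * (2 * d - 3) * C.card + 4 * d * (d - 2)

/-- Reduction to families without suspension points. -/
theorem reduce (h : Fam A F) : ∀ (m : ℕ) (C : Finset V), F m C →
    ∃ (e : ℕ) (C' : Finset V), e ≤ m ∧ F e C' ∧ (e = 0 ∨ (2 ≤ e ∧ Ns A C')) ∧
      (C.card : ℤ) - 2 * m = (C'.card : ℤ) - 2 * e ∧ g2 A C m = g2 A C' e ∧
      (sus A C).card + 2 * e = 2 * m := by
  intro m
  induction m with
  | zero =>
    intro C hC
    refine ⟨0, C, le_refl _, hC, Or.inl rfl, rfl, rfl, ?_⟩
    rw [(h.zero C).mp hC]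
    rfl
  | succ m ih =>
    intro C hC
    by_cases hns : Ns A C
    · rcases m with _ | m
      · exfalso
        obtain ⟨a, b, hab, hA, hCe⟩ := h.one C hC
        have h1 := h.card_one C hC
        have ha : a ∈ C := by rw [hCe]; simp
        have h2 := hns a ha
        have h3 := h.card_eq C a ha
        omega
      · refine ⟨m + 2, C, le_refl _, hC, Or.inr ⟨by omega, hns⟩, rfl, rfl, ?_⟩
        have h0 : sus A C = ∅ := by
          rw [Finset.eq_empty_iff_forall_notMem]
          intro x hx
          rw [mem_sus] at hx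
          have := hns x hx.1
          omega
        rw [h0, Finset.card_empty]
        omega
    · obtain ⟨L, hL, hcard, hs, hdg⟩ := h.unsuspend m C hC hns
      obtain ⟨e, C', he, hF, hcase, hb, hg, hse⟩ := ih L hL
      refine ⟨e, C', by omega, hF, hcase, ?_, ?_, by omega⟩
      · rw [← hb, hcard]
        push_cast
        ring
      · rw [← hg]
        unfold g2
        rw [hcard, hdg]
        push_cast
        ring

theorem gamma_ns (h : Fam A F) (m : ℕ) (C : Finset V) (hC : F (m + 2) C) (hns : Ns A C) :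
    ((m + 2 : ℕ) - 2 : ℤ) * (2 * (m + 2 : ℕ) - 3 * ((C.card : ℤ) - 2 * (m + 2 : ℕ))) ≤
      2 * g2 A C (m + 2 : ℕ) := by
  have h1 := h.ns_bound m C hC hns
  unfold g2
  push_cast at h1 ⊢
  nlinarith [h1]

theorem gamma_all (h : Fam A F) (m : ℕ) (C : Finset V) (hC : F m C) :
    ((2 * m - (sus A C).card - 4 : ℕ) : ℤ) *
      (2 * m - (sus A C).card - 3 * ((C.card : ℤ) - 2 * m)) ≤ 4 * g2 A C m := by
  obtain ⟨e, C', he, hF, hcase, hb, hg, hs⟩ := h.reduce m C hC
  rw [hb, hg]
  have hs' : (2 * m : ℤ) - (sus A C).card = 2 * e := by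
    have : ((sus A C).card : ℤ) + 2 * e = 2 * m := by exact_mod_cast hs
    linarith
  have hs2 : 2 * m - (sus A C).card - 4 = 2 * e - 4 := by omega
  rw [hs', hs2]
  rcases hcase with rfl | ⟨h2, hns⟩
  · have h0 := (h.zero C').mp hF
    rw [h0]
    have h1 : g2 A (∅ : Finset V) ((0 : ℕ) : ℤ) = 0 := by
      unfold g2 dg
      simp
    rw [h1]
    simp
  · obtain ⟨e, rfl⟩ : ∃ e', e = e' + 2 := ⟨e - 2, by omega⟩
    have h1 := h.gamma_ns e C' hF hns
    have h3 : ((2 * (e + 2) - 4 : ℕ) : ℤ) = 2 * (((e + 2 : ℕ) : ℤ) - 2) := by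
      rw [show 2 * (e + 2) - 4 = 2 * e by omega]
      push_cast
      ring
    rw [h3]
    linarith

end Fam

end Pool.Agent.MP19e880.Low
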