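import Pool.Agent.Lib.MP_19e880_co.LowD
import Pool.Agent.Lib.MP_19e880_co.Irr

/-!
The vertex sets of the links of a flag homology sphere.
-/

set_option autoImplicit false
set_option linter.unusedSectionVars false
set_option linter.unusedVariables false

namespace Pool.Agent.MP19e880

variable {V : Type} [Fintype V] [LinearOrder V] {k : Type} [Field k]

/-- Adjacency. -/
def Adj (S : Finset (Finset V)) (a b : V) : Prop := a ≠ b ∧ ({a, b} : Finset V) ∈ S

/-- `C` is the vertex set of a link of dimension parameter `m`. -/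
def Lk (S : Finset (Finset V)) (d m : ℕ) (C : Finset V) : Prop :=
  ∃ τ ∈ S, lv S τ = C ∧ τ.card + m = d

/-- If two points are joined by a one-chain, they lie in the same closed sets. -/
theorem con_of_chain (P : Finset V → Prop) (x y : V) (hxy : x ≠ y) (c : Finset V → k)
    (hc : Ch P 2 c) (hb : bd c = sg k ({x} : Finset V) - sg k ({y} : Finset V)) (Q : V → Prop)
    (hQ : ∀ a b : V, a ≠ b → P {a, b} → Q a → Q b) (hx : Q x) : Q y := by
  classical
  by_contra hy
  let e : Finset V → k := fun A => if ∀ w ∈ A, Q w then c A else 0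
  have he : ∀ w : V, bd e {w} = if Q w then bd c {w} else 0 := by
    intro w
    simp only [bd]
    by_cases hw : Q w
    · rw [if_pos hw]
      refine Finset.sum_congr rfl fun v hv => ?_
      congr 1
      by_cases hv2 : c (insert v {w}) = 0
      · simp only [e]
        rw [hv2]
        split_ifs <;> rfl
      · have hL := (hc _ hv2).1
        rw [Finset.mem_compl, Finset.mem_singleton] at hv
        have hvw := hQ w v (fun h' => hv h'.symm) (by rw [Finset.pair_comm]; exact hL) hw
        simp only [e]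
        rw [if_pos]
        intro u hu
        rw [Finset.mem_insert, Finset.mem_singleton] at hu
        rcases hu with rfl | rfl
        · exact hvw
        · exact hw
    · rw [if_neg hw]
      refine Finset.sum_eq_zero fun v _ => ?_
      have : e (insert v {w}) = 0 := by
        simp only [e]
        rw [if_neg]
        intro h'
        exact hw (h' w (by simp))
      rw [this, mul_zero]
  have hbb := congrFun (bd_bd e) ∅
  have hne : ({y} : Finset V) ≠ {x} := by
    intro h'
    exact hxy (Finset.singleton_injective h').symm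
  have hsum : bd (bd e) ∅ = 1 := by
    have h1 : bd (bd e) ∅ = ∑ w : V, bd e {w} := by
      conv_lhs => unfold bd
      simp only [Finset.compl_empty]
      refine Finset.sum_congr rfl fun w _ => ?_
      rw [eps_empty, one_mul]
      rfl
    rw [h1, Finset.sum_eq_single x]
    · rw [he, if_pos hx, hb]
      simp only [Pi.sub_apply, sg, if_true]
      rw [if_neg (fun h' => hne h'.symm), sub_zero]
    · intro w _ hw
      rw [he]
      split_ifs with h'
      · rw [hb]
        have hwy : w ≠ y := by
          rintro rfl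
          exact hy h'
        simp only [Pi.sub_apply, sg]
        rw [if_neg (fun h'' => hw (Finset.singleton_injective h'')),
          if_neg (fun h'' => hwy (Finset.singleton_injective h'')), sub_zero]
      · rfl
    · intro h'
      exact absurd (Finset.mem_univ _) h'
  rw [hsum, Pi.zero_apply] at hbb
  exact one_ne_zero hbb

theorem nb_lv {S : Finset (Finset V)} {d : ℕ} (h : HS k S d) (hE : Eul S d) (σ : Finset V)
    (x : V) (hx : x ∈ lv S σ) : Low.nb (Adj S) (lv S σ) x = lv S (insert x σ) := by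
  ext y
  rw [Low.mem_nb, mem_lv_insert h hE σ x y hx]
  unfold Adj
  constructor
  · rintro ⟨h1, h2, h3⟩
    exact ⟨h1, h2.symm, h3⟩
  · rintro ⟨h1, h2, h3⟩
    exact ⟨h1, h2.symm, h3⟩

theorem lk_join {S : Finset (Finset V)} {d : ℕ} (h : HS k S d) (hE : Eul S d)
    (m : ℕ) (τ X P : Finset V) (hτ : τ ∈ S) (hm : τ.card + m = d) (hX : X ⊆ lv S τ)
    (hcp : Low.Cp (Adj S) (lv S τ) X) (hP1 : Disjoint P τ) (hP2 : P ∪ τ ∈ S)
    (hP3 : P.card + τ.card = d) : Lk S d (P ∩ X).card X := by
  have hPlv : P ⊆ lv S τ := by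
    intro y hy
    rw [mem_lv]
    exact ⟨Finset.disjoint_left.mp hP1 hy, hE.down _ hP2 _
      (Finset.insert_subset (Finset.mem_union_left _ hy) Finset.subset_union_right)⟩
  have hpair : ∀ y ∈ lv S τ, ({y, y} : Finset V) ∈ S := fun y hy =>
    pair_mem hE _ ((mem_lv τ y).mp hy).2 y y (Finset.mem_insert_self _ _)
      (Finset.mem_insert_self _ _)
  have hmax : ∀ y ∈ lv S τ, (∀ a ∈ P, ({y, a} : Finset V) ∈ S) → y ∈ P := by
    intro y hy hya
    by_contra hyP
    have h1 : insert y P ∪ τ ∈ S := by
      refine lv_flag hE τ (insert y P) hτ (Finset.insert_subset hy hPlv) ?_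
      intro a ha b hb
      rw [Finset.mem_insert] at ha hb
      rcases ha with rfl | ha <;> rcases hb with rfl | hb
      · exact hpair _ hy
      · exact hya b hb
      · rw [Finset.pair_comm]; exact hya a ha
      · exact pair_mem hE _ hP2 a b (Finset.mem_union_left _ ha) (Finset.mem_union_left _ hb)
    have h2 := hE.le _ h1
    rw [Finset.insert_union, Finset.card_insert_of_notMem (by
      rw [Finset.mem_union, not_or]
      exact ⟨hyP, ((mem_lv τ _).mp hy).1⟩), Finset.card_union_of_disjoint hP1] at h2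
    omega
  have hdis : Disjoint (P \ X) τ := Finset.disjoint_of_subset_left Finset.sdiff_subset hP1
  refine ⟨(P \ X) ∪ τ, hE.down _ hP2 _ (Finset.union_subset_union_left Finset.sdiff_subset),
    ?_, ?_⟩
  · ext y
    constructor
    · intro hy
      have hy' := (mem_lv _ y).mp hy
      rw [Finset.mem_union, not_or] at hy'
      have hyl : y ∈ lv S τ := (mem_lv τ y).mpr ⟨hy'.1.2, hE.down _ hy'.2 _
        (Finset.insert_subset_insert _ Finset.subset_union_right)⟩
      by_contra hyX
      have hyP : y ∈ P := by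
        refine hmax y hyl ?_
        intro a ha
        by_cases haX : a ∈ X
        · rw [Finset.pair_comm]
          exact (hcp a haX y hyl hyX).2
        · exact pair_mem hE _ hy'.2 y a (Finset.mem_insert_self _ _)
            (Finset.mem_insert_of_mem (Finset.mem_union_left _ (Finset.mem_sdiff.mpr ⟨ha, haX⟩)))
      exact hy'.1.1 (Finset.mem_sdiff.mpr ⟨hyP, hyX⟩)
    · intro hyX
      have hyl := hX hyX
      rw [mem_lv]
      constructor
      · rw [Finset.mem_union, not_or]
        exact ⟨fun h' => (Finset.mem_sdiff.mp h').2 hyX, ((mem_lv τ y).mp hyl).1⟩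
      · rw [← Finset.insert_union]
        refine lv_flag hE τ (insert y (P \ X)) hτ (Finset.insert_subset hyl
          (Finset.sdiff_subset.trans hPlv)) ?_
        intro a ha b hb
        rw [Finset.mem_insert, Finset.mem_sdiff] at ha hb
        rcases ha with rfl | ha <;> rcases hb with rfl | hb
        · exact hpair _ hyl
        · exact (hcp _ hyX b (hPlv hb.1) hb.2).2
        · rw [Finset.pair_comm]
          exact (hcp _ hyX a (hPlv ha.1) ha.2).2
        · exact pair_mem hE _ hP2 a b (Finset.mem_union_left _ ha.1) (Finset.mem_union_left _ hb.1)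
  · rw [Finset.card_union_of_disjoint hdis]
    have := Finset.card_inter_add_card_sdiff P X
    omega

theorem fam {S : Finset (Finset V)} {d : ℕ} (h : HS k S d) (hE : Eul S d) :
    Low.Fam (Adj S) (Lk S d) where
  symm := by
    rintro x y ⟨h1, h2⟩
    exact ⟨h1.symm, by rw [Finset.pair_comm]; exact h2⟩
  irr := by
    rintro x ⟨h1, _⟩
    exact h1 rfl
  zero := by
    intro C
    constructor
    · rintro ⟨τ, hτ, rfl, hc⟩
      rw [Finset.eq_empty_iff_forall_notMem]
      intro y hy
      rw [mem_lv] at hy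
      have := hE.le _ hy.2
      rw [Finset.card_insert_of_notMem hy.1] at this
      omega
    · rintro rfl
      obtain ⟨P, hP1, hP2, hP3⟩ := exists_facet h ∅ (hE.flag ∅ (by simp))
      rw [Finset.union_empty] at hP2
      rw [Finset.card_empty] at hP3
      refine ⟨P, hP2, ?_, hP3⟩
      rw [Finset.eq_empty_iff_forall_notMem]
      intro y hy
      rw [mem_lv] at hy
      have := hE.le _ hy.2
      rw [Finset.card_insert_of_notMem hy.1] at this
      omega
  one := by
    rintro C ⟨τ, hτ, rfl, hc⟩
    obtain ⟨a, b, hab, hlv⟩ := Finset.card_eq_two.mp (HS.two hE τ hτ hc)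
    refine ⟨a, b, hab, ?_, hlv⟩
    rintro ⟨_, hA⟩
    have ha : a ∈ lv S τ := by rw [hlv]; simp
    have hb : b ∈ lv S τ := by rw [hlv]; simp
    have h1 := h.flag_insert τ a b ((mem_lv τ a).mp ha).2 ((mem_lv τ b).mp hb).2 (by
      rw [Finset.pair_comm]; exact hA)
    have h2 := hE.le _ h1
    rw [Finset.card_insert_of_notMem, Finset.card_insert_of_notMem ((mem_lv τ b).mp hb).1] at h2
    · omega
    · rw [Finset.mem_insert, not_or]
      exact ⟨hab, ((mem_lv τ a).mp ha).1⟩
  link := by
    rintro m C x ⟨τ, hτ, rfl, hc⟩ hx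
    have hx' := (mem_lv τ x).mp hx
    refine ⟨insert x τ, hx'.2, (nb_lv h hE τ x hx).symm, ?_⟩
    rw [Finset.card_insert_of_notMem hx'.1]
    omega
  ne := by
    rintro m C ⟨τ, hτ, rfl, hc⟩
    obtain ⟨v, hv, hv2⟩ := h.extend τ hτ (by omega)
    exact ⟨v, (mem_lv τ v).mpr ⟨hv, hv2⟩⟩
  conn := by
    rintro m C ⟨τ, hτ, rfl, hc⟩ X hX hXn hXC
    by_contra hcon
    push Not at hcon
    obtain ⟨x, hx⟩ := hXn
    obtain ⟨y, hy, hyX⟩ : ∃ y ∈ lv S τ, y ∉ X := by
      by_contra h'
      push Not at h'
      exact hXC (Finset.Subset.antisymm hX h')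
    have hx' := (mem_lv τ x).mp (hX hx)
    have hy' := (mem_lv τ y).mp hy
    have hxy : x ≠ y := by
      rintro rfl
      exact hyX hx
    have hcx : Ch (LX S τ ∅) 1 (sg k ({x} : Finset V)) := by
      refine sg_ch _ _ _ ⟨by simpa using hx'.1, ?_, Finset.disjoint_empty_right _⟩ (by simp)
      rw [Finset.singleton_union]
      exact hx'.2
    have hcy : Ch (LX S τ ∅) 1 (sg k ({y} : Finset V)) := by
      refine sg_ch _ _ _ ⟨by simpa using hy'.1, ?_, Finset.disjoint_empty_right _⟩ (by simp)
      rw [Finset.singleton_union]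
      exact hy'.2
    obtain ⟨c, hcc, hbc⟩ := h.ex τ hτ 1 (by omega) _ (hcx.sub hcy) (by
      rw [bd_sub, bd_sg_single, bd_sg_single, sub_self])
    refine hyX (con_of_chain _ x y hxy c hcc hbc (fun v => v ∈ X) ?_ hx)
    rintro a b hab ⟨h1, h2, _⟩ ha
    by_contra hb
    refine hcon a ha b ?_ hb ⟨hab, hE.down _ h2 _ Finset.subset_union_left⟩
    rw [mem_lv]
    refine ⟨fun h' => Finset.disjoint_left.mp h1 (by simp) h', hE.down _ h2 _ ?_⟩
    exact Finset.insert_subset (Finset.mem_union_left _ (by simp)) Finset.subset_union_right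
  mconn := by
    rintro m C x ⟨τ, hτ, rfl, hc⟩ hx X hX hXn hXC
    by_contra hcon
    push Not at hcon
    have hx' := (mem_lv τ x).mp hx
    obtain ⟨u, hu⟩ := hXn
    obtain ⟨y, hy, hyX⟩ : ∃ y ∈ Low.na (Adj S) (lv S τ) x, y ∉ X := by
      by_contra h'
      push Not at h'
      exact hXC (Finset.Subset.antisymm hX h')
    have huy : u ≠ y := by
      rintro rfl
      exact hyX hu
    have hNb : ∀ w ∈ Low.na (Adj S) (lv S τ) x, w ∉ Nb S x := by
      intro w hw hw2
      rw [Low.mem_na] at hw
      unfold Nb at hw2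
      rw [Finset.mem_filter] at hw2
      exact hw.2.2 ⟨hw.2.1.symm, by rw [Finset.pair_comm]; exact hw2.2⟩
    have hch : ∀ w ∈ Low.na (Adj S) (lv S τ) x, Ch (LX S τ (Nb S x)) 1 (sg k ({w} : Finset V)) := by
      intro w hw
      have hw' := (mem_lv τ w).mp (Low.mem_na.mp hw).1
      refine sg_ch _ _ _ ⟨by simpa using hw'.1, ?_, ?_⟩ (by simp)
      · rw [Finset.singleton_union]
        exact hw'.2
      · rw [Finset.disjoint_singleton_left]
        exact hNb w hw
    obtain ⟨c, hcc, hbc⟩ := h.acyc_K τ hτ x hx'.1 hx'.2 1 _ ((hch u (hX hu)).sub (hch y hy)) (by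
      rw [bd_sub, bd_sg_single, bd_sg_single, sub_self])
    refine hyX (con_of_chain _ u y huy c hcc hbc (fun v => v ∈ X) ?_ hu)
    rintro a b hab ⟨h1, h2, h3⟩ ha
    by_contra hb
    refine hcon a ha b ?_ hb ⟨hab, hE.down _ h2 _ Finset.subset_union_left⟩
    rw [Low.mem_na, mem_lv]
    have hbN : b ∉ Nb S x := fun h' => Finset.disjoint_left.mp h3 (by simp) h'
    refine ⟨⟨fun h' => Finset.disjoint_left.mp h1 (by simp) h', hE.down _ h2 _ ?_⟩, ?_, ?_⟩
    · exact Finset.insert_subset (Finset.mem_union_left _ (by simp)) Finset.subset_union_right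
    · rintro rfl
      apply hbN
      unfold Nb
      rw [Finset.mem_filter]
      exact ⟨Finset.mem_univ _, pair_mem hE _ hx'.2 _ _ (Finset.mem_insert_self _ _)
        (Finset.mem_insert_self _ _)⟩
    · rintro ⟨_, h'⟩
      apply hbN
      unfold Nb
      rw [Finset.mem_filter, Finset.pair_comm]
      exact ⟨Finset.mem_univ _, h'⟩
  join := by
    rintro m C X ⟨τ, hτ, rfl, hc⟩ hX hXn hXC hcp
    obtain ⟨P, hP1, hP2, hP3⟩ := exists_facet h τ hτ
    have hPlv : P ⊆ lv S τ := by
      intro y hy
      rw [mem_lv]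
      exact ⟨Finset.disjoint_left.mp hP1 hy, hE.down _ hP2 _
        (Finset.insert_subset (Finset.mem_union_left _ hy) Finset.subset_union_right)⟩
    refine ⟨(P ∩ X).card, (P ∩ (lv S τ \ X)).card, ?_, lk_join h hE m τ X P hτ hc hX hcp hP1 hP2
      hP3, lk_join h hE m τ (lv S τ \ X) P hτ hc Finset.sdiff_subset ?_ hP1 hP2 hP3⟩
    · have h1 : P ∩ (lv S τ \ X) = P \ X := by
        ext y
        rw [Finset.mem_inter, Finset.mem_sdiff, Finset.mem_sdiff]
        exact ⟨fun h' => ⟨h'.1, h'.2.2⟩, fun h' => ⟨h'.1, hPlv h'.1, h'.2⟩⟩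
      rw [h1, Finset.card_inter_add_card_sdiff]
      omega
    · intro a ha b hb hbX
      rw [Finset.mem_sdiff] at ha hbX
      have hbX' : b ∈ X := by
        by_contra h'
        exact hbX ⟨hb, h'⟩
      have := hcp b hbX' a ha.1 ha.2
      exact ⟨this.1.symm, by rw [Finset.pair_comm]; exact this.2⟩
  bound := by
    rintro m C ⟨τ, hτ, rfl, hc⟩ hci
    refine irr_bound h hE m τ hτ hc ?_
    intro X hX hXn hXC
    obtain ⟨a, ha, b, hb, hbX, hab⟩ := hci X hX hXn hXC
    refine ⟨a, ha, b, Finset.mem_sdiff.mpr ⟨hb, hbX⟩, ?_⟩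
    intro h'
    refine hab ⟨?_, h'⟩
    rintro rfl
    exact hbX ha

/-- The sum of the degrees is twice the number of edges. -/
theorem dg_eq {S : Finset (Finset V)} {d : ℕ} (h : HS k S d) (hE : Eul S d) :
    Low.dg (Adj S) (lv S ∅) = 2 * (S.filter (fun G => G.card = 2)).card := by
  have h0 : (∅ : Finset V) ∈ S := hE.flag ∅ (by simp)
  have h1 := count S hE.down ∅ 1
  unfold Low.dg
  have h2 : ∀ v ∈ lv S ∅, (Low.nb (Adj S) (lv S ∅) v).card = fn S (insert v ∅) 1 := by
    intro v hv
    rw [fn_one S hE.down, nb_lv h hE ∅ v hv]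
  rw [Finset.sum_congr rfl h2, h1]
  have h3 : fn S ∅ (1 + 1) = (S.filter (fun G => G.card = 2)).card := by
    unfold fn
    congr 1
    refine Finset.filter_congr fun F _ => ?_
    simp
  rw [h3]

end Pool.Agent.MP19e880
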