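import Pool.Agent.Lib.MP_19e880_co.LowE
import Pool.Agent.Lib.MP_19e880_co.Derive

/-!
The first coefficients of the gamma vector.
-/

set_option autoImplicit false
set_option linter.unusedSectionVars false
set_option linter.unusedVariables false

namespace Pool.Agent.MP19e880

open Polynomial

theorem low_coeff (N : ℕ) (hN : 3 ≤ N) (g : ℕ → ℤ) (q : ℕ → ℤ[X]) :
    (∑ j ∈ Finset.range N, C (g j) * X ^ j * q j).coeff 0 = g 0 * (q 0).coeff 0 ∧
    (∑ j ∈ Finset.range N, C (g j) * X ^ j * q j).coeff 1 =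
      g 0 * (q 0).coeff 1 + g 1 * (q 1).coeff 0 ∧
    (∑ j ∈ Finset.range N, C (g j) * X ^ j * q j).coeff 2 =
      g 0 * (q 0).coeff 2 + g 1 * (q 1).coeff 1 + g 2 * (q 2).coeff 0 := by
  have key : ∀ k : ℕ, (∑ j ∈ Finset.range N, C (g j) * X ^ j * q j).coeff k =
      ∑ j ∈ Finset.range N, g j * (if j ≤ k then (q j).coeff (k - j) else 0) := by
    intro k
    rw [finsetSum_coeff]
    refine Finset.sum_congr rfl fun j _ => ?_
    rw [mul_assoc, coeff_C_mul, coeff_X_pow_mul']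
  obtain ⟨M, rfl⟩ : ∃ M, N = M + 3 := ⟨N - 3, by omega⟩
  refine ⟨?_, ?_, ?_⟩
  · rw [key, Finset.sum_range_succ', Finset.sum_range_succ', Finset.sum_range_succ']
    simp
  · rw [key, Finset.sum_range_succ', Finset.sum_range_succ', Finset.sum_range_succ']
    simp
    ring
  · rw [key, Finset.sum_range_succ', Finset.sum_range_succ', Finset.sum_range_succ']
    simp
    ring

theorem one_sub_pow_coeff (n : ℕ) : ((1 - X : ℤ[X]) ^ n).coeff 0 = 1 ∧
    ((1 - X : ℤ[X]) ^ n).coeff 1 = -(n : ℤ) ∧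
    2 * ((1 - X : ℤ[X]) ^ n).coeff 2 = (n : ℤ) * (n - 1) := by
  induction n with
  | zero =>
    refine ⟨by simp, ?_, ?_⟩
    · simp [coeff_one]
    · simp [coeff_one]
  | succ n ih =>
    obtain ⟨h0, h1, h2⟩ := ih
    have e : (1 - X : ℤ[X]) ^ (n + 1) = (1 - X) ^ n - X * (1 - X) ^ n := by ring
    rw [e]
    refine ⟨?_, ?_, ?_⟩
    · rw [coeff_sub, coeff_X_mul_zero, h0, sub_zero]
    · rw [coeff_sub, coeff_X_mul, h0, h1]
      push_cast
      ring
    · rw [coeff_sub, coeff_X_mul, h1, mul_sub, h2]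
      push_cast
      ring

theorem one_add_pow_coeff (n : ℕ) : ((1 + X : ℤ[X]) ^ n).coeff 0 = 1 ∧
    ((1 + X : ℤ[X]) ^ n).coeff 1 = (n : ℤ) ∧
    2 * ((1 + X : ℤ[X]) ^ n).coeff 2 = (n : ℤ) * (n - 1) := by
  induction n with
  | zero =>
    refine ⟨by simp, ?_, ?_⟩
    · simp [coeff_one]
    · simp [coeff_one]
  | succ n ih =>
    obtain ⟨h0, h1, h2⟩ := ih
    have e : (1 + X : ℤ[X]) ^ (n + 1) = (1 + X) ^ n + X * (1 + X) ^ n := by ring
    rw [e]
    refine ⟨?_, ?_, ?_⟩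
    · rw [coeff_add, coeff_X_mul_zero, h0, add_zero]
    · rw [coeff_add, coeff_X_mul, h0, h1]
      push_cast
      ring
    · rw [coeff_add, coeff_X_mul, h1, mul_add, h2]
      push_cast
      ring

/-- The first two entries of the gamma vector, from the polynomial identity. -/
theorem gamma_entries (d : ℕ) (hd : 4 ≤ d) (f γ : ℕ → ℤ) (h0 : f 0 = 1)
    (h : ∑ j ∈ Finset.range (d + 1), C (f j) * X ^ j * (1 - X) ^ (d - j) =
      ∑ i ∈ Finset.range (d / 2 + 1), C (γ i) * X ^ i * (1 + X : ℤ[X]) ^ (d - 2 * i)) :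
    γ 1 = f 1 - 2 * d ∧ γ 2 = f 2 - (2 * d - 3) * f 1 + 2 * d * (d - 2) := by
  obtain ⟨a0, a1, a2⟩ := low_coeff (d + 1) (by omega) f (fun j => (1 - X) ^ (d - j))
  obtain ⟨b0, b1, b2⟩ := low_coeff (d / 2 + 1) (by omega) γ (fun i => (1 + X) ^ (d - 2 * i))
  rw [h] at a0 a1 a2
  rw [a0] at b0
  rw [a1] at b1
  rw [a2] at b2
  rw [Nat.sub_zero] at b0 b1 b2
  obtain ⟨p0, p1, p2⟩ := one_sub_pow_coeff d
  obtain ⟨q0, q1, q2⟩ := one_sub_pow_coeff (d - 1)
  obtain ⟨r0, r1, r2⟩ := one_sub_pow_coeff (d - 2)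
  obtain ⟨s0, s1, s2⟩ := one_add_pow_coeff d
  obtain ⟨t0, t1, t2⟩ := one_add_pow_coeff (d - 2)
  obtain ⟨u0, u1, u2⟩ := one_add_pow_coeff (d - 4)
  have e1 : ((d - 1 : ℕ) : ℤ) = (d : ℤ) - 1 := by push_cast [show 1 ≤ d by omega]; ring
  have e2 : ((d - 2 : ℕ) : ℤ) = (d : ℤ) - 2 := by push_cast [show 2 ≤ d by omega]; ring
  rw [show 2 * 1 = 2 from rfl] at b1 b2
  rw [show 2 * 2 = 4 from rfl] at b2
  rw [h0, p0, s0] at b0
  have g0 : γ 0 = 1 := by linarith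
  rw [h0, p1, q0, s1, t0, g0] at b1
  have g1 : γ 1 = f 1 - 2 * d := by linarith
  refine ⟨g1, ?_⟩
  rw [h0, q1, r0, t1, u0, g0, g1, e1, e2] at b2
  have hps : ((1 - X : ℤ[X]) ^ d).coeff 2 = ((1 + X : ℤ[X]) ^ d).coeff 2 := by linarith
  linear_combination (-1) * b2 + hps

/-- The first two entries of the gamma vector of a family of finite sets. -/
theorem gamma_entries_S {n : ℕ} (d : ℕ) (S : Finset (Finset (Fin n))) (hd : 4 ≤ d) (γ : ℕ → ℤ)
    (h0 : (((S.filter (fun G => G.card = 0)).card : ℕ) : ℤ) = 1)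
    (h : ∑ j ∈ Finset.range (d + 1),
          Polynomial.C (((S.filter (fun G => G.card = j)).card : ℕ) : ℤ)
            * Polynomial.X ^ j * (1 - Polynomial.X) ^ (d - j)
        = ∑ i ∈ Finset.range (d / 2 + 1),
          Polynomial.C (γ i) * Polynomial.X ^ i * (1 + Polynomial.X) ^ (d - 2 * i)) :
    γ 1 = (((S.filter (fun G => G.card = 1)).card : ℕ) : ℤ) - 2 * d ∧
      γ 2 = (((S.filter (fun G => G.card = 2)).card : ℕ) : ℤ)
        - (2 * d - 3) * (((S.filter (fun G => G.card = 1)).card : ℕ) : ℤ) + 2 * d * (d - 2) := by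
  set f : ℕ → ℤ := fun j => (((S.filter (fun G => G.card = j)).card : ℕ) : ℤ) with hf
  have e0 : f 0 = 1 := h0
  have e1 : ∑ j ∈ Finset.range (d + 1), C (f j) * X ^ j * (1 - X) ^ (d - j) =
      ∑ i ∈ Finset.range (d / 2 + 1), C (γ i) * X ^ i * (1 + X : ℤ[X]) ^ (d - 2 * i) := h
  have := gamma_entries d hd f γ e0 e1
  exact this

end Pool.Agent.MP19e880
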