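import Pool.Agent.Lib.MP_19e880_co.Chain

/-!
From ranks of boundary matrices to exactness.
-/

set_option autoImplicit false
set_option linter.unusedSectionVars false

namespace Pool.Agent.MP19e880

variable {V : Type} [Fintype V] [LinearOrder V] {k : Type} [Field k]

/-- The members of `L` with `j` elements. -/
abbrev Lev (L : Finset (Finset V)) (j : ℕ) : Type :=
  {B : Finset V // B ∈ L.filter (fun A => A.card = j)}

/-- The boundary matrix. -/
def Mt (k : Type) [Field k] (L : Finset (Finset V)) (j : ℕ) :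
    Matrix (Lev L (j - 1)) (Lev L j) k :=
  Matrix.of (fun A B => ∑ v ∈ B.1, if B.1.erase v = A.1
    then (-1 : k) ^ (B.1.filter (fun w => w < v)).card else 0)

/-- Extension by zero. -/
def ext (L : Finset (Finset V)) (j : ℕ) (c : Lev L j → k) : Finset V → k :=
  fun B => if h : B ∈ L.filter (fun A => A.card = j) then c ⟨B, h⟩ else 0

theorem ext_ch (L : Finset (Finset V)) (j : ℕ) (c : Lev L j → k) :
    Ch (fun B => B ∈ L) j (ext L j c) := by
  intro A hA
  unfold ext at hA
  split_ifs at hA with h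
  · exact Finset.mem_filter.mp h
  · exact absurd rfl hA

theorem mulVec_eq (L : Finset (Finset V)) (j : ℕ) (c : Lev L j → k) (A : Lev L (j - 1)) :
    (Mt k L j).mulVec c A = bd (ext L j c) A.1 := by
  classical
  simp only [Matrix.mulVec, dotProduct, Mt, Matrix.of_apply, bd]
  have h1 : ∀ B : Lev L j, (∑ v ∈ B.1, if B.1.erase v = A.1
      then (-1 : k) ^ (B.1.filter (fun w => w < v)).card else 0) * c B =
      (∑ v ∈ B.1, if B.1.erase v = A.1
      then (-1 : k) ^ (B.1.filter (fun w => w < v)).card else 0) * ext L j c B.1 := by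
    intro B
    have : ext L j c B.1 = c B := by
      unfold ext
      rw [dif_pos B.2]
    rw [this]
  rw [Finset.sum_congr rfl fun B _ => h1 B]
  have h2 : ∑ B : Lev L j, (∑ v ∈ B.1, if B.1.erase v = A.1
      then (-1 : k) ^ (B.1.filter (fun w => w < v)).card else 0) * ext L j c B.1 =
      ∑ B ∈ L.filter (fun A => A.card = j), (∑ v ∈ B, if B.erase v = A.1
      then (-1 : k) ^ (B.filter (fun w => w < v)).card else 0) * ext L j c B := by
    rw [← Finset.sum_coe_sort (L.filter (fun A => A.card = j))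
      (fun B => (∑ v ∈ B, if B.erase v = A.1
      then (-1 : k) ^ (B.filter (fun w => w < v)).card else 0) * ext L j c B)]
  rw [h2]
  have h3 : ∑ B ∈ L.filter (fun A => A.card = j), (∑ v ∈ B, if B.erase v = A.1
      then (-1 : k) ^ (B.filter (fun w => w < v)).card else 0) * ext L j c B =
      ∑ B : Finset V, (∑ v ∈ B, if B.erase v = A.1
      then (-1 : k) ^ (B.filter (fun w => w < v)).card else 0) * ext L j c B := by
    refine Finset.sum_subset (Finset.subset_univ _) fun B _ hB => ?_
    have : ext L j c B = 0 := by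
      unfold ext
      rw [dif_neg hB]
    rw [this, mul_zero]
  rw [h3]
  simp only [Finset.sum_mul]
  have h4 : ∀ B : Finset V, (∑ v ∈ B, (if B.erase v = A.1
      then (-1 : k) ^ (B.filter (fun w => w < v)).card else 0) * ext L j c B) =
      ∑ v : V, if v ∈ B ∧ B.erase v = A.1 then
        (-1 : k) ^ (B.filter (fun w => w < v)).card * ext L j c B else 0 := by
    intro B
    rw [← Finset.sum_filter_add_sum_filter_not (Finset.univ : Finset V) (fun v => v ∈ B)]
    have h5 : ∑ v ∈ (Finset.univ : Finset V).filter (fun v => ¬ v ∈ B),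
        (if v ∈ B ∧ B.erase v = A.1 then
        (-1 : k) ^ (B.filter (fun w => w < v)).card * ext L j c B else 0) = 0 := by
      refine Finset.sum_eq_zero fun v hv => ?_
      rw [Finset.mem_filter] at hv
      rw [if_neg (fun h => hv.2 h.1)]
    rw [h5, add_zero]
    have h6 : (Finset.univ : Finset V).filter (fun v => v ∈ B) = B := by
      ext v
      simp
    rw [h6]
    refine Finset.sum_congr rfl fun v hv => ?_
    by_cases h : B.erase v = A.1
    · rw [if_pos h, if_pos ⟨hv, h⟩]
    · rw [if_neg h, if_neg (fun h' => h h'.2), zero_mul]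
  rw [Finset.sum_congr rfl fun B _ => h4 B, Finset.sum_comm]
  rw [← Finset.sum_filter_add_sum_filter_not (Finset.univ : Finset V) (fun v => v ∈ A.1ᶜ)]
  have h7 : ∑ v ∈ (Finset.univ : Finset V).filter (fun v => ¬ v ∈ A.1ᶜ), ∑ B : Finset V,
      (if v ∈ B ∧ B.erase v = A.1 then
        (-1 : k) ^ (B.filter (fun w => w < v)).card * ext L j c B else 0) = 0 := by
    refine Finset.sum_eq_zero fun v hv => Finset.sum_eq_zero fun B _ => ?_
    rw [Finset.mem_filter, Finset.mem_compl, not_not] at hv
    rw [if_neg]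
    rintro ⟨_, h⟩
    rw [← h] at hv
    exact Finset.notMem_erase v B hv.2
  rw [h7, add_zero]
  have h8 : (Finset.univ : Finset V).filter (fun v => v ∈ A.1ᶜ) = A.1ᶜ := by
    ext v
    simp
  rw [h8]
  refine Finset.sum_congr rfl fun v hv => ?_
  rw [Finset.mem_compl] at hv
  rw [Finset.sum_eq_single (insert v A.1)]
  · rw [if_pos ⟨Finset.mem_insert_self _ _, Finset.erase_insert hv⟩]
    have h9 : (insert v A.1).filter (fun w => w < v) = A.1.filter (fun w => w < v) := by
      rw [Finset.filter_insert, if_neg (lt_irrefl v)]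
    rw [h9]
    rfl
  · intro B _ hB
    rw [if_neg]
    rintro ⟨h, h'⟩
    apply hB
    rw [← h', Finset.insert_erase h]
  · intro h
    exact absurd (Finset.mem_univ _) h

theorem bd_support (L : Finset (Finset V)) (hL : ∀ F ∈ L, ∀ G : Finset V, G ⊆ F → G ∈ L) (j : ℕ)
    (c : Finset V → k) (hc : Ch (fun B => B ∈ L) (j + 1) c) : Ch (fun B => B ∈ L) j (bd c) := by
  intro A hA
  simp only [bd] at hA
  obtain ⟨v, hv, hne⟩ := Finset.exists_ne_zero_of_sum_ne_zero hA
  rw [Finset.mem_compl] at hv
  have h1 : c (insert v A) ≠ 0 := right_ne_zero_of_mul hne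
  obtain ⟨h2, h3⟩ := hc _ h1
  rw [Finset.card_insert_of_notMem hv] at h3
  exact ⟨hL _ h2 _ (Finset.subset_insert _ _), by omega⟩

theorem ext_of_ch (L : Finset (Finset V)) (j : ℕ) (c : Finset V → k)
    (hc : Ch (fun B => B ∈ L) j c) : ext L j (fun B => c B.1) = c := by
  funext A
  unfold ext
  split_ifs with h
  · rfl
  · by_contra h'
    exact h (Finset.mem_filter.mpr (hc A fun h'' => h' h''.symm))

theorem ext_mulVec (L : Finset (Finset V)) (hL : ∀ F ∈ L, ∀ G : Finset V, G ⊆ F → G ∈ L) (j : ℕ)
    (c : Lev L (j + 1) → k) : ext L j ((Mt k L (j + 1)).mulVec c) = bd (ext L (j + 1) c) := by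
  have h1 := bd_support L hL j _ (ext_ch L (j + 1) c)
  rw [← ext_of_ch L j _ h1]
  congr 1
  funext A
  exact mulVec_eq L (j + 1) c A

theorem mulVec_zero_iff (L : Finset (Finset V)) (hL : ∀ F ∈ L, ∀ G : Finset V, G ⊆ F → G ∈ L)
    (j : ℕ) (c : Lev L j → k) : (Mt k L j).mulVec c = 0 ↔ bd (ext L j c) = 0 := by
  constructor
  · intro h
    rcases j with _ | j
    · funext A
      simp only [bd, Pi.zero_apply]
      refine Finset.sum_eq_zero fun v hv => ?_
      have : ext L 0 c (insert v A) = 0 := by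
        by_contra h'
        have := (ext_ch L 0 c _ h').2
        rw [Finset.card_eq_zero] at this
        exact Finset.insert_ne_empty v A this
      rw [this, mul_zero]
    · rw [← ext_mulVec L hL j c, h]
      funext A
      unfold ext
      split_ifs <;> rfl
  · intro h
    funext A
    rw [mulVec_eq, h]
    rfl

theorem finrank_ker (L : Finset (Finset V)) (j : ℕ) :
    Module.finrank k (LinearMap.ker (Mt k L j).mulVecLin) + (Mt k L j).rank =
      (L.filter (fun A => A.card = j)).card := by
  have h := LinearMap.finrank_range_add_finrank_ker (Mt k L j).mulVecLin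
  rw [Matrix.rank]
  have h2 : Module.finrank k (Lev L j → k) = (L.filter (fun A => A.card = j)).card := by
    rw [Module.finrank_fintype_fun_eq_card, Fintype.card_coe]
  rw [← h2, ← h, add_comm]

theorem exact_of_rank (L : Finset (Finset V)) (hL : ∀ F ∈ L, ∀ G : Finset V, G ⊆ F → G ∈ L)
    (j : ℕ) (h : ((L.filter (fun A => A.card = j)).card : ℤ) - ((Mt k L j).rank : ℤ) -
      ((Mt k L (j + 1)).rank : ℤ) = 0) (z : Finset V → k) (hz : Ch (fun B => B ∈ L) j z)
    (hb : bd z = 0) : ∃ c : Finset V → k, Ch (fun B => B ∈ L) (j + 1) c ∧ bd c = z := by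
  have h1 := finrank_ker (k := k) L j
  have hle : LinearMap.range (Mt k L (j + 1)).mulVecLin ≤
      (LinearMap.ker (Mt k L j).mulVecLin) := by
    rintro x ⟨c, rfl⟩
    rw [LinearMap.mem_ker, Matrix.mulVecLin_apply, Matrix.mulVecLin_apply]
    rw [mulVec_zero_iff L hL]
    have := ext_mulVec (k := k) L hL j c
    have h3 : ext L j ((Mt k L (j + 1)).mulVec c) = bd (ext L (j + 1) c) := this
    rw [show bd (ext L j ((Mt k L (j + 1)).mulVec c)) = bd (bd (ext L (j + 1) c)) from
      congrArg bd h3]
    exact bd_bd _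
  have heq : LinearMap.range (Mt k L (j + 1)).mulVecLin =
      (LinearMap.ker (Mt k L j).mulVecLin) := by
    have h4 : Module.finrank k (LinearMap.range (Mt k L (j + 1)).mulVecLin) =
      (Mt k L (j + 1)).rank := rfl
    have h5 : Module.finrank k (LinearMap.ker (Mt k L j).mulVecLin) =
      (Mt k L (j + 1)).rank := by omega
    exact Submodule.eq_of_le_of_finrank_eq hle (h4.trans h5.symm)
  have hzk : (fun B : Lev L j => z B.1) ∈ LinearMap.ker (Mt k L j).mulVecLin := by
    rw [LinearMap.mem_ker, Matrix.mulVecLin_apply, mulVec_zero_iff L hL, ext_of_ch L j z hz, hb]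
  rw [← heq] at hzk
  obtain ⟨c, hc⟩ := hzk
  rw [Matrix.mulVecLin_apply] at hc
  refine ⟨ext L (j + 1) c, ext_ch L (j + 1) c, ?_⟩
  rw [← ext_mulVec L hL j c]
  have h5 := congrArg (ext L j) hc
  rw [ext_of_ch L j z hz] at h5
  exact h5

theorem top_of_rank (L : Finset (Finset V)) (hL : ∀ F ∈ L, ∀ G : Finset V, G ⊆ F → G ∈ L)
    (j : ℕ) (h : ((L.filter (fun A => A.card = j)).card : ℤ) - ((Mt k L j).rank : ℤ) -
      ((Mt k L (j + 1)).rank : ℤ) = 1) (hno : ∀ A ∈ L, A.card ≠ j + 1) :
    ∃ z : Finset V → k, Ch (fun B => B ∈ L) j z ∧ bd z = 0 ∧ z ≠ 0 ∧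
      ∀ z' : Finset V → k, Ch (fun B => B ∈ L) j z' → bd z' = 0 → ∃ a : k, z' = a • z := by
  have h1 := finrank_ker (k := k) L j
  have h2 : (Mt k L (j + 1)).rank = 0 := by
    have h3 := finrank_ker (k := k) L (j + 1)
    have h4 : (L.filter (fun A => A.card = j + 1)).card = 0 := by
      rw [Finset.card_eq_zero, Finset.filter_eq_empty_iff]
      intro A hA
      exact hno A hA
    omega
  have h5 : Module.finrank k (LinearMap.ker (Mt k L j).mulVecLin) = 1 := by
    omega
  rw [finrank_eq_one_iff'] at h5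
  obtain ⟨⟨z, hz⟩, hz0, hall⟩ := h5
  rw [LinearMap.mem_ker, Matrix.mulVecLin_apply, mulVec_zero_iff L hL] at hz
  refine ⟨ext L j z, ext_ch L j z, hz, ?_, ?_⟩
  · intro h6
    apply hz0
    have : z = 0 := by
      funext B
      have h7 := congrFun h6 B.1
      unfold ext at h7
      rw [dif_pos B.2] at h7
      exact h7
    simp only [this]
    rfl
  · intro z' hz' hb'
    have hk : (fun B : Lev L j => z' B.1) ∈ LinearMap.ker (Mt k L j).mulVecLin := by
      rw [LinearMap.mem_ker, Matrix.mulVecLin_apply, mulVec_zero_iff L hL, ext_of_ch L j z' hz',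
        hb']
    obtain ⟨a, ha⟩ := hall ⟨_, hk⟩
    refine ⟨a, ?_⟩
    have h8 := congrArg Subtype.val ha
    have h9 : a • z = fun B : Lev L j => z' B.1 := h8
    rw [← ext_of_ch L j z' hz', ← h9]
    funext A
    simp only [ext, Pi.smul_apply, smul_eq_mul]
    split_ifs with hh
    · rfl
    · rw [mul_zero]

end Pool.Agent.MP19e880
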