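import Pool.Agent.Lib.MP_19e880_co.Chain

/-!
Flag homology spheres, in terms of chains: purity, and acyclicity of the complex of
non-neighbours of a vertex.
-/

set_option autoImplicit false
set_option linter.unusedSectionVars false

namespace Pool.Agent.MP19e880

variable {V : Type} [Fintype V] [LinearOrder V] {k : Type} [Field k]

/-- A flag homology sphere, in terms of chains. -/
structure HS (k : Type) [Field k] (S : Finset (Finset V)) (d : ℕ) : Prop where
  down : ∀ F ∈ S, ∀ G : Finset V, G ⊆ F → G ∈ S
  flag : ∀ F : Finset V, (∀ a ∈ F, ∀ b ∈ F, ({a, b} : Finset V) ∈ S) → F ∈ S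
  ex : ∀ σ ∈ S, ∀ j : ℕ, j + σ.card ≠ d → ∀ z : Finset V → k, Ch (LX S σ ∅) j z → bd z = 0 →
    ∃ c : Finset V → k, Ch (LX S σ ∅) (j + 1) c ∧ bd c = z
  top : ∀ σ ∈ S, ∀ j : ℕ, j + σ.card = d → ∃ z : Finset V → k, Ch (LX S σ ∅) j z ∧ bd z = 0 ∧
    z ≠ 0 ∧ ∀ z' : Finset V → k, Ch (LX S σ ∅) j z' → bd z' = 0 → ∃ a : k, z' = a • z

/-- The chain of the single set `B`. -/
def sg (k : Type) [Field k] (B : Finset V) : Finset V → k := fun A => if A = B then 1 else 0

theorem sg_ch (P : Finset V → Prop) (B : Finset V) (j : ℕ) (hB : P B) (hj : B.card = j) :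
    Ch P j (sg k B) := by
  intro A hA
  unfold sg at hA
  split_ifs at hA with h
  · rw [h]; exact ⟨hB, hj⟩
  · exact absurd rfl hA

theorem bd_sg_empty : bd (sg k (∅ : Finset V)) = 0 := by
  funext A
  simp only [bd, Pi.zero_apply]
  refine Finset.sum_eq_zero fun v _ => ?_
  have : sg k (∅ : Finset V) (insert v A) = 0 := by
    unfold sg
    rw [if_neg (Finset.insert_ne_empty v A)]
  rw [this, mul_zero]

theorem eps_empty (v : V) : eps k v ∅ = 1 := by
  simp [eps]

theorem bd_sg_single (u : V) : bd (sg k ({u} : Finset V)) = sg k ∅ := by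
  funext A
  simp only [bd]
  by_cases hA : A = ∅
  · subst hA
    rw [Finset.sum_eq_single u]
    · rw [eps_empty]
      simp [sg]
    · intro w _ hw
      have : sg k ({u} : Finset V) (insert w ∅) = 0 := by
        unfold sg
        rw [if_neg]
        intro h
        have h2 : w ∈ ({u} : Finset V) := by rw [← h]; exact Finset.mem_insert_self _ _
        exact hw (Finset.mem_singleton.mp h2)
      rw [this, mul_zero]
    · intro h
      simp at h
  · have h0 : sg k (∅ : Finset V) A = 0 := by
      unfold sg
      rw [if_neg hA]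
    rw [h0]
    refine Finset.sum_eq_zero fun w hw => ?_
    have : sg k ({u} : Finset V) (insert w A) = 0 := by
      unfold sg
      rw [if_neg]
      intro h
      rw [Finset.mem_compl] at hw
      obtain ⟨a, ha⟩ := Finset.nonempty_iff_ne_empty.mpr hA
      have h1 : a ∈ ({u} : Finset V) := by rw [← h]; exact Finset.mem_insert_of_mem ha
      have h2 : w ∈ ({u} : Finset V) := by rw [← h]; exact Finset.mem_insert_self _ _
      rw [Finset.mem_singleton] at h1 h2
      exact hw (h2.trans h1.symm ▸ ha)
    rw [this, mul_zero]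

theorem lk_eq_zero_iff (v : V) (z : Finset V → k) :
    lk v z = 0 ↔ ∀ A, v ∈ A → z A = 0 := by
  constructor
  · intro h A hA
    have h1 := congrFun h (A.erase v)
    simp only [lk, Finset.notMem_erase, if_false, Finset.insert_erase hA, Pi.zero_apply] at h1
    exact (mul_eq_zero.mp h1).resolve_left (eps_ne_zero _ _)
  · intro h
    funext A
    simp only [lk, Pi.zero_apply]
    split_ifs
    · rfl
    · rw [h _ (Finset.mem_insert_self _ _), mul_zero]

theorem lk_sub (v : V) (c e : Finset V → k) : lk v (c - e) = lk v c - lk v e := by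
  funext A
  simp only [lk, Pi.sub_apply]
  split_ifs
  · ring
  · ring

theorem lk_smul (v : V) (a : k) (c : Finset V → k) : lk v (a • c) = a • lk v c := by
  funext A
  simp only [lk, Pi.smul_apply, smul_eq_mul]
  split_ifs
  · ring
  · ring

theorem extend_aux {S : Finset (Finset V)} {d : ℕ}
    (hex : ∀ σ ∈ S, ∀ j : ℕ, j + σ.card ≠ d → ∀ z : Finset V → k, Ch (LX S σ ∅) j z → bd z = 0 →
      ∃ c : Finset V → k, Ch (LX S σ ∅) (j + 1) c ∧ bd c = z)
    (σ : Finset V) (hσ : σ ∈ S) (hd : σ.card ≠ d) :
    ∃ v, v ∉ σ ∧ insert v σ ∈ S := by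
  obtain ⟨c, hc, hb⟩ := hex σ hσ 0 (by omega) (sg k ∅)
    (sg_ch _ _ _ ⟨Finset.disjoint_empty_left _, by rw [Finset.empty_union]; exact hσ,
      Finset.disjoint_empty_left _⟩ rfl) bd_sg_empty
  have h1 := congrFun hb ∅
  have h2 : bd c ∅ ≠ 0 := by
    rw [h1]
    simp [sg]
  simp only [bd] at h2
  obtain ⟨v, _, hv⟩ := Finset.exists_ne_zero_of_sum_ne_zero h2
  obtain ⟨⟨h3, h4, _⟩, _⟩ := hc _ (right_ne_zero_of_mul hv)
  rw [Finset.disjoint_insert_left] at h3
  refine ⟨v, h3.1, ?_⟩
  rw [Finset.insert_union, Finset.empty_union] at h4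
  exact h4

theorem card_le_aux {S : Finset (Finset V)} {d : ℕ}
    (hex : ∀ σ ∈ S, ∀ j : ℕ, j + σ.card ≠ d → ∀ z : Finset V → k, Ch (LX S σ ∅) j z → bd z = 0 →
      ∃ c : Finset V → k, Ch (LX S σ ∅) (j + 1) c ∧ bd c = z)
    (σ : Finset V) (hσ : σ ∈ S) : σ.card ≤ d := by
  by_contra hcon
  rw [not_le] at hcon
  have : ∀ m : ℕ, ∃ τ ∈ S, τ.card = σ.card + m := by
    intro m
    induction m with
    | zero => exact ⟨σ, hσ, rfl⟩
    | succ m ih =>
      obtain ⟨τ, hτ, hc⟩ := ih
      obtain ⟨v, hv, hv2⟩ := extend_aux hex τ hτ (by omega)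
      exact ⟨_, hv2, by rw [Finset.card_insert_of_notMem hv]; omega⟩
  obtain ⟨τ, _, hτ⟩ := this (Fintype.card V + 1)
  have := Finset.card_le_univ τ
  omega

namespace HS

variable {S : Finset (Finset V)} {d : ℕ}

theorem extend (h : HS k S d) (σ : Finset V) (hσ : σ ∈ S) (hd : σ.card ≠ d) :
    ∃ v, v ∉ σ ∧ insert v σ ∈ S := extend_aux h.ex σ hσ hd

theorem card_le (h : HS k S d) (σ : Finset V) (hσ : σ ∈ S) : σ.card ≤ d :=
  card_le_aux h.ex σ hσ

theorem top_lk (h : HS k S d) : ∀ m : ℕ, ∀ σ ∈ S, m + σ.card = d → ∀ z : Finset V → k,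
    Ch (LX S σ ∅) m z → bd z = 0 → z ≠ 0 → ∀ v, v ∉ σ → insert v σ ∈ S → lk v z ≠ 0 := by
  intro m
  induction m with
  | zero =>
    intro σ hσ hm z _ _ _ v hv hv2
    have := h.card_le _ hv2
    rw [Finset.card_insert_of_notMem hv] at this
    omega
  | succ m ih =>
    intro σ hσ hm z hz hbz hz0 v hv hv2 hlk
    have hvz := (lk_eq_zero_iff v z).mp hlk
    -- a vertex in the support
    obtain ⟨F, hF⟩ := Function.ne_iff.mp hz0
    rw [Pi.zero_apply] at hF
    obtain ⟨⟨hF1, hF2, _⟩, hF3⟩ := hz F hF
    have hFne : F.Nonempty := by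
      rw [← Finset.card_pos]; omega
    obtain ⟨u, hu⟩ := hFne
    have huU : lk u z ≠ 0 := by
      intro h'
      exact hF ((lk_eq_zero_iff u z).mp h' F hu)
    have huσ : u ∉ σ := fun h' => (Finset.disjoint_left.mp hF1 hu) h'
    have huS : insert u σ ∈ S := h.down _ hF2 _ (by
      intro x hx
      rw [Finset.mem_insert] at hx
      rw [Finset.mem_union]
      rcases hx with rfl | hx
      · exact Or.inl hu
      · exact Or.inr hx)
    have huv : u ≠ v := by
      rintro rfl
      exact huU hlk
    have hcu : Ch (LX S σ ∅) 1 (sg k ({u} : Finset V)) := by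
      refine sg_ch _ _ _ ⟨by simpa using huσ, ?_, Finset.disjoint_empty_right _⟩ (by simp)
      rw [Finset.singleton_union]
      exact huS
    have hcv : Ch (LX S σ ∅) 1 (sg k ({v} : Finset V)) := by
      refine sg_ch _ _ _ ⟨by simpa using hv, ?_, Finset.disjoint_empty_right _⟩ (by simp)
      rw [Finset.singleton_union]
      exact hv2
    have hcyc : bd (sg k ({u} : Finset V) - sg k ({v} : Finset V)) = 0 := by
      rw [bd_sub, bd_sg_single, bd_sg_single, sub_self]
    have hvne : ({v} : Finset V) ≠ {u} := by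
      intro h'
      exact huv (Finset.singleton_injective h').symm
    rcases Nat.eq_zero_or_pos m with hm0 | hmpos
    · subst hm0
      obtain ⟨g, _, _, hg0, hg⟩ := h.top σ hσ 1 (by omega)
      obtain ⟨a, ha⟩ := hg z hz hbz
      obtain ⟨b, hb⟩ := hg _ (hcu.sub hcv) hcyc
      have ha0 : a ≠ 0 := by
        rintro rfl
        apply hz0
        rw [ha, zero_smul]
      have h1 := congrFun ha {v}
      have h2 := congrFun hb {v}
      rw [hvz _ (Finset.mem_singleton_self v)] at h1
      simp only [Pi.smul_apply, smul_eq_mul, Pi.sub_apply, sg, if_true] at h1 h2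
      have h3 : g {v} = 0 := by
        rcases mul_eq_zero.mp h1.symm with h' | h'
        · exact absurd h' ha0
        · exact h'
      rw [h3, mul_zero, if_neg hvne] at h2
      simp at h2
    · obtain ⟨c, hc, hbc⟩ := h.ex σ hσ 1 (by omega) _ (hcu.sub hcv) hcyc
      classical
      -- the set of vertices in the support
      have hclosed : ∀ a b : V, a ≠ b → LX S σ ∅ {a, b} → lk a z ≠ 0 → lk b z ≠ 0 := by
        intro a b hab hL ha hb
        obtain ⟨hL1, hL2, _⟩ := hL
        have haσ : a ∉ σ := fun h' => Finset.disjoint_left.mp hL1 (by simp) h'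
        have hbσ : b ∉ σ := fun h' => Finset.disjoint_left.mp hL1 (by simp) h'
        have haS : insert a σ ∈ S := h.down _ hL2 _ (by
          intro x hx
          rw [Finset.mem_insert] at hx
          rw [Finset.mem_union, Finset.mem_insert]
          rcases hx with rfl | hx
          · exact Or.inl (Or.inl rfl)
          · exact Or.inr hx)
        have habS : insert b (insert a σ) ∈ S := by
          have : insert b (insert a σ) = {a, b} ∪ σ := by
            ext x
            simp only [Finset.mem_insert, Finset.mem_union, Finset.mem_singleton]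
            tauto
          rw [this]
          exact hL2
        refine ih (insert a σ) haS ?_ (lk a z) ?_ ?_ ha b ?_ habS ?_
        · rw [Finset.card_insert_of_notMem haσ]; omega
        · exact lk_chain S σ ∅ a m z hz
        · rw [bd_lk, hbz]
          funext A
          simp [lk]
        · rw [Finset.mem_insert, not_or]
          exact ⟨fun h' => hab h'.symm, hbσ⟩
        · rw [lk_eq_zero_iff]
          intro A hA
          have := (lk_eq_zero_iff b z).mp hb
          simp only [lk]
          split_ifs
          · rfl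
          · rw [this _ (Finset.mem_insert_of_mem hA), mul_zero]
      let e : Finset V → k := fun A => if ∀ w ∈ A, lk w z ≠ 0 then c A else 0
      have he : ∀ w : V, bd e {w} = if lk w z ≠ 0 then bd c {w} else 0 := by
        intro w
        simp only [bd]
        by_cases hw : lk w z ≠ 0
        · rw [if_pos hw]
          refine Finset.sum_congr rfl fun x hx => ?_
          congr 1
          by_cases hx2 : c (insert x {w}) = 0
          · simp only [e]
            rw [hx2]
            split_ifs <;> rfl
          · have hL := (hc _ hx2).1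
            rw [Finset.mem_compl, Finset.mem_singleton] at hx
            have hxw := hclosed w x (fun h' => hx h'.symm) (by
              rw [Finset.pair_comm]; exact hL) hw
            simp only [e]
            rw [if_pos]
            intro y hy
            rw [Finset.mem_insert, Finset.mem_singleton] at hy
            rcases hy with rfl | rfl
            · exact hxw
            · exact hw
        · rw [if_neg hw]
          refine Finset.sum_eq_zero fun x _ => ?_
          have : e (insert x {w}) = 0 := by
            simp only [e]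
            rw [if_neg]
            intro h'
            exact hw (h' w (by simp))
          rw [this, mul_zero]
      have hbb := congrFun (bd_bd e) ∅
      have hsum : bd (bd e) ∅ = 1 := by
        have h1 : bd (bd e) ∅ = ∑ w : V, bd e {w} := by
          conv_lhs => unfold bd
          simp only [Finset.compl_empty]
          refine Finset.sum_congr rfl fun w _ => ?_
          rw [eps_empty, one_mul]
          rfl
        rw [h1, Finset.sum_eq_single u]
        · rw [he, if_pos huU, hbc]
          simp only [Pi.sub_apply, sg, if_true]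
          rw [if_neg (fun h' => hvne h'.symm), sub_zero]
        · intro w _ hw
          rw [he]
          split_ifs with h'
          · rw [hbc]
            have hwv : w ≠ v := by
              rintro rfl
              exact h' hlk
            simp only [Pi.sub_apply, sg]
            rw [if_neg (fun h'' => hw (Finset.singleton_injective h'')),
              if_neg (fun h'' => hwv (Finset.singleton_injective h'')), sub_zero]
          · rfl
        · intro h'
          exact absurd (Finset.mem_univ _) h'
      rw [hsum, Pi.zero_apply] at hbb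
      exact one_ne_zero hbb

theorem acyc_v (h : HS k S d) (σ : Finset V) (hσ : σ ∈ S) (v : V) (hv : v ∉ σ)
    (hv2 : insert v σ ∈ S) : Acyc k (LX S σ {v}) := by
  intro j z hz hbz
  have hz' : Ch (LX S σ ∅) j z := hz.mono fun A _ hA => ⟨hA.1, hA.2.1,
    Finset.disjoint_empty_right _⟩
  have hzv : ∀ A, v ∈ A → z A = 0 := by
    intro A hA
    by_contra h'
    exact Finset.disjoint_left.mp (hz A h').1.2.2 hA (Finset.mem_singleton_self v)
  by_cases hj : j + σ.card = d
  · have hz0 : z = 0 := by
      by_contra hz0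
      exact h.top_lk j σ hσ hj z hz' hbz hz0 v hv hv2 ((lk_eq_zero_iff v z).mpr hzv)
    refine ⟨0, Ch.zero, ?_⟩
    rw [bd_zero, hz0]
  · obtain ⟨c, hc, hbc⟩ := h.ex σ hσ j hj z hz' hbz
    have hlc := lk_chain S σ ∅ v j c hc
    have hblc : bd (lk v c) = 0 := by
      rw [bd_lk, hbc, (lk_eq_zero_iff v z).mpr hzv, neg_zero]
    by_cases hj2 : j + (insert v σ).card = d
    · obtain ⟨z0, hz0, hbz0, hz00, _⟩ := h.top σ hσ (j + 1) (by
        rw [Finset.card_insert_of_notMem hv] at hj2; omega)
      obtain ⟨g, _, _, _, hg⟩ := h.top (insert v σ) hv2 j hj2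
      have hl0 := h.top_lk (j + 1) σ hσ (by
        rw [Finset.card_insert_of_notMem hv] at hj2; omega) z0 hz0 hbz0 hz00 v hv hv2
      obtain ⟨a, ha⟩ := hg _ hlc hblc
      obtain ⟨b, hb⟩ := hg _ (lk_chain S σ ∅ v j z0 hz0) (by
        rw [bd_lk, hbz0]
        funext A
        simp [lk])
      have hb0 : b ≠ 0 := by
        rintro rfl
        apply hl0
        rw [hb, zero_smul]
      refine ⟨c - (a / b) • z0, ?_, ?_⟩
      · intro A hA
        have h1 := (hc.sub (hz0.smul (a / b))) A hA
        refine ⟨⟨h1.1.1, h1.1.2.1, ?_⟩, h1.2⟩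
        rw [Finset.disjoint_singleton_right]
        intro hvA
        apply hA
        refine (lk_eq_zero_iff v _).mp ?_ A hvA
        rw [lk_sub, lk_smul, ha, hb, smul_smul, div_mul_cancel₀ _ hb0, sub_self]
      · rw [bd_sub, bd_smul, hbz0, smul_zero, sub_zero, hbc]
    · obtain ⟨e, he, hbe⟩ := h.ex (insert v σ) hv2 j hj2 _ hlc hblc
      obtain ⟨h3, h4⟩ := push S h.down σ ∅ v j c e hc he (by
        intro A hA
        rw [hbc, hzv A hA]) hbe
      exact ⟨_, h3, h4.trans hbc⟩

theorem flag_insert (h : HS k S d) (σ : Finset V) (v x : V) (hv : insert v σ ∈ S)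
    (hx : insert x σ ∈ S) (hxv : ({x, v} : Finset V) ∈ S) : insert v (insert x σ) ∈ S := by
  apply h.flag
  intro a ha b hb
  have key : ∀ a b : V, (a ∈ insert v σ ∧ b ∈ insert v σ) ∨ (a ∈ insert x σ ∧ b ∈ insert x σ) →
      ({a, b} : Finset V) ∈ S := by
    rintro a b (⟨h1, h2⟩ | ⟨h1, h2⟩)
    · refine h.down _ hv _ ?_
      intro y hy
      rw [Finset.mem_insert, Finset.mem_singleton] at hy
      rcases hy with rfl | rfl
      · exact h1
      · exact h2
    · refine h.down _ hx _ ?_
      intro y hy
      rw [Finset.mem_insert, Finset.mem_singleton] at hy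
      rcases hy with rfl | rfl
      · exact h1
      · exact h2
  simp only [Finset.mem_insert] at ha hb key
  rcases ha with rfl | rfl | ha <;> rcases hb with rfl | rfl | hb
  · exact key _ _ (Or.inl ⟨Or.inl rfl, Or.inl rfl⟩)
  · rw [Finset.pair_comm]; exact hxv
  · exact key _ _ (Or.inl ⟨Or.inl rfl, Or.inr hb⟩)
  · exact hxv
  · exact key _ _ (Or.inr ⟨Or.inl rfl, Or.inl rfl⟩)
  · exact key _ _ (Or.inr ⟨Or.inl rfl, Or.inr hb⟩)
  · exact key _ _ (Or.inl ⟨Or.inr ha, Or.inl rfl⟩)
  · exact key _ _ (Or.inr ⟨Or.inr ha, Or.inl rfl⟩)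
  · exact key _ _ (Or.inl ⟨Or.inr ha, Or.inr hb⟩)

theorem acyc_X (h : HS k S d) (v : V) (X : Finset V) :
    (∀ y ∈ X, ({y, v} : Finset V) ∈ S) → ∀ σ ∈ S, v ∉ σ → insert v σ ∈ S →
      Acyc k (LX S σ (insert v X)) := by
  induction X using Finset.induction_on with
  | empty =>
    intro _ σ hσ hv hv2
    exact h.acyc_v σ hσ v hv hv2
  | insert x X hx ih =>
    intro hX σ hσ hv hv2
    have ih' := ih (fun y hy => hX y (Finset.mem_insert_of_mem hy))
    by_cases hxv : x = v
    · rw [hxv, Finset.insert_idem]
      exact ih' σ hσ hv hv2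
    · rw [Finset.insert_comm]
      refine acyc_insert S h.down σ (insert v X) x (ih' σ hσ hv hv2) ?_
      by_cases hxσ : insert x σ ∈ S
      · refine ih' (insert x σ) hxσ ?_ ?_
        · rw [Finset.mem_insert, not_or]
          exact ⟨fun h' => hxv h'.symm, hv⟩
        · exact h.flag_insert σ v x hv2 hxσ (hX x (Finset.mem_insert_self _ _))
      · intro j z hz _
        refine ⟨0, Ch.zero, ?_⟩
        rw [bd_zero]
        funext A
        by_contra hA
        obtain ⟨⟨_, h2, _⟩, _⟩ := hz A (fun h' => hA h'.symm)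
        exact hxσ (h.down _ h2 _ Finset.subset_union_right)

/-- The closed neighbourhood of `v`. -/
def _root_.Pool.Agent.MP19e880.Nb (S : Finset (Finset V)) (v : V) : Finset V :=
  Finset.univ.filter (fun x => ({x, v} : Finset V) ∈ S)

theorem acyc_K (h : HS k S d) (σ : Finset V) (hσ : σ ∈ S) (v : V) (hv : v ∉ σ)
    (hv2 : insert v σ ∈ S) : Acyc k (LX S σ (Nb S v)) := by
  have h1 := h.acyc_X v (Nb S v) (fun y hy => (Finset.mem_filter.mp hy).2) σ hσ hv hv2
  have h2 : insert v (Nb S v) = Nb S v := by
    apply Finset.insert_eq_of_mem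
    unfold Nb
    rw [Finset.mem_filter]
    refine ⟨Finset.mem_univ _, h.down _ hv2 _ ?_⟩
    intro y hy
    rw [Finset.mem_insert, Finset.mem_singleton] at hy
    rcases hy with rfl | rfl <;> exact Finset.mem_insert_self _ _
  rwa [h2] at h1

end HS

end Pool.Agent.MP19e880
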