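import Pool.Agent.Lib.MP_19e880_co.Join

/-!
Strong connectivity, and irreducible links.
-/

set_option autoImplicit false
set_option linter.unusedSectionVars false

namespace Pool.Agent.MP19e880

open Polynomial

variable {V : Type} [Fintype V] [LinearOrder V] {k : Type} [Field k]

/-- `F` is a facet of the link of `σ`. -/
def Fac (S : Finset (Finset V)) (d : ℕ) (σ F : Finset V) : Prop :=
  Disjoint F σ ∧ F ∪ σ ∈ S ∧ F.card + σ.card = d

namespace HS

variable {S : Finset (Finset V)} {d : ℕ}

/-- A nonzero top cycle does not vanish at any facet. -/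
theorem top_ne (h : HS k S d) : ∀ m : ℕ, ∀ σ ∈ S, m + σ.card = d → ∀ z : Finset V → k,
    Ch (LX S σ ∅) m z → bd z = 0 → z ≠ 0 → ∀ F, Fac S d σ F → z F ≠ 0 := by
  intro m
  induction m with
  | zero =>
    intro σ hσ hm z hz hbz hz0 F hF
    obtain ⟨h1, h2, h3⟩ := hF
    have hF0 : F = ∅ := by
      rw [← Finset.card_eq_zero]; omega
    obtain ⟨G, hG⟩ := Function.ne_iff.mp hz0
    rw [Pi.zero_apply] at hG
    have h4 := (hz G hG).2
    rw [Finset.card_eq_zero] at h4
    rw [hF0, ← h4]
    exact hG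
  | succ m ih =>
    intro σ hσ hm z hz hbz hz0 F hF
    obtain ⟨h1, h2, h3⟩ := hF
    have hne : F.Nonempty := by
      rw [← Finset.card_pos]; omega
    obtain ⟨v, hv⟩ := hne
    have hvσ : v ∉ σ := Finset.disjoint_left.mp h1 hv
    have hvS : insert v σ ∈ S := h.down _ h2 _
      (Finset.insert_subset (Finset.mem_union_left _ hv) Finset.subset_union_right)
    have h4 := h.top_lk (m + 1) σ hσ hm z hz hbz hz0 v hvσ hvS
    have h5 := ih (insert v σ) hvS (by rw [Finset.card_insert_of_notMem hvσ]; omega) (lk v z)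
      (lk_chain S σ ∅ v m z hz) (by
        rw [bd_lk, hbz]
        funext A
        simp [lk]) h4 (F.erase v) ⟨?_, ?_, ?_⟩
    · intro h6
      apply h5
      simp only [lk, Finset.notMem_erase, if_false, Finset.insert_erase hv]
      rw [h6, mul_zero]
    · rw [Finset.disjoint_insert_right]
      exact ⟨Finset.notMem_erase _ _, Finset.disjoint_of_subset_left (Finset.erase_subset _ _) h1⟩
    · rw [Finset.union_insert, ← Finset.insert_union, Finset.insert_erase hv]
      exact h2
    · rw [Finset.card_erase_of_mem hv, Finset.card_insert_of_notMem hvσ]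
      have : 0 < F.card := Finset.card_pos.mpr ⟨v, hv⟩
      omega

/-- Strong connectivity. -/
theorem strong (h : HS k S d) (σ : Finset V) (hσ : σ ∈ S) (P : Finset V → Prop)
    (F0 : Finset V) (hF0 : Fac S d σ F0) (hP0 : P F0)
    (hcl : ∀ (R : Finset V) (u u' : V), u ∉ R → u' ∉ R → Fac S d σ (insert u R) →
      Fac S d σ (insert u' R) → P (insert u R) → P (insert u' R)) :
    ∀ F, Fac S d σ F → P F := by
  classical
  have hcd := h.card_le σ hσ
  obtain ⟨z, hz, hbz, hz0, hall⟩ := h.top σ hσ (d - σ.card) (by omega)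
  have hzne := h.top_ne (d - σ.card) σ hσ (by omega) z hz hbz hz0
  have hfac : ∀ F, z F ≠ 0 → Fac S d σ F := by
    intro F hF
    obtain ⟨⟨h1, h2, _⟩, h3⟩ := hz F hF
    exact ⟨h1, h2, by omega⟩
  let z' : Finset V → k := fun F => if P F then z F else 0
  have hz' : Ch (LX S σ ∅) (d - σ.card) z' := by
    intro F hF
    refine hz F ?_
    intro h0
    apply hF
    simp only [z', h0]
    split_ifs <;> rfl
  have hbz' : bd z' = 0 := by
    funext A
    have hA := congrFun hbz A
    rw [Pi.zero_apply] at hA ⊢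
    simp only [bd] at hA ⊢
    by_cases hex : ∃ u, u ∉ A ∧ z (insert u A) ≠ 0 ∧ P (insert u A)
    · obtain ⟨u, hu, hu2, hu3⟩ := hex
      rw [← hA]
      refine Finset.sum_congr rfl fun v hv => ?_
      rw [Finset.mem_compl] at hv
      by_cases h0 : z (insert v A) = 0
      · simp only [z', h0]
        split_ifs <;> rfl
      · have h1 : P (insert v A) := hcl A u v hu hv (hfac _ hu2) (hfac _ h0) hu3
        simp only [z', if_pos h1]
    · refine Finset.sum_eq_zero fun v hv => ?_
      rw [Finset.mem_compl] at hv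
      by_cases h0 : z (insert v A) = 0
      · simp only [z', h0]
        split_ifs <;> simp
      · have h1 : ¬ P (insert v A) := fun h2 => hex ⟨v, hv, h0, h2⟩
        simp only [z', if_neg h1, mul_zero]
  obtain ⟨a, ha⟩ := hall z' hz' hbz'
  have ha1 : a ≠ 0 := by
    rintro rfl
    have h1 := congrFun ha F0
    simp only [z', if_pos hP0, zero_smul, Pi.zero_apply] at h1
    exact hzne F0 hF0 h1
  intro F hF
  by_contra hPF
  have h1 := congrFun ha F
  simp only [z', if_neg hPF, Pi.smul_apply, smul_eq_mul] at h1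
  rcases mul_eq_zero.mp h1.symm with h2 | h2
  · exact ha1 h2
  · exact hzne F hF h2

/-- The link of a ridge has two vertices. -/
theorem two (hE : Eul S d) (ρ : Finset V) (hρ : ρ ∈ S) (hd : ρ.card + 1 = d) :
    (lv S ρ).card = 2 := by
  have h1 := hE.ev ρ hρ 1 hd 0
  have hf0 := fn_zero S ρ hρ
  simp only [Finset.sum_range_succ, Finset.sum_range_zero, hf0] at h1
  norm_num at h1
  rw [fn_one S hE.down] at h1
  have : ((lv S ρ).card : ℤ) = 2 := by linarith
  exact_mod_cast this

end HS

/-- The link of `σ` is not a join. -/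
def Irr (S : Finset (Finset V)) (σ : Finset V) : Prop :=
  ∀ A : Finset V, A ⊆ lv S σ → A.Nonempty → A ≠ lv S σ →
    ∃ a ∈ A, ∃ b ∈ lv S σ \ A, ({a, b} : Finset V) ∉ S

theorem mem_lv {S : Finset (Finset V)} (σ : Finset V) (x : V) :
    x ∈ lv S σ ↔ x ∉ σ ∧ insert x σ ∈ S := by
  unfold lv
  rw [Finset.mem_filter]
  simp

theorem lv_flag {S : Finset (Finset V)} {d : ℕ} (hE : Eul S d) (σ F : Finset V)
    (hσ : σ ∈ S) (hF : F ⊆ lv S σ) (hp : ∀ a ∈ F, ∀ b ∈ F, ({a, b} : Finset V) ∈ S) :
    F ∪ σ ∈ S := by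
  apply hE.flag
  intro a ha b hb
  rw [Finset.mem_union] at ha hb
  rcases ha with ha | ha <;> rcases hb with hb | hb
  · exact hp a ha b hb
  · exact pair_mem hE _ ((mem_lv σ a).mp (hF ha)).2 a b (Finset.mem_insert_self _ _)
      (Finset.mem_insert_of_mem hb)
  · exact pair_mem hE _ ((mem_lv σ b).mp (hF hb)).2 a b (Finset.mem_insert_of_mem ha)
      (Finset.mem_insert_self _ _)
  · exact pair_mem hE σ hσ a b ha hb

theorem lv_insert_sub {S : Finset (Finset V)} {d : ℕ} (hE : Eul S d) (σ : Finset V) (x : V) :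
    lv S (insert x σ) ⊆ lv S σ := by
  intro y hy
  rw [mem_lv, Finset.mem_insert, not_or] at hy
  rw [mem_lv]
  exact ⟨hy.1.2, hE.down _ hy.2 _ (Finset.insert_subset_insert _ (Finset.subset_insert _ _))⟩

theorem mem_lv_insert {S : Finset (Finset V)} {d : ℕ} (h : HS k S d) (hE : Eul S d)
    (σ : Finset V) (x y : V) (hx : x ∈ lv S σ) :
    y ∈ lv S (insert x σ) ↔ y ∈ lv S σ ∧ y ≠ x ∧ ({x, y} : Finset V) ∈ S := by
  constructor
  · intro hy
    refine ⟨lv_insert_sub hE σ x hy, ?_, ?_⟩
    · rintro rfl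
      rw [mem_lv] at hy
      exact hy.1 (Finset.mem_insert_self _ _)
    · rw [mem_lv] at hy
      exact pair_mem hE _ hy.2 x y (Finset.mem_insert_of_mem (Finset.mem_insert_self _ _))
        (Finset.mem_insert_self _ _)
  · rintro ⟨h1, h2, h3⟩
    rw [mem_lv] at h1 hx ⊢
    refine ⟨?_, h.flag_insert σ y x h1.2 hx.2 h3⟩
    rw [Finset.mem_insert, not_or]
    exact ⟨h2, h1.1⟩

/-- If the link is not irreducible, it is a join. -/
theorem join_of_not_irr {S : Finset (Finset V)} {d : ℕ} (h : HS k S d) (hE : Eul S d)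
    (σ : Finset V) (hσ : σ ∈ S) (hirr : ¬ Irr S σ) : ∃ τ, JF S d σ τ := by
  unfold Irr at hirr
  push Not at hirr
  obtain ⟨A, hA1, hA2, hA3, hA4⟩ := hirr
  obtain ⟨P, hP1, hP2, hP3⟩ := exists_facet h σ hσ
  have hPlv : P ⊆ lv S σ := by
    intro y hy
    rw [mem_lv]
    exact ⟨Finset.disjoint_left.mp hP1 hy, hE.down _ hP2 _
      (Finset.insert_subset (Finset.mem_union_left _ hy) Finset.subset_union_right)⟩
  -- a vertex adjacent to all of `P` lies in `P`
  have hmax : ∀ y ∈ lv S σ, (∀ a ∈ P, ({y, a} : Finset V) ∈ S) → y ∈ P := by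
    intro y hy hya
    by_contra hyP
    have h1 : insert y P ∪ σ ∈ S := by
      refine lv_flag hE σ (insert y P) hσ (Finset.insert_subset hy hPlv) ?_
      intro a ha b hb
      rw [Finset.mem_insert] at ha hb
      rcases ha with rfl | ha <;> rcases hb with rfl | hb
      · exact pair_mem hE _ ((mem_lv σ _).mp hy).2 _ _ (Finset.mem_insert_self _ _)
          (Finset.mem_insert_self _ _)
      · exact hya b hb
      · rw [Finset.pair_comm]; exact hya a ha
      · exact pair_mem hE _ hP2 a b (Finset.mem_union_left _ ha) (Finset.mem_union_left _ hb)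
    have h2 := hE.le _ h1
    rw [Finset.insert_union, Finset.card_insert_of_notMem (by
      rw [Finset.mem_union, not_or]
      exact ⟨hyP, ((mem_lv σ _).mp hy).1⟩), Finset.card_union_of_disjoint hP1] at h2
    omega
  obtain ⟨b0, hb0⟩ : (lv S σ \ A).Nonempty := by
    rw [Finset.sdiff_nonempty]
    intro h'
    exact hA3 (Finset.Subset.antisymm hA1 h')
  have hPA : (P ∩ A).Nonempty := by
    by_contra hcon
    rw [Finset.not_nonempty_iff_eq_empty] at hcon
    obtain ⟨a, ha⟩ := hA2
    have haP : a ∈ P := by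
      refine hmax a (hA1 ha) ?_
      intro b hb
      refine hA4 a ha b ?_
      rw [Finset.mem_sdiff]
      refine ⟨hPlv hb, ?_⟩
      intro hbA
      have : b ∈ P ∩ A := Finset.mem_inter.mpr ⟨hb, hbA⟩
      rw [hcon] at this
      exact absurd this (Finset.notMem_empty _)
    have : a ∈ P ∩ A := Finset.mem_inter.mpr ⟨haP, ha⟩
    rw [hcon] at this
    exact absurd this (Finset.notMem_empty _)
  have hPB : (P \ A).Nonempty := by
    by_contra hcon
    rw [Finset.not_nonempty_iff_eq_empty, Finset.sdiff_eq_empty_iff_subset] at hcon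
    have hbP : b0 ∈ P := by
      refine hmax b0 (Finset.mem_sdiff.mp hb0).1 ?_
      intro a ha
      rw [Finset.pair_comm]
      exact hA4 a (hcon ha) b0 hb0
    exact (Finset.mem_sdiff.mp hb0).2 (hcon hbP)
  refine ⟨σ ∪ (P ∩ A), ?_, ?_, ?_, ?_⟩
  · rw [Finset.ssubset_iff_subset_ne]
    refine ⟨Finset.subset_union_left, ?_⟩
    intro heq
    obtain ⟨a, ha⟩ := hPA
    have h1 : a ∈ σ := by
      rw [heq]
      exact Finset.mem_union_right _ ha
    exact Finset.disjoint_left.mp hP1 (Finset.mem_inter.mp ha).1 h1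
  · refine hE.down _ hP2 _ ?_
    rw [Finset.union_comm]
    exact Finset.union_subset_union_left Finset.inter_subset_left
  · rw [Finset.union_comm, Finset.card_union_of_disjoint
      (Finset.disjoint_of_subset_left Finset.inter_subset_left hP1)]
    have h1 := Finset.card_inter_add_card_sdiff P A
    have h2 := Finset.card_pos.mpr hPB
    omega
  · intro x y hx hx2 hx3 hy hy2
    rw [Finset.mem_union, not_or] at hy
    -- `y` is not in `A`
    have hylv : y ∈ lv S σ := by
      rw [mem_lv]
      exact ⟨hy.1, hE.down _ hy2 _ (Finset.insert_subset_insert _ Finset.subset_union_left)⟩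
    have hxlv : x ∈ lv S σ := (mem_lv σ x).mpr ⟨hx, hx2⟩
    have key : ∀ y ∈ lv S σ, y ∈ A → insert y (σ ∪ (P ∩ A)) ∈ S → y ∈ P := by
      intro y hyl hyA hyS
      refine hmax y hyl ?_
      intro a ha
      by_cases haA : a ∈ A
      · exact pair_mem hE _ hyS y a (Finset.mem_insert_self _ _)
          (Finset.mem_insert_of_mem (Finset.mem_union_right _ (Finset.mem_inter.mpr ⟨ha, haA⟩)))
      · exact hA4 y hyA a (Finset.mem_sdiff.mpr ⟨hPlv ha, haA⟩)
    have hyA : y ∉ A := by
      intro hyA
      exact hy.2 (Finset.mem_inter.mpr ⟨key y hylv hyA hy2, hyA⟩)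
    have hxA : x ∈ A := by
      by_contra hxA
      rcases hx3 with hx3 | hx3
      · apply hx3
        have h1 : insert x (P ∩ A) ∪ σ ∈ S := by
          refine lv_flag hE σ _ hσ (Finset.insert_subset hxlv
            (Finset.inter_subset_left.trans hPlv)) ?_
          intro a ha b hb
          rw [Finset.mem_insert, Finset.mem_inter] at ha hb
          rcases ha with rfl | ha <;> rcases hb with rfl | hb
          · exact pair_mem hE _ hx2 _ _ (Finset.mem_insert_self _ _)
              (Finset.mem_insert_self _ _)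
          · rw [Finset.pair_comm]
            exact hA4 b hb.2 _ (Finset.mem_sdiff.mpr ⟨hxlv, hxA⟩)
          · exact hA4 a ha.2 _ (Finset.mem_sdiff.mpr ⟨hxlv, hxA⟩)
          · exact pair_mem hE _ hP2 a b (Finset.mem_union_left _ ha.1)
              (Finset.mem_union_left _ hb.1)
        rw [Finset.insert_union, Finset.union_comm] at h1
        exact h1
      · rw [Finset.mem_union] at hx3
        rcases hx3 with hx3 | hx3
        · exact hx hx3
        · exact hxA (Finset.mem_inter.mp hx3).2
    exact hA4 x hxA y (Finset.mem_sdiff.mpr ⟨hylv, hyA⟩)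

end Pool.Agent.MP19e880
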